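import Pool.Agent.LibAV71.Par

/-! Task D2: the barrier `gg`: elementary properties and boundary estimates, positive order. -/

set_option autoImplicit false

open Filter Topology Complex ComplexConjugate

namespace Pool.Agent.LibAV71

noncomputable section

variable {ρ β : ℝ}

/-- the barrier function (to be used as `(A/2 * gg)^2`) -/
def gg (c : Par ρ β) (s t : ℂ) : ℝ :=
  Phi c.μ c.lm c.lp c.dm c.dp ‖Complex.exp (c.μ * s) - Complex.exp (c.μ * t)‖
    + ((c.dm : ℂ) * Complex.exp (c.lm * (s + conj t) / 2)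
        + (c.dp : ℂ) * Complex.exp (c.lp * (s + conj t) / 2)).re

theorem par_pos (hρ : 0 < ρ) (c : Par ρ β) : 0 < c.μ ∧ 0 < ee c.μ c.lm ∧ ee c.μ c.lm < 1 ∧
    0 < ee c.μ c.lp ∧ ee c.μ c.lp < 1 ∧ 0 < kk c.μ c.lm c.dm ∧ 0 < kk c.μ c.lp c.dp := by
  have hσ := c.hσ
  have h1 := c.h1
  have h2 := c.h2
  have h3 := c.h3
  have h4 := c.h4
  have hμ : 0 < c.μ := by linarith
  have hdiv : ∀ l : ℝ, c.μ / 2 < l → l < c.μ → 0 < ee c.μ l ∧ ee c.μ l < 1 := by
    intro l hl1 hl2
    unfold ee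
    constructor
    · have : 1 / 2 < l / c.μ := by
        rw [lt_div_iff₀ hμ]; linarith
      linarith
    · have : l / c.μ < 1 := by
        rw [div_lt_one hμ]; exact hl2
      linarith
  obtain ⟨a1, a2⟩ := hdiv c.lm h1 (by linarith)
  obtain ⟨b1, b2⟩ := hdiv c.lp (by linarith) h4
  refine ⟨hμ, a1, a2, b1, b2, ?_, ?_⟩
  · unfold kk
    have := c.hdm
    have h5 : 0 < 1 - ee c.μ c.lm := by linarith
    positivity
  · unfold kk
    have := c.hdp
    have h5 : 0 < 1 - ee c.μ c.lp := by linarith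
    positivity

theorem gg_continuous (hρ : 0 < ρ) (c : Par ρ β) :
    Continuous (fun p : ℂ × ℂ => gg c p.1 p.2) := by
  obtain ⟨hμ, a1, a2, b1, b2, k1, k2⟩ := par_pos hρ c
  have hP : Continuous (Phi c.μ c.lm c.lp c.dm c.dp) := by
    unfold Phi
    have e1 : Continuous fun x : ℝ => x ^ (ee c.μ c.lm) := Real.continuous_rpow_const a1.le
    have e2 : Continuous fun x : ℝ => x ^ (ee c.μ c.lp) := Real.continuous_rpow_const b1.le
    exact (continuous_id.add (continuous_const.mul e1)).add (continuous_const.mul e2)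
  unfold gg
  refine Continuous.add (hP.comp ?_) (Complex.continuous_re.comp ?_)
  · fun_prop
  · fun_prop

theorem gg_per (c : Par ρ β) (y : ℝ) (s t : ℂ) : gg c (s + y * I) (t + y * I) = gg c s t := by
  unfold gg
  have e1 : ‖Complex.exp (c.μ * (s + y * I)) - Complex.exp (c.μ * (t + y * I))‖
      = ‖Complex.exp (c.μ * s) - Complex.exp (c.μ * t)‖ := by
    have : Complex.exp (c.μ * (s + y * I)) - Complex.exp (c.μ * (t + y * I))
        = Complex.exp (((c.μ * y : ℝ) : ℂ) * I)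
          * (Complex.exp (c.μ * s) - Complex.exp (c.μ * t)) := by
      rw [mul_sub, ← Complex.exp_add, ← Complex.exp_add]
      congr 2 <;> push_cast <;> ring
    rw [this, norm_mul, Complex.norm_exp_ofReal_mul_I, one_mul]
  have e2 : (s + y * I) + conj (t + y * I) = s + conj t := by
    simp only [map_add, map_mul, Complex.conj_ofReal, Complex.conj_I]
    ring
  rw [e1, e2]

theorem bar_term_re (d l : ℝ) (s t : ℂ) :
    ((d : ℂ) * Complex.exp (l * (s + conj t) / 2)).re
      = d * (Real.exp (l * ((s.re + t.re) / 2)) * Real.cos (l * (s.im - t.im) / 2)) := by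
  rw [Complex.re_ofReal_mul, Complex.exp_re]
  have h1 : (l * (s + conj t) / 2 : ℂ).re = l * ((s.re + t.re) / 2) := by
    have : (l * (s + conj t) / 2 : ℂ) = ((l / 2 : ℝ) : ℂ) * (s + conj t) := by
      push_cast; ring
    rw [this, Complex.re_ofReal_mul]
    simp only [Complex.add_re, Complex.conj_re]
    ring
  have h2 : (l * (s + conj t) / 2 : ℂ).im = l * (s.im - t.im) / 2 := by
    have : (l * (s + conj t) / 2 : ℂ) = ((l / 2 : ℝ) : ℂ) * (s + conj t) := by
      push_cast; ring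
    rw [this, Complex.im_ofReal_mul]
    simp only [Complex.add_im, Complex.conj_im]
    ring
  rw [h1, h2]

theorem bar_cos_le {μ l x : ℝ} (hμ : 0 < μ) (hl0 : 0 < l) (hl : l < μ)
    (hx : |x| ≤ Real.pi / μ) :
    Real.cos (l * Real.pi / (2 * μ)) ≤ Real.cos (l * x / 2) := by
  rw [← Real.cos_abs (l * x / 2)]
  have hπ := Real.pi_pos
  have e1 : |l * x / 2| = l * |x| / 2 := by
    rw [abs_div, abs_mul, abs_of_pos hl0]
    norm_num
  rw [e1]
  apply Real.cos_le_cos_of_nonneg_of_le_pi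
  · positivity
  · rw [div_le_iff₀ (by positivity)]
    nlinarith
  · have : l * |x| ≤ l * (Real.pi / μ) := mul_le_mul_of_nonneg_left hx hl0.le
    calc l * |x| / 2 ≤ l * (Real.pi / μ) / 2 := by linarith
      _ = l * Real.pi / (2 * μ) := by field_simp

theorem bar_cos_pos {μ l : ℝ} (hμ : 0 < μ) (hl0 : 0 < l) (hl : l < μ) :
    0 < Real.cos (l * Real.pi / (2 * μ)) := by
  have hπ := Real.pi_pos
  apply Real.cos_pos_of_mem_Ioo
  constructor
  · have : 0 < l * Real.pi / (2 * μ) := by positivity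
    linarith
  · rw [div_lt_iff₀ (by positivity)]
    nlinarith

theorem bar_l (hρ : 0 < ρ) (c : Par ρ β) : 0 < c.lm ∧ c.lm < c.μ ∧ 0 < c.lp ∧ c.lp < c.μ := by
  have hσ := c.hσ
  have h1 := c.h1
  have h2 := c.h2
  have h3 := c.h3
  have h4 := c.h4
  refine ⟨by linarith, by linarith, by linarith, h4⟩

/-- lower bound of the second summand -/
theorem psi_ge (hρ : 0 < ρ) (c : Par ρ β) (s t : ℂ) (h : |s.im - t.im| ≤ Real.pi / c.μ) :
    c.dm * Real.cos (c.lm * Real.pi / (2 * c.μ)) * Real.exp (c.lm * ((s.re + t.re) / 2)) +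
      c.dp * Real.cos (c.lp * Real.pi / (2 * c.μ)) * Real.exp (c.lp * ((s.re + t.re) / 2)) ≤
    ((c.dm : ℂ) * Complex.exp (c.lm * (s + conj t) / 2)
        + (c.dp : ℂ) * Complex.exp (c.lp * (s + conj t) / 2)).re := by
  obtain ⟨hμ, -⟩ := par_pos hρ c
  obtain ⟨l1, l2, l3, l4⟩ := bar_l hρ c
  rw [Complex.add_re, bar_term_re, bar_term_re]
  have c1 := bar_cos_le hμ l1 l2 h
  have c2 := bar_cos_le hμ l3 l4 h
  have hdm := c.hdm
  have hdp := c.hdp
  apply add_le_add
  · rw [mul_assoc, mul_comm (Real.cos _)]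
    exact mul_le_mul_of_nonneg_left
      (mul_le_mul_of_nonneg_left c1 (Real.exp_pos _).le) hdm.le
  · rw [mul_assoc, mul_comm (Real.cos _)]
    exact mul_le_mul_of_nonneg_left
      (mul_le_mul_of_nonneg_left c2 (Real.exp_pos _).le) hdp.le

theorem bar_Phi_ge (hρ : 0 < ρ) (c : Par ρ β) {x : ℝ} (hx : 0 ≤ x) :
    x ≤ Phi c.μ c.lm c.lp c.dm c.dp x := by
  obtain ⟨hμ, a1, a2, b1, b2, k1, k2⟩ := par_pos hρ c
  unfold Phi
  have e1 : 0 ≤ x ^ (ee c.μ c.lm) := Real.rpow_nonneg hx _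
  have e2 : 0 ≤ x ^ (ee c.μ c.lp) := Real.rpow_nonneg hx _
  have := mul_nonneg k1.le e1
  have := mul_nonneg k2.le e2
  linarith

theorem bar_Phi_mono (hρ : 0 < ρ) (c : Par ρ β) {x y : ℝ} (hx : 0 ≤ x) (hxy : x ≤ y) :
    Phi c.μ c.lm c.lp c.dm c.dp x ≤ Phi c.μ c.lm c.lp c.dm c.dp y := by
  obtain ⟨hμ, a1, a2, b1, b2, k1, k2⟩ := par_pos hρ c
  unfold Phi
  have e1 : x ^ (ee c.μ c.lm) ≤ y ^ (ee c.μ c.lm) := Real.rpow_le_rpow hx hxy a1.le
  have e2 : x ^ (ee c.μ c.lp) ≤ y ^ (ee c.μ c.lp) := Real.rpow_le_rpow hx hxy b1.le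
  have := mul_le_mul_of_nonneg_left e1 k1.le
  have := mul_le_mul_of_nonneg_left e2 k2.le
  linarith

theorem gg_pos (hρ : 0 < ρ) (c : Par ρ β) (s t : ℂ) (h : |s.im - t.im| ≤ Real.pi / c.μ) :
    0 < gg c s t := by
  obtain ⟨hμ, -⟩ := par_pos hρ c
  obtain ⟨l1, l2, l3, l4⟩ := bar_l hρ c
  have h1 := psi_ge hρ c s t h
  have h2 := bar_Phi_ge hρ c (norm_nonneg (Complex.exp (c.μ * s) - Complex.exp (c.μ * t)))
  have h3 := norm_nonneg (Complex.exp (c.μ * s) - Complex.exp (c.μ * t))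
  have c1 := bar_cos_pos hμ l1 l2
  have c2 := bar_cos_pos hμ l3 l4
  have h4 : 0 < c.dm * Real.cos (c.lm * Real.pi / (2 * c.μ))
      * Real.exp (c.lm * ((s.re + t.re) / 2)) :=
    mul_pos (mul_pos c.hdm c1) (Real.exp_pos _)
  have h5 : 0 < c.dp * Real.cos (c.lp * Real.pi / (2 * c.μ))
      * Real.exp (c.lp * ((s.re + t.re) / 2)) :=
    mul_pos (mul_pos c.hdp c2) (Real.exp_pos _)
  unfold gg
  linarith

theorem bar_norm_sub (a b : ℝ) :
    ‖Complex.exp ((a : ℂ) * I) - Complex.exp ((b : ℂ) * I)‖ = 2 * |Real.sin ((a - b) / 2)| := by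
  have h1 : Complex.exp ((a : ℂ) * I) - Complex.exp ((b : ℂ) * I)
      = Complex.exp ((((a + b) / 2 : ℝ) : ℂ) * I)
        * (2 * I * ((Real.sin ((a - b) / 2) : ℝ) : ℂ)) := by
    rw [Complex.ofReal_sin, Complex.sin]
    have h2 : (2 * I * ((Complex.exp (-(((a - b) / 2 : ℝ) : ℂ) * I)
        - Complex.exp ((((a - b) / 2 : ℝ) : ℂ) * I)) * I / 2) : ℂ)
        = Complex.exp ((((a - b) / 2 : ℝ) : ℂ) * I)
          - Complex.exp (-(((a - b) / 2 : ℝ) : ℂ) * I) := by
      have hI : I * I = -1 := Complex.I_mul_I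
      linear_combination (Complex.exp (-(((a - b) / 2 : ℝ) : ℂ) * I)
        - Complex.exp ((((a - b) / 2 : ℝ) : ℂ) * I)) * hI
    rw [h2, mul_sub, ← Complex.exp_add, ← Complex.exp_add]
    congr 2 <;> push_cast <;> ring
  rw [h1, norm_mul, Complex.norm_exp_ofReal_mul_I, one_mul, norm_mul, norm_mul, Complex.norm_I,
    Complex.norm_real, Real.norm_eq_abs]
  norm_num

/-- value at the target -/
theorem gg_target (hρ : 0 < ρ) (hβ : 0 < β) (c : Par ρ β) (y₁ y₂ : ℝ) (h : |y₁ - y₂| ≤ 2 * β) :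
    (c.A / 2 * gg c (y₁ * I) (y₂ * I)) ^ 2 < (1 - c.ε) ^ 2 := by
  obtain ⟨hμ, -⟩ := par_pos hρ c
  have h5 := c.h5
  have hA := c.hA
  have him : |((y₁ : ℂ) * I).im - ((y₂ : ℂ) * I).im| ≤ Real.pi / c.μ := by
    have e : |((y₁ : ℂ) * I).im - ((y₂ : ℂ) * I).im| = |y₁ - y₂| := by simp
    rw [e, le_div_iff₀ hμ]
    nlinarith
  have hpos := gg_pos hρ c _ _ him
  have hle : gg c (y₁ * I) (y₂ * I) ≤
      Phi c.μ c.lm c.lp c.dm c.dp (2 * Real.sin (c.μ * β)) + c.dm + c.dp := by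
    unfold gg
    have e1 : ‖Complex.exp (c.μ * (y₁ * I)) - Complex.exp (c.μ * (y₂ * I))‖
        ≤ 2 * Real.sin (c.μ * β) := by
      have : ‖Complex.exp (c.μ * (y₁ * I)) - Complex.exp (c.μ * (y₂ * I))‖
          = 2 * |Real.sin ((c.μ * y₁ - c.μ * y₂) / 2)| := by
        rw [← bar_norm_sub]
        push_cast
        ring_nf
      rw [this]
      apply mul_le_mul_of_nonneg_left _ (by norm_num)
      have hb : |(c.μ * y₁ - c.μ * y₂) / 2| ≤ c.μ * β := by
        have : (c.μ * y₁ - c.μ * y₂) / 2 = c.μ * ((y₁ - y₂) / 2) := by ring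
        rw [this, abs_mul, abs_of_pos hμ]
        apply mul_le_mul_of_nonneg_left _ hμ.le
        rw [abs_div, abs_of_pos (by norm_num : (0:ℝ) < 2)]
        linarith
      obtain ⟨hb1, hb2⟩ := abs_le.mp hb
      rw [abs_le]
      constructor
      · rw [← Real.sin_neg]
        apply Real.sin_le_sin_of_le_of_le_pi_div_two <;> linarith
      · apply Real.sin_le_sin_of_le_of_le_pi_div_two <;> linarith
    have e2 := bar_Phi_mono hρ c (norm_nonneg _) e1
    have e3 : ((c.dm : ℂ) * Complex.exp (c.lm * ((y₁ * I) + conj (y₂ * I)) / 2)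
        + (c.dp : ℂ) * Complex.exp (c.lp * ((y₁ * I) + conj (y₂ * I)) / 2)).re
        ≤ c.dm + c.dp := by
      rw [Complex.add_re, bar_term_re, bar_term_re]
      have r1 : ((y₁ : ℂ) * I).re = 0 := by simp
      have r2 : ((y₂ : ℂ) * I).re = 0 := by simp
      rw [r1, r2]
      simp only [add_zero, zero_div, mul_zero, Real.exp_zero, one_mul]
      have q1 := mul_le_mul_of_nonneg_left
        (Real.cos_le_one (c.lm * (((y₁ : ℂ) * I).im - ((y₂ : ℂ) * I).im) / 2)) c.hdm.le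
      have q2 := mul_le_mul_of_nonneg_left
        (Real.cos_le_one (c.lp * (((y₁ : ℂ) * I).im - ((y₂ : ℂ) * I).im) / 2)) c.hdp.le
      linarith
    linarith
  have ht := c.target
  have hA2 : 0 < c.A / 2 := by linarith
  have hfin : c.A / 2 * gg c (y₁ * I) (y₂ * I) < 1 - c.ε :=
    lt_of_le_of_lt (mul_le_mul_of_nonneg_left hle hA2.le) ht
  exact pow_lt_pow_left₀ hfin (mul_pos hA2 hpos).le (by norm_num)

theorem bar_exp_norm (μ : ℝ) (s : ℂ) : ‖Complex.exp (μ * s)‖ = Real.exp (μ * s.re) := by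
  rw [Complex.norm_exp, Complex.re_ofReal_mul]

/-- distance on the vertical sides -/
theorem bar_dist_re {μ : ℝ} (hμ : 0 < μ) (s t : ℂ) (h : |s.re - t.re| = 2 / μ) :
    2 * Real.exp (μ * ((s.re + t.re) / 2)) ≤ ‖Complex.exp (μ * s) - Complex.exp (μ * t)‖ := by
  have h1 : |‖Complex.exp (μ * s)‖ - ‖Complex.exp (μ * t)‖| ≤
      ‖Complex.exp (μ * s) - Complex.exp (μ * t)‖ := abs_norm_sub_norm_le _ _
  rw [bar_exp_norm, bar_exp_norm] at h1
  refine le_trans ?_ h1
  have key : (2 : ℝ) ≤ Real.exp 1 - Real.exp (-1) := by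
    have a1 : (2.7182818283 : ℝ) < Real.exp 1 := Real.exp_one_gt_d9
    have a2 : Real.exp (-1) * Real.exp 1 = 1 := by rw [← Real.exp_add]; norm_num
    have a3 : 0 < Real.exp (-1) := Real.exp_pos _
    nlinarith
  have hp := Real.exp_pos (μ * ((s.re + t.re) / 2))
  have hm : μ * (2 / μ) = 2 := by field_simp
  rcases abs_eq (by positivity : (0:ℝ) ≤ 2 / μ) |>.mp h with h | h
  · have e1 : μ * s.re = μ * ((s.re + t.re) / 2) + 1 := by
      linear_combination (μ / 2) * h + (1 / 2) * hm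
    have e2 : μ * t.re = μ * ((s.re + t.re) / 2) + -1 := by
      linear_combination (-(μ / 2)) * h - (1 / 2) * hm
    rw [e1, e2, Real.exp_add, Real.exp_add, ← mul_sub]
    refine le_trans ?_ (le_abs_self _)
    nlinarith
  · have e1 : μ * s.re = μ * ((s.re + t.re) / 2) + -1 := by
      linear_combination (μ / 2) * h - (1 / 2) * hm
    have e2 : μ * t.re = μ * ((s.re + t.re) / 2) + 1 := by
      linear_combination (-(μ / 2)) * h + (1 / 2) * hm
    rw [e1, e2, Real.exp_add, Real.exp_add, ← mul_sub]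
    refine le_trans ?_ (neg_le_abs _)
    nlinarith

/-- distance on the horizontal sides -/
theorem bar_dist_im {μ : ℝ} (hμ : 0 < μ) (s t : ℂ) (h : |s.im - t.im| = Real.pi / μ) :
    2 * Real.exp (μ * ((s.re + t.re) / 2)) ≤ ‖Complex.exp (μ * s) - Complex.exp (μ * t)‖ := by
  have hπ := Real.pi_pos
  have ht : Complex.exp (μ * t)
      = -(((Real.exp (μ * (t.re - s.re)) : ℝ) : ℂ) * Complex.exp (μ * s)) := by
    have e0 : (μ * t : ℂ) = (((μ * (t.re - s.re)) : ℝ) : ℂ) + μ * s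
        + ((μ * (t.im - s.im) : ℝ) : ℂ) * I := by
      push_cast
      rw [← Complex.re_add_im t, ← Complex.re_add_im s]
      simp only [Complex.add_re, Complex.add_im, Complex.ofReal_re, Complex.ofReal_im,
        Complex.mul_re, Complex.mul_im, Complex.I_re, Complex.I_im]
      push_cast
      ring
    have e1 : Complex.exp (((μ * (t.im - s.im) : ℝ) : ℂ) * I) = -1 := by
      rcases abs_eq (by positivity : (0:ℝ) ≤ Real.pi / μ) |>.mp h with h | h
      · have : μ * (t.im - s.im) = -Real.pi := by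
          have : t.im - s.im = -(s.im - t.im) := by ring
          rw [this, h]; field_simp
        rw [this]
        push_cast
        rw [neg_mul, Complex.exp_neg, Complex.exp_pi_mul_I]
        norm_num
      · have : μ * (t.im - s.im) = Real.pi := by
          have : t.im - s.im = -(s.im - t.im) := by ring
          rw [this, h]; field_simp
        rw [this, Complex.exp_pi_mul_I]
    rw [e0, Complex.exp_add, e1, Complex.exp_add, ← Complex.ofReal_exp]
    ring
  have e2 : Complex.exp (μ * s) - Complex.exp (μ * t)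
      = ((1 + Real.exp (μ * (t.re - s.re)) : ℝ) : ℂ) * Complex.exp (μ * s) := by
    rw [ht]; push_cast; ring
  rw [e2, norm_mul, Complex.norm_real, Real.norm_eq_abs, bar_exp_norm,
    abs_of_pos (by positivity)]
  have e3 : (1 + Real.exp (μ * (t.re - s.re))) * Real.exp (μ * s.re)
      = Real.exp (μ * s.re) + Real.exp (μ * t.re) := by
    rw [add_mul, one_mul, ← Real.exp_add]
    congr 2
    ring
  rw [e3]
  have e4 : Real.exp (μ * ((s.re + t.re) / 2)) = Real.exp (μ * s.re / 2) * Real.exp (μ * t.re / 2) := by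
    rw [← Real.exp_add]; congr 1; ring
  have e5 : Real.exp (μ * s.re) = Real.exp (μ * s.re / 2) ^ 2 := by
    rw [← Real.exp_nat_mul]; congr 1; push_cast; ring
  have e6 : Real.exp (μ * t.re) = Real.exp (μ * t.re / 2) ^ 2 := by
    rw [← Real.exp_nat_mul]; congr 1; push_cast; ring
  rw [e4, e5, e6]
  nlinarith [sq_nonneg (Real.exp (μ * s.re / 2) - Real.exp (μ * t.re / 2))]

/-- on the boundary of the set of pairs the barrier dominates -/
theorem gg_boundary (hρ : 0 < ρ) (c : Par ρ β) (s t : ℂ) (h1 : |(s.re + t.re) / 2| ≤ c.P)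
    (h2 : |s.re - t.re| ≤ 2 / c.μ) (h3 : |s.im - t.im| ≤ Real.pi / c.μ)
    (hb : |(s.re + t.re) / 2| = c.P ∨ |s.re - t.re| = 2 / c.μ ∨ |s.im - t.im| = Real.pi / c.μ) :
    Real.exp (ρ * s.re + c.σ * |s.re|) * Real.exp (ρ * t.re + c.σ * |t.re|) ≤
      (c.A / 2 * gg c s t) ^ 2 := by
  obtain ⟨hμ, -⟩ := par_pos hρ c
  obtain ⟨l1, l2, l3, l4⟩ := bar_l hρ c
  have hσ := c.hσ
  have hA := c.hA
  have hA2 : 0 < c.A / 2 := by linarith
  set p : ℝ := (s.re + t.re) / 2 with hp
  -- it is enough to bound the square root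
  have hsq : Real.exp (ρ * s.re + c.σ * |s.re|) * Real.exp (ρ * t.re + c.σ * |t.re|) ≤
      Real.exp (ρ * p + c.σ * |p| + c.σ / c.μ) ^ 2 := by
    rw [← Real.exp_add, ← Real.exp_nat_mul]
    apply Real.exp_le_exp.mpr
    have hs : |s.re| ≤ |p| + |s.re - t.re| / 2 := by
      have : s.re = p + (s.re - t.re) / 2 := by rw [hp]; ring
      calc |s.re| = |p + (s.re - t.re) / 2| := by rw [← this]
        _ ≤ |p| + |(s.re - t.re) / 2| := abs_add_le _ _
        _ = |p| + |s.re - t.re| / 2 := by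
            rw [abs_div (s.re - t.re) 2, abs_of_pos (by norm_num : (0:ℝ) < 2)]
    have ht : |t.re| ≤ |p| + |s.re - t.re| / 2 := by
      have : t.re = p - (s.re - t.re) / 2 := by rw [hp]; ring
      calc |t.re| = |p - (s.re - t.re) / 2| := by rw [← this]
        _ ≤ |p| + |(s.re - t.re) / 2| := abs_sub _ _
        _ = |p| + |s.re - t.re| / 2 := by
            rw [abs_div (s.re - t.re) 2, abs_of_pos (by norm_num : (0:ℝ) < 2)]
    have hsum : |s.re| + |t.re| ≤ 2 * |p| + 2 / c.μ := by linarith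
    have h4 := mul_le_mul_of_nonneg_left hsum hσ.le
    have h5 : ρ * s.re + ρ * t.re = 2 * (ρ * p) := by rw [hp]; ring
    have h6 : c.σ * (2 * |p| + 2 / c.μ) = 2 * (c.σ * |p| + c.σ / c.μ) := by ring
    push_cast
    nlinarith
  refine hsq.trans ?_
  have hg := gg_pos hρ c s t h3
  apply pow_le_pow_left₀ (Real.exp_pos _).le
  have hpsi := psi_ge hρ c s t h3
  rw [← hp] at hpsi
  have c1 := bar_cos_pos hμ l1 l2
  have c2 := bar_cos_pos hμ l3 l4
  have q1 : 0 < c.dm * Real.cos (c.lm * Real.pi / (2 * c.μ)) * Real.exp (c.lm * p) :=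
    mul_pos (mul_pos c.hdm c1) (Real.exp_pos _)
  have q2 : 0 < c.dp * Real.cos (c.lp * Real.pi / (2 * c.μ)) * Real.exp (c.lp * p) :=
    mul_pos (mul_pos c.hdp c2) (Real.exp_pos _)
  have hPhi := bar_Phi_ge hρ c (norm_nonneg (Complex.exp (c.μ * s) - Complex.exp (c.μ * t)))
  have hn := norm_nonneg (Complex.exp (c.μ * s) - Complex.exp (c.μ * t))
  have hmidcase : 2 * Real.exp (c.μ * p) ≤ ‖Complex.exp (c.μ * s) - Complex.exp (c.μ * t)‖ →
      Real.exp (ρ * p + c.σ * |p| + c.σ / c.μ) ≤ c.A / 2 * gg c s t := by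
    intro hd
    refine (c.mid p).trans ?_
    have : c.A * (Real.exp (c.μ * p) + c.dm / 2 * Real.cos (c.lm * Real.pi / (2 * c.μ))
        * Real.exp (c.lm * p))
        = c.A / 2 * (2 * Real.exp (c.μ * p) + c.dm * Real.cos (c.lm * Real.pi / (2 * c.μ))
        * Real.exp (c.lm * p)) := by ring
    rw [this]
    apply mul_le_mul_of_nonneg_left _ hA2.le
    unfold gg
    linarith
  rcases hb with hb | hb | hb
  · rcases abs_eq c.hP.le |>.mp hb with hb' | hb'
    · have hr := c.right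
      have e1 : ρ * p + c.σ * |p| + c.σ / c.μ = ρ * c.P + c.σ * c.P + c.σ / c.μ := by
        rw [hb, hb']
      rw [e1]
      refine hr.trans (mul_le_mul_of_nonneg_left ?_ hA2.le)
      rw [hb'] at hpsi q1 q2
      unfold gg
      linarith
    · have hl := c.left
      have e1 : ρ * p + c.σ * |p| + c.σ / c.μ = -(ρ * c.P) + c.σ * c.P + c.σ / c.μ := by
        rw [hb, hb']; ring
      rw [e1]
      refine hl.trans (mul_le_mul_of_nonneg_left ?_ hA2.le)
      have e2 : Real.exp (-(c.lm * c.P)) = Real.exp (c.lm * p) := by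
        rw [hb']; congr 1; ring
      rw [e2]
      unfold gg
      linarith
  · exact hmidcase (bar_dist_re hμ s t hb)
  · exact hmidcase (bar_dist_im hμ s t hb)

end

end Pool.Agent.LibAV71
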