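import Pool.Agent.LibAV71.OneVar

/-! Task D1b: the two-point maximum principle (mirror coupling). -/

set_option autoImplicit false

open Filter Topology Complex ComplexConjugate

namespace Pool.Agent.LibAV71

/-- differentiability near `0` and second differentiability at `0` -/
private structure LocMaxD2 {E : Type} [NormedAddCommGroup E] [NormedSpace ℝ E] (f f' : ℝ → E)
    (f'' : E) : Prop where
  ev : ∀ᶠ t in 𝓝 (0 : ℝ), HasDerivAt f (f' t) t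
  two : HasDerivAt f' f'' 0

private theorem locmax_line (z a : ℂ) (t : ℝ) :
    HasDerivAt (fun t : ℝ => z + a * (t : ℂ)) a t := by
  have h := ((hasDerivAt_id t).ofReal_comp.const_mul a).const_add z
  simpa using h

private theorem locmax_line_tendsto (z a : ℂ) :
    Tendsto (fun t : ℝ => z + a * (t : ℂ)) (𝓝 0) (𝓝 z) := by
  have h := (locmax_line z a 0).continuousAt.tendsto
  simpa using h

private theorem LocMaxD2.analytic {k : ℂ → ℂ} {z : ℂ} (hk : AnalyticAt ℂ k z) (a : ℂ) :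
    LocMaxD2 (fun t : ℝ => k (z + a * t)) (fun t : ℝ => deriv k (z + a * t) * a)
      (deriv (deriv k) z * a * a) := by
  have key : ∀ {k : ℂ → ℂ}, AnalyticAt ℂ k z →
      ∀ᶠ t : ℝ in 𝓝 (0 : ℝ),
        HasDerivAt (fun t : ℝ => k (z + a * (t : ℂ))) (deriv k (z + a * (t : ℂ)) * a) t := by
    intro k hk
    filter_upwards [(locmax_line_tendsto z a).eventually hk.eventually_analyticAt] with t ht
    exact (ht.differentiableAt.hasDerivAt).comp t (locmax_line z a t)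
  refine ⟨key hk, ?_⟩
  have h1 := (key hk.deriv).self_of_nhds
  have h2 := h1.mul_const a
  simpa using h2

private theorem LocMaxD2.mul {f f' g g' : ℝ → ℂ} {f'' g'' : ℂ} (hf : LocMaxD2 f f' f'')
    (hg : LocMaxD2 g g' g'') :
    LocMaxD2 (fun t => f t * g t) (fun t => f' t * g t + f t * g' t)
      (f'' * g 0 + f' 0 * g' 0 + (f' 0 * g' 0 + f 0 * g'')) := by
  refine ⟨?_, ?_⟩
  · filter_upwards [hf.ev, hg.ev] with t h1 h2
    exact h1.mul h2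
  · exact (hf.two.mul hg.ev.self_of_nhds).add (hf.ev.self_of_nhds.mul hg.two)

private theorem LocMaxD2.add {E : Type} [NormedAddCommGroup E] [NormedSpace ℝ E]
    {f f' g g' : ℝ → E} {f'' g'' : E} (hf : LocMaxD2 f f' f'') (hg : LocMaxD2 g g' g'') :
    LocMaxD2 (fun t => f t + g t) (fun t => f' t + g' t) (f'' + g'') := by
  refine ⟨?_, hf.two.add hg.two⟩
  filter_upwards [hf.ev, hg.ev] with t h1 h2
  exact h1.add h2

private theorem locmax_conj {f : ℝ → ℂ} {f' : ℂ} {t : ℝ} (h : HasDerivAt f f' t) :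
    HasDerivAt (fun t => conj (f t)) (conj f') t := by
  have h1 := h.star
  exact h1

private theorem LocMaxD2.conj {f f' : ℝ → ℂ} {f'' : ℂ} (hf : LocMaxD2 f f' f'') :
    LocMaxD2 (fun t => conj (f t)) (fun t => conj (f' t)) (conj f'') := by
  refine ⟨?_, locmax_conj hf.two⟩
  filter_upwards [hf.ev] with t h1
  exact locmax_conj h1

private theorem locmax_re {f : ℝ → ℂ} {f' : ℂ} {t : ℝ} (h : HasDerivAt f f' t) :
    HasDerivAt (fun t => (f t).re) f'.re t :=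
  Complex.reCLM.hasFDerivAt.comp_hasDerivAt t h

private theorem LocMaxD2.re {f f' : ℝ → ℂ} {f'' : ℂ} (hf : LocMaxD2 f f' f'') :
    LocMaxD2 (fun t => (f t).re) (fun t => (f' t).re) f''.re := by
  refine ⟨?_, locmax_re hf.two⟩
  filter_upwards [hf.ev] with t h1
  exact locmax_re h1

/-- the first order condition -/
private theorem locmax_first (u v g : ℝ → ℝ) (u' v' g' : ℝ) (hu : HasDerivAt u u' 0)
    (hv : HasDerivAt v v' 0) (hg : HasDerivAt g g' 0) (hu0 : 0 < u 0) (hv0 : 0 < v 0)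
    (hg0 : 0 < g 0)
    (hmax : ∀ᶠ t in 𝓝 (0 : ℝ), u t * v t * (g 0) ^ 2 ≤ u 0 * v 0 * (g t) ^ 2) :
    u' / u 0 + v' / v 0 = 2 * (g' / g 0) := by
  have hF : HasDerivAt (fun t => u 0 * v 0 * (g t) ^ 2 - u t * v t * (g 0) ^ 2)
      (u 0 * v 0 * (2 * g 0 * g') - (u' * v 0 + u 0 * v') * (g 0) ^ 2) 0 := by
    have h1 := (hg.pow 2).const_mul (u 0 * v 0)
    have h2 := (hu.mul hv).mul_const ((g 0) ^ 2)
    have h3 := h1.sub h2
    refine h3.congr_deriv ?_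
    norm_num
  have hmin : IsLocalMin (fun t => u 0 * v 0 * (g t) ^ 2 - u t * v t * (g 0) ^ 2) 0 := by
    filter_upwards [hmax] with t ht
    linarith
  have h0 := hmin.hasDerivAt_eq_zero hF
  field_simp
  have h4 : g 0 * (g 0 * (u' * v 0 + u 0 * v')) = g 0 * (u 0 * v 0 * 2 * g') := by
    linarith
  have h5 := mul_left_cancel₀ hg0.ne' h4
  linarith

/-- the function `ψ` along a line -/
private theorem locmax_psi {k₁ l₁ k₂ l₂ : ℂ → ℂ} {z₁ z₂ : ℂ}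
    (hk₁ : AnalyticAt ℂ k₁ z₁) (hl₁ : AnalyticAt ℂ l₁ z₂)
    (hk₂ : AnalyticAt ℂ k₂ z₁) (hl₂ : AnalyticAt ℂ l₂ z₂) (a b : ℂ) :
    ∃ (ψ' : ℝ → ℝ) (ψ'' : ℝ),
      LocMaxD2 (fun t : ℝ => (k₁ (z₁ + a * t) * conj (l₁ (z₂ + b * t)) +
        k₂ (z₁ + a * t) * conj (l₂ (z₂ + b * t))).re) ψ' ψ'' ∧
      ψ' 0 = (deriv k₁ z₁ * a * conj (l₁ z₂) + k₁ z₁ * conj (deriv l₁ z₂ * b)
        + (deriv k₂ z₁ * a * conj (l₂ z₂) + k₂ z₁ * conj (deriv l₂ z₂ * b))).re ∧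
      ψ'' = (deriv (deriv k₁) z₁ * a * a * conj (l₁ z₂)
          + 2 * (deriv k₁ z₁ * a * conj (deriv l₁ z₂ * b))
          + k₁ z₁ * conj (deriv (deriv l₁) z₂ * b * b)
          + (deriv (deriv k₂) z₁ * a * a * conj (l₂ z₂)
          + 2 * (deriv k₂ z₁ * a * conj (deriv l₂ z₂ * b))
          + k₂ z₁ * conj (deriv (deriv l₂) z₂ * b * b))).re := by
  have h1 := (LocMaxD2.analytic hk₁ a).mul (LocMaxD2.analytic hl₁ b).conj
  have h2 := (LocMaxD2.analytic hk₂ a).mul (LocMaxD2.analytic hl₂ b).conj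
  refine ⟨_, _, (h1.add h2).re, ?_, ?_⟩
  · simp only [ofReal_zero, mul_zero, add_zero]
  · simp only [ofReal_zero, mul_zero, add_zero]
    congr 1
    ring

private theorem locmax_alg (u v G P P' Q Q' U2 V2 D1 D2 D3 D4 B1 B2 F : ℝ) (hG : 0 < G)
    (c1a : P / u + -Q / v = 2 * (D1 / G))
    (c1b : U2 / u - (P / u) ^ 2 + (V2 / v - (-Q / v) ^ 2)
      - 2 * ((4 * F + B1) / G - (D1 / G) ^ 2) ≤ 0)
    (c2a : P' / u + Q' / v = 2 * (D2 / G))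
    (c2b : -U2 / u - (P' / u) ^ 2 + (-V2 / v - (Q' / v) ^ 2)
      - 2 * (B2 / G - (D2 / G) ^ 2) ≤ 0)
    (c3 : P / u + Q / v = 2 * (D3 / G)) (c4 : P' / u + -Q' / v = 2 * (D4 / G))
    (hB : B1 + B2 = 0) : -(4 * G * F) ≤ D3 ^ 2 + D4 ^ 2 := by
  have hB' : B2 = -B1 := by linarith
  subst hB'
  obtain ⟨p, hp⟩ : ∃ p, p = P / u := ⟨_, rfl⟩
  obtain ⟨p', hp'⟩ : ∃ p', p' = P' / u := ⟨_, rfl⟩
  obtain ⟨q, hq⟩ : ∃ q, q = Q / v := ⟨_, rfl⟩
  obtain ⟨q', hq'⟩ : ∃ q', q' = Q' / v := ⟨_, rfl⟩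
  obtain ⟨d1, hd1⟩ : ∃ d1, d1 = D1 / G := ⟨_, rfl⟩
  obtain ⟨d2, hd2⟩ : ∃ d2, d2 = D2 / G := ⟨_, rfl⟩
  obtain ⟨d3, hd3⟩ : ∃ d3, d3 = D3 / G := ⟨_, rfl⟩
  obtain ⟨d4, hd4⟩ : ∃ d4, d4 = D4 / G := ⟨_, rfl⟩
  rw [neg_div, ← hp, ← hq, ← hd1] at c1a
  rw [neg_div, ← hp, ← hq, ← hd1] at c1b
  rw [← hp', ← hq', ← hd2] at c2a
  rw [neg_div, neg_div, ← hp', ← hq', ← hd2, neg_div] at c2b
  rw [← hp, ← hq, ← hd3] at c3
  rw [neg_div, ← hp', ← hq', ← hd4] at c4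
  have e1 : p = d1 + d3 := by linarith
  have e2 : q = d3 - d1 := by linarith
  have e3 : p' = d2 + d4 := by linarith
  have e4 : q' = d2 - d4 := by linarith
  rw [e1, e2, add_div] at c1b
  rw [e3, e4] at c2b
  have key : -(4 * F / G) ≤ d3 ^ 2 + d4 ^ 2 := by nlinarith
  have h1 := mul_le_mul_of_nonneg_right key (sq_nonneg G)
  have h2 : -(4 * F / G) * G ^ 2 = -(4 * G * F) := by field_simp
  have h3 : (d3 ^ 2 + d4 ^ 2) * G ^ 2 = D3 ^ 2 + D4 ^ 2 := by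
    rw [hd3, hd4]; field_simp
  linarith

/-- Let `U₁ = Re L₁`, `U₂ = Re L₂` be harmonic and positive near `z₁`, `z₂`, and let
`g(ζ₁,ζ₂) = Φ(|ζ₁-ζ₂|) + Re (k₁(ζ₁) conj l₁(ζ₂) + k₂(ζ₁) conj l₂(ζ₂))` be positive at `(z₁,z₂)`.
If `U₁ U₂ / g²` has a local maximum at `(z₁,z₂)` then `-4 g Φ'' ≤ D₃² + D₄²`, where `D₃`, `D₄` are the
derivatives of the second summand along `(ν,ν)` and `(iν,-iν)`, `ν = (z₁-z₂)/|z₁-z₂|`. -/
theorem loc_max (L₁ L₂ k₁ l₁ k₂ l₂ : ℂ → ℂ) (z₁ z₂ : ℂ) (hz : z₁ ≠ z₂)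
    (hL₁ : AnalyticAt ℂ L₁ z₁) (hL₂ : AnalyticAt ℂ L₂ z₂)
    (hk₁ : AnalyticAt ℂ k₁ z₁) (hl₁ : AnalyticAt ℂ l₁ z₂)
    (hk₂ : AnalyticAt ℂ k₂ z₁) (hl₂ : AnalyticAt ℂ l₂ z₂)
    (hp₁ : 0 < (L₁ z₁).re) (hp₂ : 0 < (L₂ z₂).re)
    (Φ Φ' : ℝ → ℝ) (Φ'' : ℝ) (hΦ : ∀ᶠ x in 𝓝 ‖z₁ - z₂‖, HasDerivAt Φ (Φ' x) x)
    (hΦ' : HasDerivAt Φ' Φ'' ‖z₁ - z₂‖)
    (g : ℂ → ℂ → ℝ)
    (hg : ∀ ζ₁ ζ₂, g ζ₁ ζ₂ = Φ ‖ζ₁ - ζ₂‖ + (k₁ ζ₁ * conj (l₁ ζ₂) + k₂ ζ₁ * conj (l₂ ζ₂)).re)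
    (hgpos : 0 < g z₁ z₂)
    (hmax : ∀ᶠ p : ℂ × ℂ in 𝓝 (z₁, z₂), (L₁ p.1).re * (L₂ p.2).re * (g z₁ z₂) ^ 2 ≤
      (L₁ z₁).re * (L₂ z₂).re * (g p.1 p.2) ^ 2)
    (ν : ℂ) (hν : ν = (z₁ - z₂) / ‖z₁ - z₂‖) :
    -(4 * g z₁ z₂ * Φ'') ≤
      ((deriv k₁ z₁ * ν * conj (l₁ z₂) + k₁ z₁ * conj (deriv l₁ z₂ * ν)
        + (deriv k₂ z₁ * ν * conj (l₂ z₂) + k₂ z₁ * conj (deriv l₂ z₂ * ν))).re) ^ 2 +
      ((deriv k₁ z₁ * (I * ν) * conj (l₁ z₂) - k₁ z₁ * conj (deriv l₁ z₂ * (I * ν))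
        + (deriv k₂ z₁ * (I * ν) * conj (l₂ z₂) - k₂ z₁ * conj (deriv l₂ z₂ * (I * ν)))).re) ^ 2 := by
  obtain ⟨d, hd⟩ : ∃ d : ℝ, d = ‖z₁ - z₂‖ := ⟨_, rfl⟩
  have hd0 : 0 < d := by rw [hd]; exact norm_pos_iff.2 (sub_ne_zero.2 hz)
  rw [← hd] at hΦ hΦ' hν
  have hdc : (d : ℂ) ≠ 0 := by exact_mod_cast hd0.ne'
  have hν1 : ‖ν‖ = 1 := by
    rw [hν, norm_div, Complex.norm_real, Real.norm_of_nonneg hd0.le, ← hd, div_self hd0.ne']
  have hzν : z₁ - z₂ = d * ν := by rw [hν]; field_simp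
  -- restriction of the maximum to lines
  have hline : ∀ a b : ℂ, ∀ᶠ t : ℝ in 𝓝 0,
      (L₁ (z₁ + a * t)).re * (L₂ (z₂ + b * t)).re * (g z₁ z₂) ^ 2 ≤
        (L₁ z₁).re * (L₂ z₂).re * (g (z₁ + a * t) (z₂ + b * t)) ^ 2 := by
    intro a b
    have h1 : Tendsto (fun t : ℝ => (z₁ + a * (t : ℂ), z₂ + b * (t : ℂ))) (𝓝 0) (𝓝 (z₁, z₂)) :=
      (locmax_line_tendsto z₁ a).prodMk_nhds (locmax_line_tendsto z₂ b)
    exact h1.eventually hmax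
  -- the harmonic functions along lines
  have hU : ∀ a : ℂ, LocMaxD2 (fun t : ℝ => (L₁ (z₁ + a * t)).re)
      (fun t : ℝ => (deriv L₁ (z₁ + a * t) * a).re) (deriv (deriv L₁) z₁ * a * a).re :=
    fun a => (LocMaxD2.analytic hL₁ a).re
  have hV : ∀ b : ℂ, LocMaxD2 (fun t : ℝ => (L₂ (z₂ + b * t)).re)
      (fun t : ℝ => (deriv L₂ (z₂ + b * t) * b).re) (deriv (deriv L₂) z₂ * b * b).re :=
    fun b => (LocMaxD2.analytic hL₂ b).re
  obtain ⟨A₁, B₁, hψ1, hA1, hB1⟩ := locmax_psi hk₁ hl₁ hk₂ hl₂ ν (-ν)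
  obtain ⟨A₂, B₂, hψ2, hA2, hB2⟩ := locmax_psi hk₁ hl₁ hk₂ hl₂ (I * ν) (I * ν)
  obtain ⟨A₃, B₃, hψ3, hA3, hB3⟩ := locmax_psi hk₁ hl₁ hk₂ hl₂ ν ν
  obtain ⟨A₄, B₄, hψ4, hA4, hB4⟩ := locmax_psi hk₁ hl₁ hk₂ hl₂ (I * ν) (-(I * ν))
  have hg0 : g z₁ z₂ = Φ d + (k₁ z₁ * conj (l₁ z₂) + k₂ z₁ * conj (l₂ z₂)).re := by
    rw [hg, ← hd]
  -- direction 1
  have hΦ1 : LocMaxD2 (fun t : ℝ => Φ (d + 2 * t)) (fun t : ℝ => 2 * Φ' (d + 2 * t))
      (4 * Φ'') := by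
    have hlin : ∀ t : ℝ, HasDerivAt (fun t : ℝ => d + 2 * t) 2 t := by
      intro t
      simpa using ((hasDerivAt_id t).const_mul 2).const_add d
    have hten : Tendsto (fun t : ℝ => d + 2 * t) (𝓝 0) (𝓝 d) := by
      have := (hlin 0).continuousAt.tendsto
      simpa using this
    refine ⟨?_, ?_⟩
    · filter_upwards [hten.eventually hΦ] with t ht
      have := ht.comp t (hlin t)
      refine this.congr_deriv ?_
      ring
    · have h0 : HasDerivAt Φ' Φ'' (d + 2 * 0) := by simpa using hΦ'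
      have := (h0.comp (0 : ℝ) (hlin 0)).const_mul 2
      refine this.congr_deriv ?_
      ring
  have hg1 : LocMaxD2 _ _ _ := hΦ1.add hψ1
  have hg2 : LocMaxD2 _ _ _ := LocMaxD2.add (f := fun _ : ℝ => Φ d) (f' := fun _ => 0)
    (f'' := (0 : ℝ)) ⟨Eventually.of_forall fun t => hasDerivAt_const t _, hasDerivAt_const _ _⟩ hψ2
  have e1 : ∀ t : ℝ, z₁ + ν * t - (z₂ + -ν * t) = ((d + 2 * t : ℝ) : ℂ) * ν := by
    intro t
    push_cast
    linear_combination hzν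
  have e2 : ∀ (w : ℂ) (t : ℝ), z₁ + w * t - (z₂ + w * t) = z₁ - z₂ := by
    intro w t; ring
  have e4 : ∀ t : ℝ, z₁ + I * ν * t - (z₂ + -(I * ν) * t) = ((d : ℂ) + (2 * t : ℝ) * I) * ν := by
    intro t
    push_cast
    linear_combination hzν
  have n4 : ∀ t : ℝ, ‖z₁ + I * ν * t - (z₂ + -(I * ν) * t)‖ = Real.sqrt (d ^ 2 + (2 * t) ^ 2) := by
    intro t
    rw [e4, norm_mul, hν1, mul_one, Complex.norm_add_mul_I]
  have c1 := one_var _ _ _ _ _ _ _ _ _ (hU ν).ev (hV (-ν)).ev hg1.ev (hU ν).two (hV (-ν)).two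
    hg1.two (by simpa using hp₁) (by simpa using hp₂)
    (by simpa [hg0] using hgpos) (by
      have hpos : ∀ᶠ t : ℝ in 𝓝 0, 0 < d + 2 * t := by
        have : Tendsto (fun t : ℝ => d + 2 * t) (𝓝 0) (𝓝 (d + 2 * 0)) :=
          (continuous_const.add (continuous_const.mul continuous_id)).tendsto 0
        rw [mul_zero, add_zero] at this
        exact this.eventually (lt_mem_nhds hd0)
      filter_upwards [hline ν (-ν), hpos] with t ht hpt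
      rw [hg (z₁ + ν * t) (z₂ + -ν * t), e1, norm_mul, hν1, mul_one, Complex.norm_real,
        Real.norm_of_nonneg hpt.le, hg0] at ht
      simpa using ht)
  have c2 := one_var _ _ _ _ _ _ _ _ _ (hU (I * ν)).ev (hV (I * ν)).ev hg2.ev (hU (I * ν)).two
    (hV (I * ν)).two hg2.two (by simpa using hp₁) (by simpa using hp₂)
    (by simpa [hg0] using hgpos) (by
      filter_upwards [hline (I * ν) (I * ν)] with t ht
      rw [hg (z₁ + I * ν * t) (z₂ + I * ν * t), e2, ← hd, hg0] at ht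
      simpa using ht)
  have c3 := locmax_first _ _ _ _ _ _ (hU ν).ev.self_of_nhds (hV ν).ev.self_of_nhds
    (hψ3.ev.self_of_nhds.const_add (Φ d)) (by simpa using hp₁) (by simpa using hp₂)
    (by simpa [hg0] using hgpos) (by
      filter_upwards [hline ν ν] with t ht
      rw [hg (z₁ + ν * t) (z₂ + ν * t), e2, ← hd, hg0] at ht
      simpa using ht)
  have hsq : HasDerivAt (fun t : ℝ => Φ (Real.sqrt (d ^ 2 + (2 * t) ^ 2))) 0 0 := by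
    have h1 : HasDerivAt (fun t : ℝ => d ^ 2 + (2 * t) ^ 2) 0 0 := by
      have h2 : HasDerivAt (fun t : ℝ => 2 * t) 2 0 := by
        simpa using (hasDerivAt_id (0 : ℝ)).const_mul 2
      have h3 := (h2.pow 2).const_add (d ^ 2)
      refine h3.congr_deriv ?_
      norm_num
    have h2 : HasDerivAt (fun t : ℝ => Real.sqrt (d ^ 2 + (2 * t) ^ 2)) 0 0 := by
      have h3 := h1.sqrt (by simp [hd0.ne'])
      refine h3.congr_deriv ?_
      simp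
    have h3 : Real.sqrt (d ^ 2 + (2 * 0) ^ 2) = d := by
      simp [Real.sqrt_sq hd0.le]
    have h4 : HasDerivAt Φ (Φ' d) (Real.sqrt (d ^ 2 + (2 * 0) ^ 2)) := by
      rw [h3]; exact hΦ.self_of_nhds
    have h5 := h4.comp (0 : ℝ) h2
    refine h5.congr_deriv ?_
    ring
  have hg4 : HasDerivAt (fun t : ℝ => Φ (Real.sqrt (d ^ 2 + (2 * t) ^ 2)) +
      (k₁ (z₁ + I * ν * ↑t) * conj (l₁ (z₂ + -(I * ν) * ↑t)) +
        k₂ (z₁ + I * ν * ↑t) * conj (l₂ (z₂ + -(I * ν) * ↑t))).re) (0 + A₄ 0) 0 :=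
    hsq.add hψ4.ev.self_of_nhds
  have c4 := locmax_first _ _ _ _ _ _ (hU (I * ν)).ev.self_of_nhds
    (hV (-(I * ν))).ev.self_of_nhds
    hg4 (by simpa using hp₁) (by simpa using hp₂)
    (by simpa [hg0, Real.sqrt_sq hd0.le] using hgpos) (by
      filter_upwards [hline (I * ν) (-(I * ν))] with t ht
      rw [hg (z₁ + I * ν * t) (z₂ + -(I * ν) * t), n4, hg0] at ht
      simpa [Real.sqrt_sq hd0.le] using ht)
  simp only [ofReal_zero, mul_zero, add_zero, zero_add, ← hg0] at c1 c2 c3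
  simp only [ofReal_zero, mul_zero, add_zero, zero_add, ne_eq, OfNat.ofNat_ne_zero,
    not_false_eq_true, zero_pow, Real.sqrt_sq hd0.le, ← hg0] at c4
  have m1 : (deriv L₂ z₂ * -ν).re = -(deriv L₂ z₂ * ν).re := by
    rw [mul_neg, neg_re]
  have m2 : (deriv (deriv L₂) z₂ * -ν * -ν).re = (deriv (deriv L₂) z₂ * ν * ν).re := by
    congr 1; ring
  have m3 : ∀ w : ℂ, (w * (I * ν) * (I * ν)).re = -(w * ν * ν).re := by
    intro w
    rw [← neg_re]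
    congr 1
    linear_combination w * ν * ν * I_mul_I
  have m4 : (deriv L₂ z₂ * -(I * ν)).re = -(deriv L₂ z₂ * (I * ν)).re := by
    rw [mul_neg, neg_re]
  rw [m1, m2] at c1
  rw [m3, m3] at c2
  rw [m4] at c4
  have hBB : B₁ + B₂ = 0 := by
    rw [hB1, hB2, ← add_re]
    have h0 : (0 : ℝ) = (0 : ℂ).re := rfl
    rw [h0]
    congr 1
    simp only [map_mul, map_neg, conj_I]
    linear_combination
      (deriv (deriv k₁) z₁ * ν * ν * conj (l₁ z₂)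
        - 2 * (deriv k₁ z₁ * ν * (conj (deriv l₁ z₂) * conj ν))
        + k₁ z₁ * (conj (deriv (deriv l₁) z₂) * conj ν * conj ν)
        + (deriv (deriv k₂) z₁ * ν * ν * conj (l₂ z₂)
        - 2 * (deriv k₂ z₁ * ν * (conj (deriv l₂ z₂) * conj ν))
        + k₂ z₁ * (conj (deriv (deriv l₂) z₂) * conj ν * conj ν))) * I_mul_I
  have hfin := locmax_alg _ _ _ _ _ _ _ _ _ _ _ _ _ _ _ _ hgpos c1.1 c1.2 c2.1 c2.2 c3 c4 hBB
  refine hfin.trans (le_of_eq ?_)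
  rw [hA3, hA4]
  congr 3
  simp only [mul_neg, map_neg]
  ring

end Pool.Agent.LibAV71
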