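import Pool.Agent.LibAV71.Bar
import Pool.Agent.LibAV71.LocMax

/-! Task D4b: no interior maximum, positive order. -/

set_option autoImplicit false

open Filter Topology Complex ComplexConjugate

namespace Pool.Agent.LibAV71

noncomputable section

variable {ρ β : ℝ}

/-- The elementary inequality behind the interior estimate. Here `r₁ = e^{μ Re s}`, `r₂ = e^{μ Re t}`,
`x = |z₁ - z₂|`, `a = l/μ`. -/
theorem term_bound (μ l d r₁ r₂ x : ℝ) (hμ : 0 < μ) (h1 : μ / 2 < l) (h2 : l < μ) (hd : 0 < d)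
    (hr₁ : 0 < r₁) (hr₂ : 0 < r₂) (h12 : r₁ ≤ Real.exp 2 * r₂) (h21 : r₂ ≤ Real.exp 2 * r₁)
    (hx : 0 < x) (hx' : x ≤ r₁ + r₂) :
    (d * (l / (2 * μ)) * (r₁ * r₂) ^ (l / μ / 2) * (1 / r₁ + 1 / r₂)) ^ 2 ≤
      8 * d ^ 2 * x ^ (ee μ l - 1) := by
  set a := l / μ with ha
  have ha1 : 1 / 2 < a := by rw [ha, lt_div_iff₀ hμ]; linarith
  have ha2 : a < 1 := by rw [ha, div_lt_one hμ]; exact h2
  have hla : l / (2 * μ) = a / 2 := by rw [ha]; field_simp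
  have hee : ee μ l - 1 = 2 * (a - 1) := by rw [ee, ← ha]; ring
  have hm : 0 < r₁ * r₂ := mul_pos hr₁ hr₂
  have hE1 : Real.exp 2 ≤ 7.4 := by
    have := Real.exp_one_lt_d9
    have h3 : Real.exp 2 = Real.exp 1 * Real.exp 1 := by rw [← Real.exp_add]; norm_num
    rw [h3]
    nlinarith [Real.exp_pos 1]
  have hE2 : 7.3 ≤ Real.exp 2 := by
    have := Real.exp_one_gt_d9
    have h3 : Real.exp 2 = Real.exp 1 * Real.exp 1 := by rw [← Real.exp_add]; norm_num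
    rw [h3]
    nlinarith [Real.exp_pos 1]
  have hS : (r₁ + r₂) ^ 2 ≤ 9.6 * (r₁ * r₂) := by
    have h3 : 0 ≤ (Real.exp 2 * r₂ - r₁) * (Real.exp 2 * r₁ - r₂) :=
      mul_nonneg (by linarith) (by linarith)
    set E := Real.exp 2
    have h4 : E * (r₁ ^ 2 + r₂ ^ 2) ≤ (E ^ 2 + 1) * (r₁ * r₂) := by nlinarith
    have h5 : E ^ 2 + 1 ≤ 7.6 * E := by nlinarith
    have h6 : E * (r₁ ^ 2 + r₂ ^ 2) ≤ E * (7.6 * (r₁ * r₂)) := by nlinarith
    have h7 : r₁ ^ 2 + r₂ ^ 2 ≤ 7.6 * (r₁ * r₂) := le_of_mul_le_mul_left h6 (by linarith)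
    nlinarith
  have hpow : ((r₁ * r₂) ^ (a / 2)) ^ 2 = (r₁ * r₂) ^ a := by
    rw [← Real.rpow_natCast, ← Real.rpow_mul hm.le]
    congr 1
    push_cast
    ring
  have hxx : x ^ 2 / 9.6 ≤ r₁ * r₂ := by
    rw [div_le_iff₀ (by norm_num)]
    nlinarith
  have h8 : (r₁ * r₂) ^ (a - 1) ≤ 3.1 * x ^ (2 * (a - 1)) := by
    have h9 : (r₁ * r₂) ^ (a - 1) ≤ (x ^ 2 / 9.6) ^ (a - 1) :=
      Real.rpow_le_rpow_of_nonpos (by positivity) hxx (by linarith)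
    have h10 : (x ^ 2 / 9.6) ^ (a - 1) = x ^ (2 * (a - 1)) * (9.6 : ℝ) ^ (1 - a) := by
      rw [Real.div_rpow (by positivity) (by norm_num), ← Real.rpow_natCast x 2,
        ← Real.rpow_mul hx.le, div_eq_mul_inv, ← Real.rpow_neg (by norm_num)]
      congr 2
      ring
    have h11 : (9.6 : ℝ) ^ (1 - a) ≤ 3.1 := by
      calc (9.6 : ℝ) ^ (1 - a) ≤ (9.6 : ℝ) ^ (1 / 2 : ℝ) :=
            Real.rpow_le_rpow_of_exponent_le (by norm_num) (by linarith)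
        _ = Real.sqrt 9.6 := (Real.sqrt_eq_rpow _).symm
        _ ≤ 3.1 := by
            rw [Real.sqrt_le_left (by norm_num)]
            norm_num
    rw [h10] at h9
    have h12 : 0 < x ^ (2 * (a - 1)) := Real.rpow_pos_of_pos hx _
    nlinarith
  have h13 : (1 / r₁ + 1 / r₂) ^ 2 = (r₁ + r₂) ^ 2 / (r₁ * r₂) ^ 2 := by
    field_simp
    ring
  have h14 : (r₁ * r₂) ^ a = (r₁ * r₂) ^ (a - 1) * (r₁ * r₂) := by
    rw [← Real.rpow_add_one hm.ne']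
    congr 1
    ring
  have h15 : (d * (l / (2 * μ)) * (r₁ * r₂) ^ (a / 2) * (1 / r₁ + 1 / r₂)) ^ 2 =
      d ^ 2 * (a ^ 2 / 4) * ((r₁ * r₂) ^ (a - 1)) * ((r₁ + r₂) ^ 2 / (r₁ * r₂)) := by
    rw [hla, mul_pow, mul_pow, mul_pow, hpow, h13, h14]
    field_simp
    ring
  rw [h15, hee]
  have h16 : (r₁ + r₂) ^ 2 / (r₁ * r₂) ≤ 9.6 := by
    rw [div_le_iff₀ hm]; exact hS
  have h17 : 0 < (r₁ * r₂) ^ (a - 1) := Real.rpow_pos_of_pos hm _
  have h18 : 0 < x ^ (2 * (a - 1)) := Real.rpow_pos_of_pos hx _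
  have h19 : a ^ 2 / 4 ≤ 1 / 4 := by nlinarith
  calc d ^ 2 * (a ^ 2 / 4) * ((r₁ * r₂) ^ (a - 1)) * ((r₁ + r₂) ^ 2 / (r₁ * r₂))
      ≤ d ^ 2 * (1 / 4) * (3.1 * x ^ (2 * (a - 1))) * 9.6 := by
        gcongr
    _ ≤ 8 * d ^ 2 * x ^ (2 * (a - 1)) := by
        have : 0 < d ^ 2 * x ^ (2 * (a - 1)) := by positivity
        nlinarith

/-- the local inverse of `w ↦ exp (μ w)` -/
def Hinv (μ : ℝ) (s : ℂ) (ζ : ℂ) : ℂ := s + Complex.log (ζ / Complex.exp (μ * s)) / μ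

theorem Hinv_self (μ : ℝ) (s : ℂ) : Hinv μ s (Complex.exp (μ * s)) = s := by
  simp [Hinv]

theorem exp_Hinv (μ : ℝ) (hμ : 0 < μ) (s ζ : ℂ) (hζ : ζ ≠ 0) :
    Complex.exp (μ * Hinv μ s ζ) = ζ := by
  have h1 : (μ : ℂ) ≠ 0 := by exact_mod_cast hμ.ne'
  rw [Hinv, mul_add, mul_div_cancel₀ _ h1, Complex.exp_add,
    Complex.exp_log (div_ne_zero hζ (Complex.exp_ne_zero _))]
  field_simp

theorem Hinv_hasDerivAt (μ : ℝ) (s : ℂ) :
    HasDerivAt (Hinv μ s) (1 / (μ * Complex.exp (μ * s))) (Complex.exp (μ * s)) := by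
  have hz := Complex.exp_ne_zero (μ * s)
  have h1 : HasDerivAt (fun ζ : ℂ => ζ / Complex.exp (μ * s)) (1 / Complex.exp (μ * s))
      (Complex.exp (μ * s)) := (hasDerivAt_id _).div_const _
  have h2 : HasDerivAt (fun ζ : ℂ => Complex.log (ζ / Complex.exp (μ * s)))
      (1 / Complex.exp (μ * s) / (Complex.exp (μ * s) / Complex.exp (μ * s)))
      (Complex.exp (μ * s)) := by
    apply h1.clog
    rw [div_self hz]
    exact one_mem_slitPlane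
  have h3 := (h2.div_const (μ : ℂ)).const_add s
  refine h3.congr_deriv ?_
  rw [div_self hz]
  field_simp

theorem Hinv_analyticAt (μ : ℝ) (s : ℂ) : AnalyticAt ℂ (Hinv μ s) (Complex.exp (μ * s)) := by
  have hz := Complex.exp_ne_zero (μ * s)
  have h1 : AnalyticAt ℂ (fun ζ : ℂ => Complex.log (ζ / Complex.exp (μ * s)))
      (Complex.exp (μ * s)) := by
    apply AnalyticAt.clog
    · exact analyticAt_id.div_const
    · rw [div_self hz]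
      exact one_mem_slitPlane
  exact analyticAt_const.add h1.div_const

theorem norm_exp_half (μ l : ℝ) (hμ : 0 < μ) (s t : ℂ) :
    ‖Complex.exp (l * s / 2)‖ * ‖Complex.exp (l * t / 2)‖ =
      (Real.exp (μ * s.re) * Real.exp (μ * t.re)) ^ (l / μ / 2) := by
  rw [Complex.norm_exp, Complex.norm_exp, ← Real.exp_add, ← Real.exp_add, ← Real.exp_mul]
  congr 1
  have h1 : ((l : ℂ) * s / 2).re = l * s.re / 2 := by
    simp [Complex.mul_re]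
  have h2 : ((l : ℂ) * t / 2).re = l * t.re / 2 := by
    simp [Complex.mul_re]
  rw [h1, h2]
  field_simp

theorem barInt_sq (a b c' d' : ℂ) (A B : ℝ) (h5 : ‖a‖ + ‖b‖ ≤ A) (h6 : ‖c'‖ + ‖d'‖ ≤ B) :
    ((a + b + (c' + d')).re) ^ 2 ≤ 2 * A ^ 2 + 2 * B ^ 2 := by
  have h7 : |(a + b + (c' + d')).re| ≤ A + B := by
    calc |(a + b + (c' + d')).re| ≤ ‖a + b + (c' + d')‖ := Complex.abs_re_le_norm _
      _ ≤ ‖a + b‖ + ‖c' + d'‖ := norm_add_le _ _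
      _ ≤ (‖a‖ + ‖b‖) + (‖c'‖ + ‖d'‖) := add_le_add (norm_add_le _ _) (norm_add_le _ _)
      _ ≤ A + B := add_le_add h5 h6
  have h8 : ((a + b + (c' + d')).re) ^ 2 ≤ (A + B) ^ 2 := by
    rw [← sq_abs]
    exact pow_le_pow_left₀ (abs_nonneg _) h7 2
  have h9 : (A + B) ^ 2 = 2 * A ^ 2 + 2 * B ^ 2 - (A - B) ^ 2 := by ring
  linarith [sq_nonneg (A - B)]

theorem barInt_sq' (a b c' d' : ℂ) (A B : ℝ) (h5 : ‖a‖ + ‖b‖ ≤ A) (h6 : ‖c'‖ + ‖d'‖ ≤ B) :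
    ((a - b + (c' - d')).re) ^ 2 ≤ 2 * A ^ 2 + 2 * B ^ 2 := by
  have := barInt_sq a (-b) c' (-d') A B (by rwa [norm_neg]) (by rwa [norm_neg])
  rwa [← sub_eq_add_neg, ← sub_eq_add_neg] at this

theorem barInt_final (x g a b p q Tm Tp : ℝ) (hx : 0 < x) (hxg : x ≤ g) (hp : 0 < p) (hq : 0 < q)
    (ha : 0 < a) (hb : 0 < b) (h1 : Tm ^ 2 ≤ 8 * a ^ 2 * (x * p)) (h2 : Tp ^ 2 ≤ 8 * b ^ 2 * (x * q))
    (h : -(4 * g * -(12 * a ^ 2 * p + 12 * b ^ 2 * q)) ≤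
      2 * Tm ^ 2 + 2 * Tp ^ 2 + (2 * Tm ^ 2 + 2 * Tp ^ 2)) : False := by
  have hs1 : 0 < a ^ 2 * p + b ^ 2 * q := by positivity
  have h3 := mul_le_mul_of_nonneg_right hxg hs1.le
  have h4 := mul_pos hx hs1
  nlinarith

theorem no_interior_max (hρ : 0 < ρ) (c : Par ρ β) (u : ℂ → ℝ) (s t : ℂ) (hst : s ≠ t)
    (h2 : |s.re - t.re| ≤ 2 / c.μ) (h3 : |s.im - t.im| < Real.pi / c.μ)
    (hs : 0 < u s) (ht : 0 < u t)
    (hLs : ∃ L : ℂ → ℂ, AnalyticAt ℂ L s ∧ ∀ᶠ w in 𝓝 s, u w = (L w).re)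
    (hLt : ∃ L : ℂ → ℂ, AnalyticAt ℂ L t ∧ ∀ᶠ w in 𝓝 t, u w = (L w).re)
    (hmax : ∀ᶠ p : ℂ × ℂ in 𝓝 (s, t), u p.1 * u p.2 * (gg c s t) ^ 2 ≤
      u s * u t * (gg c p.1 p.2) ^ 2) : False := by
  obtain ⟨hμ, hem0, hem1, hep0, hep1, hkm, hkp⟩ := par_pos hρ c
  obtain ⟨Ls, hLsa, hLse⟩ := hLs
  obtain ⟨Lt, hLta, hLte⟩ := hLt
  have hμC : (c.μ : ℂ) ≠ 0 := by exact_mod_cast hμ.ne'
  set z₁ := Complex.exp (c.μ * s) with hz₁
  set z₂ := Complex.exp (c.μ * t) with hz₂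
  have hz₁0 : z₁ ≠ 0 := Complex.exp_ne_zero _
  have hz₂0 : z₂ ≠ 0 := Complex.exp_ne_zero _
  -- z₁ ≠ z₂
  have hzne : z₁ ≠ z₂ := by
    intro h
    rw [hz₁, hz₂, Complex.exp_eq_exp_iff_exists_int] at h
    obtain ⟨n, hn⟩ := h
    have hre : s.re = t.re := by
      have := congrArg Complex.re hn
      simp at this
      rcases this with h | h
      · exact h
      · exact absurd h hμ.ne'
    have him : c.μ * (s.im - t.im) = n * (2 * Real.pi) := by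
      have := congrArg Complex.im hn
      simp at this
      linarith
    have hn0 : n = 0 := by
      by_contra hne
      have h4 : (1 : ℝ) ≤ |(n : ℝ)| := by
        rw [← Int.cast_abs]
        exact_mod_cast Int.one_le_abs hne
      have h5 : |c.μ * (s.im - t.im)| < Real.pi := by
        rw [abs_mul, abs_of_pos hμ]
        rw [lt_div_iff₀ hμ] at h3
        linarith
      rw [him, abs_mul, abs_of_pos (by positivity : (0 : ℝ) < 2 * Real.pi)] at h5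
      nlinarith [Real.pi_pos]
    apply hst
    rw [hn0] at him
    simp at him
    rcases him with h | h
    · exact absurd h hμ.ne'
    · exact Complex.ext hre (by linarith)
  set x := ‖z₁ - z₂‖ with hx
  have hx0 : 0 < x := norm_pos_iff.mpr (sub_ne_zero.mpr hzne)
  set r₁ := Real.exp (c.μ * s.re) with hr₁
  set r₂ := Real.exp (c.μ * t.re) with hr₂
  have hr₁0 : 0 < r₁ := Real.exp_pos _
  have hr₂0 : 0 < r₂ := Real.exp_pos _
  have hnz₁ : ‖z₁‖ = r₁ := by rw [hz₁, Complex.norm_exp]; simp [hr₁]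
  have hnz₂ : ‖z₂‖ = r₂ := by rw [hz₂, Complex.norm_exp]; simp [hr₂]
  -- the functions
  set H₁ := Hinv c.μ s with hH₁
  set H₂ := Hinv c.μ t with hH₂
  have hH₁z : H₁ z₁ = s := Hinv_self c.μ s
  have hH₂z : H₂ z₂ = t := Hinv_self c.μ t
  have hH₁a : AnalyticAt ℂ H₁ z₁ := Hinv_analyticAt c.μ s
  have hH₂a : AnalyticAt ℂ H₂ z₂ := Hinv_analyticAt c.μ t
  have hH₁d : HasDerivAt H₁ (1 / (c.μ * z₁)) z₁ := Hinv_hasDerivAt c.μ s
  have hH₂d : HasDerivAt H₂ (1 / (c.μ * z₂)) z₂ := Hinv_hasDerivAt c.μ t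
  have hkd : ∀ (l d : ℝ) (H : ℂ → ℂ) (z w : ℂ), H z = w → HasDerivAt H (1 / (c.μ * z)) z →
      HasDerivAt (fun ζ => (d : ℂ) * Complex.exp (l * H ζ / 2))
        ((d : ℂ) * (Complex.exp (l * w / 2) * (l * (1 / (c.μ * z)) / 2))) z := by
    intro l d H z w hw hd
    have h4 := (((hd.const_mul (l : ℂ)).div_const 2).cexp).const_mul (d : ℂ)
    rw [hw] at h4
    exact h4
  have hka : ∀ (l d : ℝ) (H : ℂ → ℂ) (z : ℂ), AnalyticAt ℂ H z →
      AnalyticAt ℂ (fun ζ => (d : ℂ) * Complex.exp (l * H ζ / 2)) z := by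
    intro l d H z hH
    exact analyticAt_const.mul ((analyticAt_const.mul hH).div_const).cexp
  set k₁ : ℂ → ℂ := fun ζ => (c.dm : ℂ) * Complex.exp (c.lm * H₁ ζ / 2) with hk₁
  set k₂ : ℂ → ℂ := fun ζ => (c.dp : ℂ) * Complex.exp (c.lp * H₁ ζ / 2) with hk₂
  set l₁ : ℂ → ℂ := fun ζ => ((1 : ℝ) : ℂ) * Complex.exp (c.lm * H₂ ζ / 2) with hl₁
  set l₂ : ℂ → ℂ := fun ζ => ((1 : ℝ) : ℂ) * Complex.exp (c.lp * H₂ ζ / 2) with hl₂
  set g : ℂ → ℂ → ℝ := fun ζ₁ ζ₂ => Phi c.μ c.lm c.lp c.dm c.dp ‖ζ₁ - ζ₂‖ +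
    (k₁ ζ₁ * conj (l₁ ζ₂) + k₂ ζ₁ * conj (l₂ ζ₂)).re with hg
  have hcong : ∀ ζ₁ ζ₂ : ℂ, ζ₁ ≠ 0 → ζ₂ ≠ 0 → g ζ₁ ζ₂ = gg c (H₁ ζ₁) (H₂ ζ₂) := by
    intro ζ₁ ζ₂ h4 h5
    have e1 : ∀ l : ℝ, Complex.exp (l * H₁ ζ₁ / 2) * conj (Complex.exp (l * H₂ ζ₂ / 2)) =
        Complex.exp (l * (H₁ ζ₁ + conj (H₂ ζ₂)) / 2) := by
      intro l
      rw [← Complex.exp_conj, ← Complex.exp_add]
      congr 1
      simp only [map_div₀, map_mul, Complex.conj_ofReal]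
      rw [show (starRingEnd ℂ) (2 : ℂ) = 2 from Complex.conj_ofNat 2]
      ring
    simp only [hg, gg, hk₁, hk₂, hl₁, hl₂]
    rw [hH₁, hH₂, exp_Hinv c.μ hμ s ζ₁ h4, exp_Hinv c.μ hμ t ζ₂ h5, ← hH₁, ← hH₂,
      ← e1 c.lm, ← e1 c.lp]
    simp only [Complex.ofReal_one, one_mul]
    congr 2
    ring
  have hgz : g z₁ z₂ = gg c s t := by
    rw [hcong z₁ z₂ hz₁0 hz₂0, hH₁z, hH₂z]
  -- positivity and lower bound of g
  have hcos : 0 < Real.cos (c.lm * Real.pi / (2 * c.μ)) := by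
    apply Real.cos_pos_of_mem_Ioo
    have h4 : c.lm * Real.pi / (2 * c.μ) < Real.pi / 2 := by
      rw [div_lt_div_iff₀ (by positivity) (by norm_num)]
      have h5 : c.lm < c.μ := by linarith [c.h2, c.h3, c.h4, c.hσ]
      nlinarith [Real.pi_pos]
    have h6 : 0 < c.lm * Real.pi / (2 * c.μ) := by
      have : 0 < c.lm := by linarith [c.h1]
      positivity
    exact ⟨by linarith [Real.pi_pos], h4⟩
  have hcos' : 0 < Real.cos (c.lp * Real.pi / (2 * c.μ)) := by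
    apply Real.cos_pos_of_mem_Ioo
    have h4 : c.lp * Real.pi / (2 * c.μ) < Real.pi / 2 := by
      rw [div_lt_div_iff₀ (by positivity) (by norm_num)]
      have h5 : c.lp < c.μ := c.h4
      nlinarith [Real.pi_pos]
    have h6 : 0 < c.lp * Real.pi / (2 * c.μ) := by
      have : 0 < c.lp := by linarith [c.h1, c.h2, c.h3, c.hσ]
      positivity
    exact ⟨by linarith [Real.pi_pos], h4⟩
  have hpsi := psi_ge hρ c s t h3.le
  have hggx : x ≤ gg c s t := by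
    have h4 : 0 ≤ kk c.μ c.lm c.dm * x ^ (ee c.μ c.lm) := by positivity
    have h5 : 0 ≤ kk c.μ c.lp c.dp * x ^ (ee c.μ c.lp) := by positivity
    have h6 : 0 ≤ c.dm * Real.cos (c.lm * Real.pi / (2 * c.μ)) *
        Real.exp (c.lm * ((s.re + t.re) / 2)) := by
      have := c.hdm
      positivity
    have h7 : 0 ≤ c.dp * Real.cos (c.lp * Real.pi / (2 * c.μ)) *
        Real.exp (c.lp * ((s.re + t.re) / 2)) := by
      have := c.hdp
      positivity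
    have h8 : gg c s t = Phi c.μ c.lm c.lp c.dm c.dp x +
      ((c.dm : ℂ) * Complex.exp (c.lm * (s + conj t) / 2)
        + (c.dp : ℂ) * Complex.exp (c.lp * (s + conj t) / 2)).re := rfl
    rw [h8, Phi]
    linarith
  have hgpos : 0 < g z₁ z₂ := by rw [hgz]; linarith
  -- derivatives of Phi
  set Φ' : ℝ → ℝ := fun y => 1 + kk c.μ c.lm c.dm * (ee c.μ c.lm * y ^ (ee c.μ c.lm - 1)) +
    kk c.μ c.lp c.dp * (ee c.μ c.lp * y ^ (ee c.μ c.lp - 1)) with hΦ'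
  have hd1 : ∀ y : ℝ, 0 < y → HasDerivAt (Phi c.μ c.lm c.lp c.dm c.dp) (Φ' y) y := by
    intro y hy
    have h4 := (((hasDerivAt_id y).add ((Real.hasDerivAt_rpow_const (p := ee c.μ c.lm)
      (Or.inl hy.ne')).const_mul (kk c.μ c.lm c.dm)))).add
      ((Real.hasDerivAt_rpow_const (p := ee c.μ c.lp) (Or.inl hy.ne')).const_mul (kk c.μ c.lp c.dp))
    exact h4
  set Φ'' : ℝ := kk c.μ c.lm c.dm * (ee c.μ c.lm * ((ee c.μ c.lm - 1) * x ^ (ee c.μ c.lm - 1 - 1))) +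
    kk c.μ c.lp c.dp * (ee c.μ c.lp * ((ee c.μ c.lp - 1) * x ^ (ee c.μ c.lp - 1 - 1))) with hΦ''
  have hd2 : HasDerivAt Φ' Φ'' x := by
    have h4 := (((Real.hasDerivAt_rpow_const (x := x) (p := ee c.μ c.lm - 1)
      (Or.inl hx0.ne')).const_mul (ee c.μ c.lm)).const_mul (kk c.μ c.lm c.dm)).const_add 1 |>.add
      (((Real.hasDerivAt_rpow_const (x := x) (p := ee c.μ c.lp - 1) (Or.inl hx0.ne')).const_mul
        (ee c.μ c.lp)).const_mul (kk c.μ c.lp c.dp))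
    exact h4
  -- the maximum condition
  have hcont : ContinuousAt (fun p : ℂ × ℂ => (H₁ p.1, H₂ p.2)) (z₁, z₂) :=
    ContinuousAt.prodMk
      (ContinuousAt.comp (g := H₁) (f := Prod.fst) (x := (z₁, z₂)) hH₁a.continuousAt continuousAt_fst)
      (ContinuousAt.comp (g := H₂) (f := Prod.snd) (x := (z₁, z₂)) hH₂a.continuousAt continuousAt_snd)
  have hmax' : ∀ᶠ p : ℂ × ℂ in 𝓝 (z₁, z₂), ((Ls ∘ H₁) p.1).re * ((Lt ∘ H₂) p.2).re * (g z₁ z₂) ^ 2 ≤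
      ((Ls ∘ H₁) z₁).re * ((Lt ∘ H₂) z₂).re * (g p.1 p.2) ^ 2 := by
    have h4 : ∀ᶠ p : ℂ × ℂ in 𝓝 (z₁, z₂), u (H₁ p.1) * u (H₂ p.2) * (gg c s t) ^ 2 ≤
        u s * u t * (gg c (H₁ p.1) (H₂ p.2)) ^ 2 := by
      have h5 : Tendsto (fun p : ℂ × ℂ => (H₁ p.1, H₂ p.2)) (𝓝 (z₁, z₂)) (𝓝 (s, t)) := by
        have := hcont.tendsto
        simp only [hH₁z, hH₂z] at this
        exact this
      exact h5.eventually hmax
    have h6 : ∀ᶠ p : ℂ × ℂ in 𝓝 (z₁, z₂), u (H₁ p.1) = (Ls (H₁ p.1)).re := by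
      have h7 : Tendsto (fun p : ℂ × ℂ => H₁ p.1) (𝓝 (z₁, z₂)) (𝓝 s) := by
        have h8 := hH₁a.continuousAt.tendsto
        rw [hH₁z] at h8
        exact h8.comp continuousAt_fst.tendsto
      exact h7.eventually hLse
    have h6' : ∀ᶠ p : ℂ × ℂ in 𝓝 (z₁, z₂), u (H₂ p.2) = (Lt (H₂ p.2)).re := by
      have h7 : Tendsto (fun p : ℂ × ℂ => H₂ p.2) (𝓝 (z₁, z₂)) (𝓝 t) := by
        have h8 := hH₂a.continuousAt.tendsto
        rw [hH₂z] at h8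
        exact h8.comp continuousAt_snd.tendsto
      exact h7.eventually hLte
    have h9 : ∀ᶠ p : ℂ × ℂ in 𝓝 (z₁, z₂), p.1 ≠ 0 :=
      continuousAt_fst.eventually_ne hz₁0
    have h9' : ∀ᶠ p : ℂ × ℂ in 𝓝 (z₁, z₂), p.2 ≠ 0 :=
      continuousAt_snd.eventually_ne hz₂0
    filter_upwards [h4, h6, h6', h9, h9'] with p e1 e2 e3 e4 e5
    simp only [Function.comp, hH₁z, hH₂z]
    rw [← hLse.self_of_nhds, ← hLte.self_of_nhds, ← e2, ← e3, hgz, hcong p.1 p.2 e4 e5]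
    exact e1
  have hmain := loc_max (Ls ∘ H₁) (Lt ∘ H₂) k₁ l₁ k₂ l₂ z₁ z₂ hzne
    (AnalyticAt.comp (by rw [hH₁z]; exact hLsa) hH₁a)
    (AnalyticAt.comp (by rw [hH₂z]; exact hLta) hH₂a)
    (hka _ _ _ _ hH₁a) (hka _ _ _ _ hH₂a) (hka _ _ _ _ hH₁a) (hka _ _ _ _ hH₂a)
    (by simp only [Function.comp, hH₁z]; rw [← hLse.self_of_nhds]; exact hs)
    (by simp only [Function.comp, hH₂z]; rw [← hLte.self_of_nhds]; exact ht)
    (Phi c.μ c.lm c.lp c.dm c.dp) Φ' Φ'' (by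
      filter_upwards [lt_mem_nhds hx0] with y hy
      exact hd1 y hy) hd2 g (fun _ _ => rfl) hgpos hmax' ((z₁ - z₂) / ‖z₁ - z₂‖) rfl
  rw [(hkd _ _ _ _ _ hH₁z hH₁d).deriv, (hkd _ _ _ _ _ hH₂z hH₂d).deriv,
    (hkd _ _ _ _ _ hH₁z hH₁d).deriv, (hkd _ _ _ _ _ hH₂z hH₂d).deriv, hgz] at hmain
  set ν : ℂ := (z₁ - z₂) / ‖z₁ - z₂‖ with hν
  have hν1 : ‖ν‖ = 1 := by
    rw [hν, norm_div]
    simp only [Complex.norm_real, norm_norm]
    exact div_self hx0.ne'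
  have hIν : ‖I * ν‖ = 1 := by rw [norm_mul, hν1]; simp
  -- bound of the terms
  set T : ℝ → ℝ → ℝ := fun l d => d * (l / (2 * c.μ)) * (r₁ * r₂) ^ (l / c.μ / 2) * (1 / r₁ + 1 / r₂)
    with hT
  have hterm : ∀ (l d : ℝ) (ξ : ℂ), 0 < l → 0 < d → ‖ξ‖ = 1 →
      ‖(d : ℂ) * (Complex.exp (l * s / 2) * (l * (1 / (c.μ * z₁)) / 2)) * ξ *
        conj (((1 : ℝ) : ℂ) * Complex.exp (l * H₂ z₂ / 2))‖ ≤
        d * (l / (2 * c.μ)) * (r₁ * r₂) ^ (l / c.μ / 2) * (1 / r₁) ∧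
      ‖(d : ℂ) * Complex.exp (l * H₁ z₁ / 2) *
        conj (((1 : ℝ) : ℂ) * (Complex.exp (l * t / 2) * (l * (1 / (c.μ * z₂)) / 2)) * ξ)‖ ≤
        d * (l / (2 * c.μ)) * (r₁ * r₂) ^ (l / c.μ / 2) * (1 / r₂) := by
    intro l d ξ hl hd hξ
    have e0 := norm_exp_half c.μ l hμ s t
    rw [hH₁z, hH₂z]
    constructor
    · simp only [norm_mul, norm_div, hξ, Complex.norm_conj, Complex.norm_real, norm_one, hnz₁,
        Real.norm_of_nonneg hl.le, Real.norm_of_nonneg hd.le, Real.norm_of_nonneg hμ.le]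
      rw [← e0]
      apply le_of_eq
      norm_num
      field_simp
    · simp only [norm_mul, norm_div, hξ, Complex.norm_conj, Complex.norm_real, norm_one, hnz₂,
        Real.norm_of_nonneg hl.le, Real.norm_of_nonneg hd.le, Real.norm_of_nonneg hμ.le]
      rw [← e0]
      apply le_of_eq
      norm_num
      field_simp
  have hlm : 0 < c.lm := by linarith [c.h1]
  have hlp : 0 < c.lp := by linarith [c.h1, c.h2, c.h3, c.hσ]
  obtain ⟨a1, a2⟩ := hterm c.lm c.dm ν hlm c.hdm hν1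
  obtain ⟨a3, a4⟩ := hterm c.lp c.dp ν hlp c.hdp hν1
  obtain ⟨b1, b2⟩ := hterm c.lm c.dm (I * ν) hlm c.hdm hIν
  obtain ⟨b3, b4⟩ := hterm c.lp c.dp (I * ν) hlp c.hdp hIν
  have hTm : T c.lm c.dm = c.dm * (c.lm / (2 * c.μ)) * (r₁ * r₂) ^ (c.lm / c.μ / 2) * (1 / r₁) +
      c.dm * (c.lm / (2 * c.μ)) * (r₁ * r₂) ^ (c.lm / c.μ / 2) * (1 / r₂) := by
    simp only [hT]; ring
  have hTp : T c.lp c.dp = c.dp * (c.lp / (2 * c.μ)) * (r₁ * r₂) ^ (c.lp / c.μ / 2) * (1 / r₁) +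
      c.dp * (c.lp / (2 * c.μ)) * (r₁ * r₂) ^ (c.lp / c.μ / 2) * (1 / r₂) := by
    simp only [hT]; ring
  have hr12 : r₁ ≤ Real.exp 2 * r₂ := by
    rw [hr₁, hr₂, ← Real.exp_add]
    apply Real.exp_le_exp.mpr
    have := (abs_le.mp h2).2
    rw [le_div_iff₀ hμ] at this
    have h6 : (s.re - t.re) * c.μ = c.μ * s.re - c.μ * t.re := by ring
    rw [h6] at this
    linarith only [this]
  have hr21 : r₂ ≤ Real.exp 2 * r₁ := by
    rw [hr₁, hr₂, ← Real.exp_add]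
    apply Real.exp_le_exp.mpr
    have := (abs_le.mp h2).1
    have h5 : t.re - s.re ≤ 2 / c.μ := by linarith
    rw [le_div_iff₀ hμ] at h5
    have h6 : (t.re - s.re) * c.μ = c.μ * t.re - c.μ * s.re := by ring
    rw [h6] at h5
    linarith only [h5]
  have hxr : x ≤ r₁ + r₂ := by
    rw [hx, ← hnz₁, ← hnz₂]
    exact norm_sub_le _ _
  have htb1 := term_bound c.μ c.lm c.dm r₁ r₂ x hμ c.h1
    (by linarith [c.h2, c.h3, c.h4, c.hσ]) c.hdm hr₁0 hr₂0 hr12 hr21 hx0 hxr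
  have htb2 := term_bound c.μ c.lp c.dp r₁ r₂ x hμ
    (by linarith [c.h1, c.h2, c.h3, c.hσ]) c.h4 c.hdp hr₁0 hr₂0 hr12 hr21 hx0 hxr
  have hfin := hmain.trans (add_le_add
    (barInt_sq _ _ _ _ (T c.lm c.dm) (T c.lp c.dp) (by rw [hTm]; exact add_le_add a1 a2)
      (by rw [hTp]; exact add_le_add a3 a4))
    (barInt_sq' _ _ _ _ (T c.lm c.dm) (T c.lp c.dp) (by rw [hTm]; exact add_le_add b1 b2)
      (by rw [hTp]; exact add_le_add b3 b4)))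
  -- the left hand side
  set em := ee c.μ c.lm with hem
  set ep := ee c.μ c.lp with hep
  have hp1 : x ^ (em - 1) = x * x ^ (em - 1 - 1) := by
    rw [mul_comm, ← Real.rpow_add_one hx0.ne']
    congr 1
    ring
  have hp2 : x ^ (ep - 1) = x * x ^ (ep - 1 - 1) := by
    rw [mul_comm, ← Real.rpow_add_one hx0.ne']
    congr 1
    ring
  have hk1 : kk c.μ c.lm c.dm * (em * (1 - em)) = 12 * c.dm ^ 2 := by
    rw [kk, ← hem, div_mul_cancel₀]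
    exact (mul_pos hem0 (by linarith)).ne'
  have hk2 : kk c.μ c.lp c.dp * (ep * (1 - ep)) = 12 * c.dp ^ 2 := by
    rw [kk, ← hep, div_mul_cancel₀]
    exact (mul_pos hep0 (by linarith)).ne'
  have hΦneg : Φ'' = -(12 * c.dm ^ 2 * x ^ (em - 1 - 1) + 12 * c.dp ^ 2 * x ^ (ep - 1 - 1)) := by
    rw [hΦ'', ← hk1, ← hk2]
    ring
  have hq1 : 0 < x ^ (em - 1 - 1) := Real.rpow_pos_of_pos hx0 _
  have hq2 : 0 < x ^ (ep - 1 - 1) := Real.rpow_pos_of_pos hx0 _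
  rw [hΦneg] at hfin
  rw [hp1] at htb1
  rw [hp2] at htb2
  exact barInt_final x (gg c s t) c.dm c.dp _ _ (T c.lm c.dm) (T c.lp c.dp) hx0 hggx hq1 hq2
    c.hdm c.hdp htb1 htb2 hfin

end

end Pool.Agent.LibAV71
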