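import Pool.Agent.LibAV71.Defs

/-! Task A5: Fourier transform of the explicit kernel. -/

set_option autoImplicit false

open Complex

namespace Pool.Agent.LibAV71

noncomputable section

/-- the kernel on the interval `[-L/2, L/2]`; `ν = 2 π m / L` -/
def kern {ι : Type*} (L : ℝ) (s : Finset ι) (m : ι → ℤ) (A : ι → ℝ) (y : ℝ) : ℂ :=
  1 + ∑ j ∈ s, (A j : ℂ) *
    (((-1 : ℂ) ^ (m j) * Complex.exp (-(I * ((2 * Real.pi * m j / L : ℝ) : ℂ) * y)) - 1) /
      ((2 * Real.pi * m j / L : ℝ) : ℂ))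

theorem kern_exp_integral (L : ℝ) (w : ℝ) :
    ∫ y in (-(L / 2))..(L / 2), Complex.exp (I * w * y) =
      ((L * Real.sinc (w * L / 2) : ℝ) : ℂ) := by
  by_cases hw : w = 0
  · subst hw
    simp
  · by_cases hL : L = 0
    · subst hL
      simp
    have hc : (I * (w : ℂ)) ≠ 0 := mul_ne_zero I_ne_zero (by exact_mod_cast hw)
    rw [integral_exp_mul_complex hc]
    have hne : w * L / 2 ≠ 0 := by
      have := mul_ne_zero hw hL
      simpa using this
    rw [Real.sinc_of_ne_zero hne]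
    have hwc : (w : ℂ) ≠ 0 := by exact_mod_cast hw
    have hLc : (L : ℂ) ≠ 0 := by exact_mod_cast hL
    have hsin : Complex.exp (I * w * ((L / 2 : ℝ) : ℂ)) - Complex.exp (I * w * ((-(L / 2) : ℝ) : ℂ)) =
        2 * I * Complex.sin ((w * L / 2 : ℝ) : ℂ) := by
      rw [Complex.sin]
      have e1 : I * w * ((L / 2 : ℝ) : ℂ) = ((w * L / 2 : ℝ) : ℂ) * I := by push_cast; ring
      have e2 : I * w * ((-(L / 2) : ℝ) : ℂ) = -((w * L / 2 : ℝ) : ℂ) * I := by push_cast; ring
      rw [e1, e2]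
      linear_combination (Complex.exp (((w * L / 2 : ℝ) : ℂ) * I) -
        Complex.exp (-((w * L / 2 : ℝ) : ℂ) * I)) * Complex.I_mul_I
    rw [hsin]
    push_cast
    field_simp

theorem kern_shift_integral (L : ℝ) (hL : 0 < L) (w : ℝ) (m : ℤ)
    (hw : w ≠ 2 * Real.pi * m / L) :
    ∫ y in (-(L / 2))..(L / 2), Complex.exp (I * w * y) *
        ((-1 : ℂ) ^ m * Complex.exp (-(I * ((2 * Real.pi * m / L : ℝ) : ℂ) * y))) =
      ((L * Real.sinc (w * L / 2) * (w / (w - 2 * Real.pi * m / L)) : ℝ) : ℂ) := by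
  set ν : ℝ := 2 * Real.pi * m / L with hν
  have h1 : ∀ y : ℝ, Complex.exp (I * w * y) * ((-1 : ℂ) ^ m * Complex.exp (-(I * (ν : ℂ) * y))) =
      (-1 : ℂ) ^ m * Complex.exp (I * ((w - ν : ℝ) : ℂ) * y) := by
    intro y
    have : I * ((w - ν : ℝ) : ℂ) * y = I * w * y + (-(I * (ν : ℂ) * y)) := by
      push_cast; ring
    rw [this, Complex.exp_add]
    ring
  simp only [h1]
  rw [intervalIntegral.integral_const_mul, kern_exp_integral]
  have hwν : w - ν ≠ 0 := sub_ne_zero.mpr hw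
  have hne : (w - ν) * L / 2 ≠ 0 := by
    have := mul_ne_zero hwν hL.ne'
    simpa using this
  rw [Real.sinc_of_ne_zero hne]
  have hang : (w - ν) * L / 2 = w * L / 2 - m * Real.pi := by
    rw [hν]; field_simp
  have hs : Real.sin ((w - ν) * L / 2) = (-1) ^ m * Real.sin (w * L / 2) := by
    rw [hang, Real.sin_sub_int_mul_pi]
  have hsinc : Real.sin (w * L / 2) = (w * L / 2) * Real.sinc (w * L / 2) := by
    by_cases h : w * L / 2 = 0
    · rw [h]; simp
    · rw [Real.sinc_of_ne_zero h, mul_div_cancel₀ _ h]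
  rw [hs, hsinc]
  have hpow : ((-1 : ℝ) ^ m) * ((-1 : ℝ) ^ m) = 1 := by
    rw [← mul_zpow]; simp
  have hreal : ((-1 : ℝ) ^ m) * (L * ((-1) ^ m * (w * L / 2 * Real.sinc (w * L / 2)) / ((w - ν) * L / 2))) =
      L * Real.sinc (w * L / 2) * (w / (w - ν)) := by
    have : ((-1 : ℝ) ^ m) * (L * ((-1) ^ m * (w * L / 2 * Real.sinc (w * L / 2)) / ((w - ν) * L / 2))) =
      (((-1 : ℝ) ^ m) * ((-1 : ℝ) ^ m)) * (L * ((w * L / 2 * Real.sinc (w * L / 2)) / ((w - ν) * L / 2))) := by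
      ring
    rw [this, hpow]
    field_simp
  rw [← hreal]
  push_cast
  rfl

theorem kern_term_integral (L : ℝ) (hL : 0 < L) (w : ℝ) (m : ℤ) (hm : m ≠ 0)
    (hw : w ≠ 2 * Real.pi * m / L) :
    ∫ y in (-(L / 2))..(L / 2), Complex.exp (I * w * y) *
        (((-1 : ℂ) ^ m * Complex.exp (-(I * ((2 * Real.pi * m / L : ℝ) : ℂ) * y)) - 1) /
          ((2 * Real.pi * m / L : ℝ) : ℂ)) =
      ((L * Real.sinc (w * L / 2) * (1 / (w - 2 * Real.pi * m / L)) : ℝ) : ℂ) := by
  set ν : ℝ := 2 * Real.pi * m / L with hν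
  have hν0 : ν ≠ 0 := by
    rw [hν]
    have hmr : (m : ℝ) ≠ 0 := by exact_mod_cast hm
    have := Real.pi_pos
    positivity
  have h1 : ∀ y : ℝ, Complex.exp (I * w * y) *
      (((-1 : ℂ) ^ m * Complex.exp (-(I * (ν : ℂ) * y)) - 1) / (ν : ℂ)) =
      (1 / (ν : ℂ)) * (Complex.exp (I * w * y) * ((-1 : ℂ) ^ m * Complex.exp (-(I * (ν : ℂ) * y))) -
        Complex.exp (I * w * y)) := by
    intro y; ring
  simp only [h1]
  rw [intervalIntegral.integral_const_mul, intervalIntegral.integral_sub]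
  · rw [kern_shift_integral L hL w m hw, kern_exp_integral]
    have hwν : w - ν ≠ 0 := sub_ne_zero.mpr hw
    rw [← hν]
    have hreal : (1 / ν) * (L * Real.sinc (w * L / 2) * (w / (w - ν)) - L * Real.sinc (w * L / 2)) =
        L * Real.sinc (w * L / 2) * (1 / (w - ν)) := by
      field_simp
      ring
    rw [← hreal]
    push_cast
    rfl
  · apply Continuous.intervalIntegrable
    fun_prop
  · apply Continuous.intervalIntegrable
    fun_prop

theorem kern_continuous {ι : Type*} (L : ℝ) (s : Finset ι) (m : ι → ℤ) (A : ι → ℝ) :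
    Continuous (kern L s m A) := by
  unfold kern
  fun_prop

theorem kern_integral {ι : Type*} (L : ℝ) (hL : 0 < L) (s : Finset ι) (m : ι → ℤ) (A : ι → ℝ)
    (hm : ∀ j ∈ s, m j ≠ 0) (w : ℝ) (hw : ∀ j ∈ s, w ≠ 2 * Real.pi * m j / L) :
    ∫ y in (-(L / 2))..(L / 2), Complex.exp (I * w * y) * kern L s m A y =
      ((L * Real.sinc (w * L / 2) * (1 + ∑ j ∈ s, A j / (w - 2 * Real.pi * m j / L)) : ℝ) : ℂ) := by
  have h1 : ∀ y : ℝ, Complex.exp (I * w * y) * kern L s m A y =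
      Complex.exp (I * w * y) + ∑ j ∈ s, (A j : ℂ) * (Complex.exp (I * w * y) *
        (((-1 : ℂ) ^ (m j) * Complex.exp (-(I * ((2 * Real.pi * m j / L : ℝ) : ℂ) * y)) - 1) /
      ((2 * Real.pi * m j / L : ℝ) : ℂ))) := by
    intro y
    unfold kern
    rw [mul_add, mul_one, Finset.mul_sum]
    congr 1
    apply Finset.sum_congr rfl
    intro j _
    ring
  simp only [h1]
  rw [intervalIntegral.integral_add, intervalIntegral.integral_finsetSum, kern_exp_integral]
  · have h2 : ∀ j ∈ s, (∫ y in (-(L / 2))..(L / 2), (A j : ℂ) * (Complex.exp (I * w * y) *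
        (((-1 : ℂ) ^ (m j) * Complex.exp (-(I * ((2 * Real.pi * m j / L : ℝ) : ℂ) * y)) - 1) /
      ((2 * Real.pi * m j / L : ℝ) : ℂ)))) =
        (A j : ℂ) * ((L * Real.sinc (w * L / 2) * (1 / (w - 2 * Real.pi * m j / L)) : ℝ) : ℂ) := by
      intro j hj
      rw [intervalIntegral.integral_const_mul, kern_term_integral L hL w (m j) (hm j hj) (hw j hj)]
    rw [Finset.sum_congr rfl h2]
    push_cast
    rw [mul_add, mul_one, Finset.mul_sum]
    congr 1
    apply Finset.sum_congr rfl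
    intro j _
    ring
  · intro j _
    apply Continuous.intervalIntegrable
    fun_prop
  · apply Continuous.intervalIntegrable
    fun_prop
  · apply Continuous.intervalIntegrable
    fun_prop

theorem kern_norm_le {ι : Type*} (L : ℝ) (hL : 0 < L) (s : Finset ι) (m : ι → ℤ) (A : ι → ℝ)
    (hm : ∀ j ∈ s, m j ≠ 0) (y : ℝ) :
    ‖kern L s m A y‖ ≤ 1 + ∑ j ∈ s, |A j| * L := by
  unfold kern
  refine (norm_add_le _ _).trans ?_
  rw [norm_one]
  refine add_le_add le_rfl ?_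
  refine (norm_sum_le _ _).trans ?_
  apply Finset.sum_le_sum
  intro j hj
  rw [norm_mul, norm_div, Complex.norm_real, Complex.norm_real, Real.norm_eq_abs, Real.norm_eq_abs]
  apply mul_le_mul_of_nonneg_left _ (abs_nonneg _)
  have hexp : ‖Complex.exp (-(I * ((2 * Real.pi * m j / L : ℝ) : ℂ) * y))‖ = 1 := by
    have : -(I * ((2 * Real.pi * m j / L : ℝ) : ℂ) * y) = ((-((2 * Real.pi * m j / L) * y) : ℝ) : ℂ) * I := by
      push_cast; ring
    rw [this, Complex.norm_exp_ofReal_mul_I]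
  have hnum : ‖(-1 : ℂ) ^ (m j) * Complex.exp (-(I * ((2 * Real.pi * m j / L : ℝ) : ℂ) * y)) - 1‖ ≤ 2 := by
    refine (norm_sub_le _ _).trans ?_
    rw [norm_mul, hexp, norm_zpow]
    simp
    norm_num
  have hmabs : (1 : ℝ) ≤ |(m j : ℝ)| := by
    have : (1 : ℤ) ≤ |m j| := Int.one_le_abs (hm j hj)
    have h2 : ((1 : ℤ) : ℝ) ≤ ((|m j| : ℤ) : ℝ) := by exact_mod_cast this
    simpa using h2
  have hden : 2 / L ≤ |2 * Real.pi * m j / L| := by
    rw [abs_div, abs_mul, abs_mul, abs_of_pos hL, abs_of_pos Real.pi_pos, abs_two]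
    apply div_le_div_of_nonneg_right _ hL.le
    have := Real.pi_gt_three
    nlinarith
  have h2L : 0 < 2 / L := by positivity
  calc _ ≤ 2 / |2 * Real.pi * m j / L| := by
        apply div_le_div_of_nonneg_right hnum (abs_nonneg _)
    _ ≤ 2 / (2 / L) := by
        apply div_le_div_of_nonneg_left (by norm_num) h2L hden
    _ = L := by field_simp

end

end Pool.Agent.LibAV71
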