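import Pool.Agent.LibAV71.Defs

/-! Task A4: partial fractions. -/

set_option autoImplicit false

namespace Pool.Agent.LibAV71

open Classical in
theorem partial_fractions {ι : Type*} (s : Finset ι) (lam mu : ι → ℝ) (hinj : Set.InjOn mu s)
    (z : ℝ) (hz : ∀ i ∈ s, z ≠ mu i) :
    ∏ i ∈ s, (z - lam i) / (z - mu i) =
      1 + ∑ j ∈ s, ((mu j - lam j) * ∏ i ∈ s.erase j, (mu j - lam i) / (mu j - mu i)) / (z - mu j) := by
  set P : Polynomial ℝ := Lagrange.nodal s lam - Lagrange.nodal s mu with hP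
  have hdeg : P.degree < (s.card : WithBot ℕ) := by
    have h1 : (Lagrange.nodal s lam).degree = s.card := Lagrange.degree_nodal
    have h2 : (Lagrange.nodal s mu).degree = s.card := Lagrange.degree_nodal
    rw [← h1]
    apply Polynomial.degree_sub_lt_left (h1.trans h2.symm) Lagrange.nodal_ne_zero
    rw [(Lagrange.nodal_monic (s := s) (v := lam)).leadingCoeff,
      (Lagrange.nodal_monic (s := s) (v := mu)).leadingCoeff]
  have hint := Lagrange.eq_interpolate hinj hdeg
  have hev := congrArg (Polynomial.eval z) hint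
  rw [Lagrange.eval_interpolate_not_at_node _ hz] at hev
  have hPz : ∀ x, Polynomial.eval x P = ∏ i ∈ s, (x - lam i) - ∏ i ∈ s, (x - mu i) := by
    intro x
    rw [hP, Polynomial.eval_sub, Lagrange.eval_nodal, Lagrange.eval_nodal]
  have hnz : ∏ i ∈ s, (z - mu i) ≠ 0 :=
    Finset.prod_ne_zero_iff.mpr fun i hi => sub_ne_zero.mpr (hz i hi)
  rw [Finset.prod_div_distrib, div_eq_iff hnz]
  have h3 : ∏ i ∈ s, (z - lam i) = ∏ i ∈ s, (z - mu i) + Polynomial.eval z P := by
    rw [hPz]
    ring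
  rw [h3, hev, Lagrange.eval_nodal, add_mul, one_mul, mul_comm (∏ i ∈ s, (z - mu i)) (∑ i ∈ s, _)]
  congr 2
  apply Finset.sum_congr rfl
  intro j hj
  have hz1 : ∏ i ∈ s, (mu j - mu i) = 0 := Finset.prod_eq_zero hj (sub_self _)
  rw [hPz, hz1, sub_zero, ← Finset.mul_prod_erase s (fun i => mu j - lam i) hj,
    Finset.prod_div_distrib, Lagrange.nodalWeight, Finset.prod_inv_distrib]
  simp only [div_eq_mul_inv]
  ring

end Pool.Agent.LibAV71
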