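import Pool.Agent.LibAV71.Prod
import Pool.Agent.LibAV71.PFrac
import Pool.Agent.LibAV71.Kern

/-! Task A6: bound of one coefficient by the maximum over an interval of critical length. -/

set_option autoImplicit false

open Filter Topology Complex

namespace Pool.Agent.LibAV71

/-- abstract form of the coefficient estimate -/
theorem coeff_core (L : ℝ) (hL : 0 < L) (k : ℝ → ℂ) (hk : Continuous k) (Kb : ℝ)
    (hKb : ∀ y, ‖k y‖ ≤ Kb) (y0 Q : ℝ) (n N : ℕ) (hn : n ≤ N) (c : ℕ → ℂ)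
    (hc : Summable (fun m => ‖c m‖)) (htail : ∑' m, ‖c (m + N + 1)‖ ≤ 1)
    (hF : ∀ y ∈ Set.Icc (y0 - L / 2) (y0 + L / 2),
      ‖∑' m : ℕ, c m * Complex.exp (I * m * y)‖ ≤ Q)
    (hz : ∀ m, m ≤ N → m ≠ n → c m = 0 ∨
      ∫ y in (-(L / 2))..(L / 2), Complex.exp (I * (((m : ℝ) - (n : ℝ) : ℝ) : ℂ) * y) * k y = 0) :
    ‖c n‖ * ‖∫ y in (-(L / 2))..(L / 2), k y‖ ≤ L * Kb * (Q + 1) := by
  have hKb0 : 0 ≤ Kb := le_trans (norm_nonneg _) (hKb 0)
  have hle : -(L / 2) ≤ L / 2 := by linarith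
  set G : ℕ → ℂ := fun m => ∫ y in (-(L / 2))..(L / 2),
    c m * Complex.exp (I * m * ((y0 + y : ℝ) : ℂ)) *
      (Complex.exp (-(I * n * ((y0 + y : ℝ) : ℂ))) * k y) with hG
  have hnorm1 : ∀ (m : ℕ) (y : ℝ), ‖Complex.exp (I * m * (y : ℂ))‖ = 1 := by
    intro m y
    rw [Complex.norm_exp]; simp
  have hnorm2 : ∀ (m : ℕ) (y : ℝ), ‖Complex.exp (-(I * m * (y : ℂ)))‖ = 1 := by
    intro m y
    rw [Complex.norm_exp]; simp
  -- G in terms of the modulated integral
  have hG2 : ∀ m, G m = c m * Complex.exp (I * (((m : ℝ) - (n : ℝ) : ℝ) : ℂ) * y0) *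
      ∫ y in (-(L / 2))..(L / 2), Complex.exp (I * (((m : ℝ) - (n : ℝ) : ℝ) : ℂ) * y) * k y := by
    intro m
    rw [hG]
    simp only
    rw [← intervalIntegral.integral_const_mul]
    apply intervalIntegral.integral_congr
    intro y _
    simp only
    have : Complex.exp (I * m * ((y0 + y : ℝ) : ℂ)) * Complex.exp (-(I * n * ((y0 + y : ℝ) : ℂ)))
        = Complex.exp (I * (((m : ℝ) - (n : ℝ) : ℝ) : ℂ) * y0) *
          Complex.exp (I * (((m : ℝ) - (n : ℝ) : ℝ) : ℂ) * y) := by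
      rw [← Complex.exp_add, ← Complex.exp_add]
      congr 1
      push_cast
      ring
    calc c m * Complex.exp (I * m * ((y0 + y : ℝ) : ℂ)) *
          (Complex.exp (-(I * n * ((y0 + y : ℝ) : ℂ))) * k y)
        = c m * (Complex.exp (I * m * ((y0 + y : ℝ) : ℂ)) *
          Complex.exp (-(I * n * ((y0 + y : ℝ) : ℂ)))) * k y := by ring
      _ = _ := by rw [this]; ring
  -- norm bound of G
  have hGn : ∀ m, ‖G m‖ ≤ ‖c m‖ * (L * Kb) := by
    intro m
    rw [hG]
    simp only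
    have := intervalIntegral.norm_integral_le_of_norm_le_const (a := -(L / 2)) (b := L / 2)
      (C := ‖c m‖ * Kb) (f := fun y : ℝ => c m * Complex.exp (I * m * ((y0 + y : ℝ) : ℂ)) *
      (Complex.exp (-(I * n * ((y0 + y : ℝ) : ℂ))) * k y)) (by
        intro y _
        rw [norm_mul, norm_mul, norm_mul, hnorm1, hnorm2]
        have := hKb y
        have h2 := norm_nonneg (c m)
        nlinarith)
    refine this.trans (le_of_eq ?_)
    rw [show L / 2 - -(L / 2) = L by ring, abs_of_pos hL]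
    ring
  have hsumG : Summable G := by
    refine Summable.of_norm_bounded (hc.mul_right (L * Kb)) hGn
  -- the sum of G
  have hHS : HasSum G (∫ y in (-(L / 2))..(L / 2),
      (∑' m : ℕ, c m * Complex.exp (I * m * ((y0 + y : ℝ) : ℂ))) *
      (Complex.exp (-(I * n * ((y0 + y : ℝ) : ℂ))) * k y)) := by
    rw [hG]
    apply intervalIntegral.hasSum_integral_of_dominated_convergence (fun m _ => ‖c m‖ * Kb)
    · intro m
      apply Continuous.aestronglyMeasurable
      fun_prop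
    · intro m
      refine Filter.Eventually.of_forall fun y _ => ?_
      rw [norm_mul, norm_mul, norm_mul, hnorm1, hnorm2]
      have := hKb y
      have h2 := norm_nonneg (c m)
      nlinarith
    · exact Filter.Eventually.of_forall fun y _ => hc.mul_right _
    · exact intervalIntegrable_const
    · refine Filter.Eventually.of_forall fun y _ => ?_
      apply HasSum.mul_right
      apply Summable.hasSum
      apply Summable.of_norm
      refine hc.congr fun m => ?_
      rw [norm_mul, hnorm1, mul_one]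
  -- bound of the total
  have htot : ‖∑' m, G m‖ ≤ L * Kb * Q := by
    rw [hHS.tsum_eq]
    have := intervalIntegral.norm_integral_le_of_norm_le_const (a := -(L / 2)) (b := L / 2)
      (C := Q * Kb) (f := fun y : ℝ => (∑' m : ℕ, c m * Complex.exp (I * m * ((y0 + y : ℝ) : ℂ))) *
      (Complex.exp (-(I * n * ((y0 + y : ℝ) : ℂ))) * k y)) (by
        intro y hy
        rw [Set.uIoc_of_le hle] at hy
        rw [norm_mul, norm_mul, hnorm2, one_mul]
        have h1 := hKb y
        have h2 := hF (y0 + y) ⟨by linarith [hy.1], by linarith [hy.2]⟩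
        exact mul_le_mul h2 h1 (norm_nonneg _) (le_trans (norm_nonneg _) h2))
    refine this.trans (le_of_eq ?_)
    rw [show L / 2 - -(L / 2) = L by ring, abs_of_pos hL]
    ring
  -- splitting
  have hsplit : ∑' m, G m = G n + ∑' m, G (m + (N + 1)) := by
    rw [← hsumG.sum_add_tsum_nat_add (N + 1)]
    congr 1
    apply Finset.sum_eq_single_of_mem n (Finset.mem_range.mpr (by omega))
    intro m hm hmn
    rw [hG2]
    rcases hz m (by have := Finset.mem_range.mp hm; omega) hmn with h | h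
    · rw [h]; simp
    · rw [h]; simp
  have htail2 : ‖∑' m, G (m + (N + 1))‖ ≤ L * Kb := by
    have hs : Summable (fun m => ‖c (m + N + 1)‖) := by
      have := (summable_nat_add_iff (N + 1)).mpr hc
      simpa [add_assoc] using this
    have h1 : ‖∑' m, G (m + (N + 1))‖ ≤ ∑' m, ‖c (m + N + 1)‖ * (L * Kb) := by
      apply tsum_of_norm_bounded (hs.mul_right _).hasSum
      intro m
      exact hGn _
    rw [tsum_mul_right] at h1
    have h2 : 0 ≤ L * Kb := by positivity
    nlinarith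
  have hGn' : ‖G n‖ = ‖c n‖ * ‖∫ y in (-(L / 2))..(L / 2), k y‖ := by
    rw [hG2]
    simp
  rw [← hGn']
  have : G n = ∑' m, G m - ∑' m, G (m + (N + 1)) := by rw [hsplit]; ring
  rw [this]
  refine (norm_sub_le _ _).trans ?_
  linarith

/-- an integer never equals a nonzero integer divided by an irrational number -/
theorem coeff_int_ne (D : ℝ) (hirr : Irrational D) (p q : ℤ) (hq : q ≠ 0) :
    (p : ℝ) ≠ (q : ℝ) / D := by
  intro h
  have hD : D ≠ 0 := hirr.ne_zero
  have hp : (p : ℝ) * D = q := by rw [h]; field_simp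
  have hp0 : (p : ℝ) ≠ 0 := by
    intro h0
    rw [h0, zero_mul] at hp
    exact hq (by exact_mod_cast hp.symm)
  apply hirr
  refine ⟨(q : ℚ) / (p : ℚ), ?_⟩
  push_cast
  field_simp
  linarith

/-- choice of delta and threshold -/
theorem coeff_choice (L D ε : ℝ) (hL : 0 < L) (hD : 0 < D) (hε : 0 < ε) :
    ∃ δ T : ℝ, 0 < δ ∧ δ ≤ 1 ∧ ∀ N : ℕ, T ≤ N → 1 ≤ N ∧
      Real.exp (4 * Real.sqrt (δ * N * N)) *
        (1 + (N + 1) * (δ * N * Real.exp (4 * Real.sqrt (δ * N * D * (4 * D * N + 1))) * L)) ≤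
        Real.exp (ε * N) := by
  -- delta
  obtain ⟨δ, hδ0, hδ1, hδ2, hδ3⟩ : ∃ δ : ℝ, 0 < δ ∧ δ ≤ 1 ∧ δ ≤ (ε / 16) ^ 2 ∧
      δ * (D * (4 * D + 1)) ≤ (ε / 16) ^ 2 := by
    have hK : 0 < D * (4 * D + 1) := by positivity
    refine ⟨min 1 (min ((ε / 16) ^ 2) ((ε / 16) ^ 2 / (D * (4 * D + 1)))), ?_, min_le_left _ _,
      (min_le_right _ _).trans (min_le_left _ _), ?_⟩
    · positivity
    · calc _ ≤ (ε / 16) ^ 2 / (D * (4 * D + 1)) * (D * (4 * D + 1)) := by
            apply mul_le_mul_of_nonneg_right _ hK.le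
            exact (min_le_right _ _).trans (min_le_right _ _)
        _ = _ := by field_simp
  -- threshold
  have hlim : Tendsto (fun x : ℝ => (1 + (x + 1) * (x * L)) / Real.exp (ε / 2 * x)) atTop (𝓝 0) := by
    have h0 : Tendsto (fun x : ℝ => (x ^ 0) / Real.exp (ε / 2 * x)) atTop (𝓝 0) :=
      (isLittleO_pow_exp_pos_mul_atTop 0 (half_pos hε)).tendsto_div_nhds_zero
    have h1 : Tendsto (fun x : ℝ => (x ^ 1) / Real.exp (ε / 2 * x)) atTop (𝓝 0) :=
      (isLittleO_pow_exp_pos_mul_atTop 1 (half_pos hε)).tendsto_div_nhds_zero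
    have h2 : Tendsto (fun x : ℝ => (x ^ 2) / Real.exp (ε / 2 * x)) atTop (𝓝 0) :=
      (isLittleO_pow_exp_pos_mul_atTop 2 (half_pos hε)).tendsto_div_nhds_zero
    have := (h0.add ((h1.const_mul L).add (h2.const_mul L)))
    simp only [mul_zero, add_zero] at this
    refine this.congr fun x => ?_
    ring
  have hev := (hlim.eventually (gt_mem_nhds (show (0 : ℝ) < 1 by norm_num)))
  obtain ⟨T, hT⟩ := Filter.eventually_atTop.mp hev
  refine ⟨δ, max T 1, hδ0, hδ1, fun N hN => ?_⟩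
  have hN1 : (1 : ℝ) ≤ N := (le_max_right _ _).trans hN
  have hN1' : 1 ≤ N := by exact_mod_cast hN1
  refine ⟨hN1', ?_⟩
  have h1 := hT N ((le_max_left _ _).trans hN)
  rw [div_lt_one (Real.exp_pos _)] at h1
  have hs1 : 4 * Real.sqrt (δ * N * N) ≤ ε / 4 * N := by
    have : Real.sqrt (δ * N * N) ≤ ε / 16 * N := by
      rw [show ε / 16 * (N : ℝ) = Real.sqrt ((ε / 16 * N) ^ 2) by
        rw [Real.sqrt_sq (by positivity)]]
      apply Real.sqrt_le_sqrt
      nlinarith [sq_nonneg (N : ℝ)]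
    linarith
  have hs2 : 4 * Real.sqrt (δ * N * D * (4 * D * N + 1)) ≤ ε / 4 * N := by
    have : Real.sqrt (δ * N * D * (4 * D * N + 1)) ≤ ε / 16 * N := by
      rw [show ε / 16 * (N : ℝ) = Real.sqrt ((ε / 16 * N) ^ 2) by
        rw [Real.sqrt_sq (by positivity)]]
      apply Real.sqrt_le_sqrt
      calc δ * N * D * (4 * D * N + 1) ≤ δ * N * D * (4 * D * N + N) := by
            apply mul_le_mul_of_nonneg_left _ (by positivity)
            linarith
        _ = (δ * (D * (4 * D + 1))) * N ^ 2 := by ring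
        _ ≤ (ε / 16) ^ 2 * N ^ 2 := by
            apply mul_le_mul_of_nonneg_right hδ3 (by positivity)
        _ = _ := by ring
    linarith
  have he1 : Real.exp (4 * Real.sqrt (δ * N * N)) ≤ Real.exp (ε / 4 * N) := Real.exp_le_exp.mpr hs1
  have he2 := Real.exp_le_exp.mpr hs2
  have he3 : 1 ≤ Real.exp (ε / 4 * N) := Real.one_le_exp (by positivity)
  calc _ ≤ Real.exp (ε / 4 * N) * (1 + (N + 1) * (1 * N * Real.exp (ε / 4 * N) * L)) := by
        gcongr
    _ ≤ Real.exp (ε / 4 * N) * (Real.exp (ε / 4 * N) * (1 + (N + 1) * (N * L))) := by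
        apply mul_le_mul_of_nonneg_left _ (Real.exp_pos _).le
        nlinarith
    _ ≤ Real.exp (ε / 4 * N) * (Real.exp (ε / 4 * N) * Real.exp (ε / 2 * N)) := by
        gcongr
    _ = Real.exp (ε * N) := by
        rw [← Real.exp_add, ← Real.exp_add]; congr 1; ring

theorem coeff_bound (Λ : Set ℕ) (Δ₂ : ℝ) (h2 : 0 < Δ₂) (hirr : Irrational Δ₂)
    (hm : ∀ δ : ℝ, 0 < δ → ∃ T : ℝ, ∀ N : ℕ, T ≤ N → ∀ n : ℕ, n ≤ N →
      ∃ φ : ℕ → ℤ, Set.InjOn φ {m | m ∈ Λ ∧ m ≤ N ∧ m ≠ n} ∧
        ∀ m : ℕ, m ∈ Λ → m ≤ N → m ≠ n →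
          φ m ≠ 0 ∧ |(m : ℝ) - ((n : ℝ) + (φ m : ℝ) / Δ₂)| ≤ δ * N) :
    ∀ ε : ℝ, 0 < ε → ∃ T : ℝ, ∀ N : ℕ, T ≤ N → ∀ n : ℕ, n ≤ N → ∀ c : ℕ → ℂ,
      (∀ m, m ∉ Λ → c m = 0) → Summable (fun m => ‖c m‖) → ∑' m, ‖c (m + N + 1)‖ ≤ 1 →
      ∀ a Q : ℝ, (∀ y ∈ Set.Icc a (a + 2 * Real.pi * Δ₂),
        ‖∑' m : ℕ, c m * Complex.exp (I * m * y)‖ ≤ Q) →
      ‖c n‖ ≤ Real.exp (ε * N) * (Q + 1) := by
  classical
  intro ε hε
  set L : ℝ := 2 * Real.pi * Δ₂ with hLdef
  have hL : 0 < L := by positivity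
  obtain ⟨δ, T1, hδ0, hδ1, hT1⟩ := coeff_choice L Δ₂ ε hL h2 hε
  obtain ⟨T2, hT2⟩ := hm δ hδ0
  refine ⟨max T1 T2, fun N hN n hn c hcΛ hcs htail a Q hF => ?_⟩
  obtain ⟨hN1, hfin⟩ := hT1 N ((le_max_left _ _).trans hN)
  obtain ⟨φ, hinj, hφ⟩ := hT2 N ((le_max_right _ _).trans hN) n hn
  set s : Finset ℕ := (Finset.range (N + 1)).filter (fun m => m ∈ Λ ∧ m ≠ n) with hs
  have hmem : ∀ m, m ∈ s ↔ m ∈ Λ ∧ m ≤ N ∧ m ≠ n := by
    intro m
    rw [hs, Finset.mem_filter, Finset.mem_range]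
    constructor
    · rintro ⟨h1, h2, h3⟩; exact ⟨h2, by omega, h3⟩
    · rintro ⟨h1, h2, h3⟩; exact ⟨by omega, h1, h3⟩
  have hinj' : Set.InjOn φ (s : Set ℕ) := by
    intro x hx y hy hxy
    exact hinj ((hmem x).mp hx) ((hmem y).mp hy) hxy
  have hφ0 : ∀ m ∈ s, φ m ≠ 0 := fun m hm' =>
    (hφ m ((hmem m).mp hm').1 ((hmem m).mp hm').2.1 ((hmem m).mp hm').2.2).1
  have hφd : ∀ m ∈ s, |((m : ℝ) - n) - (φ m : ℝ) / Δ₂| ≤ δ * N := by
    intro m hm'
    have := (hφ m ((hmem m).mp hm').1 ((hmem m).mp hm').2.1 ((hmem m).mp hm').2.2).2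
    rwa [show (m : ℝ) - ((n : ℝ) + (φ m : ℝ) / Δ₂) = ((m : ℝ) - n) - (φ m : ℝ) / Δ₂ by ring] at this
  set lam : ℕ → ℝ := fun m => (m : ℝ) - n with hlam
  set mu : ℕ → ℝ := fun m => (φ m : ℝ) / Δ₂ with hmu
  have hmuinj : Set.InjOn mu (s : Set ℕ) := by
    intro x hx y hy hxy
    apply hinj' hx hy
    have : (φ x : ℝ) / Δ₂ = (φ y : ℝ) / Δ₂ := hxy
    rw [div_left_inj' h2.ne'] at this
    exact_mod_cast this
  have hmu2 : ∀ m, 2 * Real.pi * (φ m : ℝ) / L = mu m := by
    intro m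
    rw [hmu, hLdef]
    field_simp
  set A : ℕ → ℝ := fun j => (mu j - lam j) * ∏ i ∈ s.erase j, (mu j - lam i) / (mu j - mu i) with hA
  set k : ℝ → ℂ := kern L s φ A with hk
  set Kb : ℝ := 1 + ∑ j ∈ s, |A j| * L with hKb
  have hNr : (1 : ℝ) ≤ N := by exact_mod_cast hN1
  have hNpos : (0 : ℝ) < N := by linarith
  have hkb : ∀ y, ‖k y‖ ≤ Kb := fun y => kern_norm_le L hL s φ A hφ0 y
  -- integer frequencies avoid mu
  have hw : ∀ p : ℤ, ∀ j ∈ s, (p : ℝ) ≠ mu j := fun p j hj => coeff_int_ne Δ₂ hirr p (φ j) (hφ0 j hj)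
  have hint : ∀ p : ℤ, ∫ y in (-(L / 2))..(L / 2), Complex.exp (I * ((p : ℝ) : ℂ) * y) * k y =
      ((L * Real.sinc ((p : ℝ) * L / 2) * ∏ i ∈ s, ((p : ℝ) - lam i) / ((p : ℝ) - mu i) : ℝ) : ℂ) := by
    intro p
    rw [hk, kern_integral L hL s φ A hφ0 (p : ℝ) (fun j hj => by rw [hmu2]; exact hw p j hj)]
    congr 1
    rw [partial_fractions s lam mu hmuinj (p : ℝ) (fun j hj => hw p j hj)]
    congr 2
    apply Finset.sum_congr rfl
    intro j _
    rw [hmu2, hA]
    have e : ∀ (d₁ d₂ : DecidableEq ℕ),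
        (mu j - lam j) * (∏ i ∈ @Finset.erase ℕ d₁ s j, (mu j - lam i) / (mu j - mu i)) /
          ((p : ℝ) - mu j) =
        (mu j - lam j) * (∏ i ∈ @Finset.erase ℕ d₂ s j, (mu j - lam i) / (mu j - mu i)) /
          ((p : ℝ) - mu j) := fun d₁ d₂ => by rw [Subsingleton.elim d₁ d₂]
    exact e _ _
  have hcore := coeff_core L hL k (kern_continuous L s φ A) Kb hkb (a + L / 2) Q n N hn c hcs htail
    (fun y hy => hF y ⟨by linarith [hy.1], by linarith [hy.2]⟩) (by
      intro m hmN hmn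
      by_cases hmΛ : m ∈ Λ
      · right
        have h := hint ((m : ℤ) - (n : ℤ))
        push_cast at h
        push_cast
        rw [h]
        rw [Finset.prod_eq_zero ((hmem m).mpr ⟨hmΛ, hmN, hmn⟩)]
        · simp
        · rw [hlam]; simp
      · left; exact hcΛ m hmΛ)
  -- the integral of k itself
  have hR0 : ∫ y in (-(L / 2))..(L / 2), k y = ((L * ∏ i ∈ s, lam i / mu i : ℝ) : ℂ) := by
    have h := hint 0
    simp only [Int.cast_zero, Complex.ofReal_zero, mul_zero, zero_mul, Complex.exp_zero, one_mul,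
      zero_div, Real.sinc_zero, mul_one, zero_sub, neg_div_neg_eq] at h
    exact h
  rw [hR0] at hcore
  rw [Complex.norm_real, Real.norm_eq_abs, abs_mul, abs_of_pos hL, Finset.abs_prod] at hcore
  have hlam0 : ∀ i ∈ s, lam i ≠ 0 := by
    intro i hi h0
    rw [hlam] at h0
    have : (i : ℝ) = n := by simp only at h0; linarith
    exact ((hmem i).mp hi).2.2 (by exact_mod_cast this)
  have hmu0 : ∀ i ∈ s, mu i ≠ 0 := by
    intro i hi h0
    rw [hmu] at h0
    simp only at h0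
    rw [div_eq_zero_iff] at h0
    rcases h0 with h0 | h0
    · exact hφ0 i hi (by exact_mod_cast h0)
    · exact h2.ne' h0
  -- inverse of R0
  have hinv : ∏ i ∈ s, |mu i / lam i| ≤ Real.exp (4 * Real.sqrt (δ * N * N)) := by
    have h1 : ∏ i ∈ s, |mu i / lam i| ≤ ∏ i ∈ s, (1 + δ * N / |(((i : ℤ) - (n : ℤ) : ℤ) : ℝ)|) := by
      apply Finset.prod_le_prod (fun i _ => abs_nonneg _)
      intro i hi
      have hd := hφd i hi
      have hl := hlam0 i hi
      have e1 : (((i : ℤ) - (n : ℤ) : ℤ) : ℝ) = lam i := by rw [hlam]; push_cast; ring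
      rw [e1, abs_div]
      have hlpos : 0 < |lam i| := abs_pos.mpr hl
      rw [div_le_iff₀ hlpos]
      have : (1 + δ * N / |lam i|) * |lam i| = |lam i| + δ * N := by field_simp
      rw [this]
      have h3 : |mu i| ≤ |lam i| + |lam i - mu i| := by
        have := abs_sub_abs_le_abs_sub (mu i) (lam i)
        rw [abs_sub_comm (mu i) (lam i)] at this
        linarith
      have h4 : |lam i - mu i| ≤ δ * N := hd
      linarith
    refine h1.trans ?_
    apply prod_int_le_exp (δ * N) (by positivity) N s (fun i => (i : ℤ) - (n : ℤ))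
    · intro x _ y _ hxy
      simp only at hxy
      omega
    · intro i hi h0
      exact ((hmem i).mp hi).2.2 (by omega)
    · intro i hi
      have := ((hmem i).mp hi).2.1
      rw [abs_le]
      constructor <;> omega
  -- bound of the A j
  have hφb : ∀ i ∈ s, |(φ i : ℝ)| ≤ 2 * Δ₂ * N := by
    intro i hi
    have hd := hφd i hi
    have hiN : (i : ℝ) ≤ N := by exact_mod_cast ((hmem i).mp hi).2.1
    have hnN : (n : ℝ) ≤ N := by exact_mod_cast hn
    have hi0 : (0 : ℝ) ≤ i := Nat.cast_nonneg _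
    have hn0 : (0 : ℝ) ≤ n := Nat.cast_nonneg _
    have h3 : |(φ i : ℝ) / Δ₂| ≤ 2 * N := by
      rw [abs_le] at hd ⊢
      have : δ * N ≤ N := by nlinarith
      constructor <;> linarith [hd.1, hd.2]
    rw [abs_div, abs_of_pos h2, div_le_iff₀ h2] at h3
    linarith
  have hAb : ∀ j ∈ s, |A j| ≤ δ * N * Real.exp (4 * Real.sqrt (δ * N * Δ₂ * (4 * Δ₂ * N + 1))) := by
    intro j hj
    rw [hA]
    simp only
    rw [abs_mul, Finset.abs_prod]
    apply mul_le_mul
    · have := hφd j hj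
      rw [abs_sub_comm]
      exact this
    · have h1 : ∏ i ∈ s.erase j, |(mu j - lam i) / (mu j - mu i)| ≤
          ∏ i ∈ s.erase j, (1 + δ * N * Δ₂ / |((φ j - φ i : ℤ) : ℝ)|) := by
        apply Finset.prod_le_prod (fun i _ => abs_nonneg _)
        intro i hi
        have his : i ∈ s := Finset.mem_of_mem_erase hi
        have hij : i ≠ j := Finset.ne_of_mem_erase hi
        have hne : mu j - mu i ≠ 0 := by
          intro h0
          exact hij (hmuinj his hj (by linarith))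
        have e2 : ((φ j - φ i : ℤ) : ℝ) = (mu j - mu i) * Δ₂ := by
          rw [hmu]; push_cast; field_simp
        have hpos : 0 < |mu j - mu i| := abs_pos.mpr hne
        rw [e2, abs_mul, abs_of_pos h2, abs_div, div_le_iff₀ hpos]
        have : (1 + δ * N * Δ₂ / (|mu j - mu i| * Δ₂)) * |mu j - mu i| = |mu j - mu i| + δ * N := by
          field_simp
        rw [this]
        have h3 : |mu j - lam i| ≤ |mu j - mu i| + |mu i - lam i| := by
          have := abs_add_le (mu j - mu i) (mu i - lam i)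
          rwa [show mu j - mu i + (mu i - lam i) = mu j - lam i by ring] at this
        have h4 : |mu i - lam i| ≤ δ * N := by
          rw [abs_sub_comm]; exact hφd i his
        linarith
      refine h1.trans ?_
      have h5 := prod_int_le_exp (δ * N * Δ₂) (by positivity) ⌈4 * Δ₂ * N⌉₊ (s.erase j)
        (fun i => φ j - φ i) (by
          intro x hx y hy hxy
          simp only at hxy
          apply hinj' (Finset.mem_of_mem_erase hx) (Finset.mem_of_mem_erase hy)
          omega) (by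
          intro i hi h0
          apply Finset.ne_of_mem_erase hi
          apply hinj' (Finset.mem_of_mem_erase hi) hj
          omega) (by
          intro i hi
          have h6 := hφb i (Finset.mem_of_mem_erase hi)
          have h7 := hφb j hj
          have h8 : |((φ j - φ i : ℤ) : ℝ)| ≤ (⌈4 * Δ₂ * N⌉₊ : ℝ) := by
            refine le_trans ?_ (Nat.le_ceil _)
            push_cast
            have := abs_sub (φ j : ℝ) (φ i : ℝ)
            linarith
          have h9 : ((|φ j - φ i| : ℤ) : ℝ) ≤ (((⌈4 * Δ₂ * N⌉₊ : ℕ) : ℤ) : ℝ) := by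
            push_cast
            push_cast at h8
            exact h8
          exact_mod_cast h9)
      refine h5.trans ?_
      apply Real.exp_le_exp.mpr
      apply mul_le_mul_of_nonneg_left _ (by norm_num)
      apply Real.sqrt_le_sqrt
      apply mul_le_mul_of_nonneg_left _ (by positivity)
      exact (Nat.ceil_lt_add_one (by positivity)).le
    · exact Finset.prod_nonneg fun i _ => abs_nonneg _
    · positivity
  have hcard : (s.card : ℝ) ≤ N + 1 := by
    have : s.card ≤ N + 1 := by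
      refine (Finset.card_filter_le _ _).trans ?_
      simp
    exact_mod_cast this
  have hKb2 : Kb ≤ 1 + (N + 1) *
      (δ * N * Real.exp (4 * Real.sqrt (δ * N * Δ₂ * (4 * Δ₂ * N + 1))) * L) := by
    rw [hKb]
    have h1 : ∑ j ∈ s, |A j| * L ≤ s.card •
        (δ * N * Real.exp (4 * Real.sqrt (δ * N * Δ₂ * (4 * Δ₂ * N + 1))) * L) := by
      apply Finset.sum_le_card_nsmul
      intro j hj
      exact mul_le_mul_of_nonneg_right (hAb j hj) hL.le
    rw [nsmul_eq_mul] at h1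
    have h3 : 0 ≤ δ * N * Real.exp (4 * Real.sqrt (δ * N * Δ₂ * (4 * Δ₂ * N + 1))) * L := by positivity
    nlinarith
  -- assembly
  have hQ : 0 ≤ Q := le_trans (norm_nonneg _) (hF a ⟨le_rfl, by linarith⟩)
  set P : ℝ := ∏ i ∈ s, |lam i / mu i| with hP
  set P' : ℝ := ∏ i ∈ s, |mu i / lam i| with hP'
  have hPP : P * P' = 1 := by
    rw [hP, hP', ← Finset.prod_mul_distrib]
    apply Finset.prod_eq_one
    intro i hi
    have h1 := hlam0 i hi
    have h3 := hmu0 i hi
    rw [← abs_mul]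
    have : lam i / mu i * (mu i / lam i) = 1 := by field_simp
    rw [this, abs_one]
  have hP0 : 0 ≤ P' := Finset.prod_nonneg fun i _ => abs_nonneg _
  have h10 : ‖c n‖ * P ≤ Kb * (Q + 1) := by
    have : L * (‖c n‖ * P) ≤ L * (Kb * (Q + 1)) := by nlinarith
    exact le_of_mul_le_mul_left this hL
  have hKb0 : 0 ≤ Kb := le_trans (norm_nonneg _) (hkb 0)
  calc ‖c n‖ = (‖c n‖ * P) * P' := by rw [mul_assoc, hPP, mul_one]
    _ ≤ (Kb * (Q + 1)) * P' := mul_le_mul_of_nonneg_right h10 hP0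
    _ = (P' * Kb) * (Q + 1) := by ring
    _ ≤ Real.exp (ε * N) * (Q + 1) := by
        apply mul_le_mul_of_nonneg_right _ (by linarith)
        refine le_trans ?_ hfin
        exact mul_le_mul hinv hKb2 hKb0 (Real.exp_pos _).le

end Pool.Agent.LibAV71
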