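import Pool.Agent.LibAV71.Defs

/-! Task D3: properties of the two-point function `WW` and existence of a maximum of `WW / G`. -/

set_option autoImplicit false

open Filter Topology Complex

namespace Pool.Agent.LibAV71

variable {X : ℝ} {u : ℂ → ℝ}

theorem WW_nonneg (h0 : ∀ s, 0 ≤ u s) (s t : ℂ) : 0 ≤ WW X u s t := by
  unfold WW
  split_ifs
  · exact le_rfl
  · exact mul_nonneg (h0 s) (h0 t)

theorem WW_le (h0 : ∀ s, 0 ≤ u s) (s t : ℂ) : WW X u s t ≤ u s * u t := by
  unfold WW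
  split_ifs
  · exact mul_nonneg (h0 s) (h0 t)
  · exact le_rfl

/-- the two-point function vanishes on the diagonal -/
theorem WW_self (h0 : ∀ s, 0 ≤ u s) (s : ℂ) (hs : |s.re| < X) : WW X u s s = 0 := by
  unfold WW
  split_ifs with h
  · rfl
  · by_cases hu : 0 < u s
    · exact absurd (mem_connectedComponentIn (F := posSet X u) ⟨hs, hu⟩) h
    · have h1 : u s = 0 := le_antisymm (not_lt.1 hu) (h0 s)
      rw [h1, mul_zero]

theorem WProps_mem (n : ℤ) (hper : ∀ s, u (s + 2 * Real.pi * I) = u s) (s : ℂ) :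
    u (s + n * (2 * Real.pi * I)) = u s := by
  have h : Function.Periodic u (2 * Real.pi * I) := hper
  exact h.int_mul n s

theorem WW_per (hper : ∀ s, u (s + 2 * Real.pi * I) = u s) (n : ℤ) (s t : ℂ) :
    WW X u (s + n * (2 * Real.pi * I)) (t + n * (2 * Real.pi * I)) = WW X u s t := by
  have hu := WProps_mem (u := u) n hper
  have hre : ((n : ℂ) * (2 * Real.pi * I)).re = 0 := by simp
  let τ : ℂ ≃ₜ ℂ := Homeomorph.addRight ((n : ℂ) * (2 * Real.pi * I))
  have hP : ∀ z : ℂ, z + n * (2 * Real.pi * I) ∈ posSet X u ↔ z ∈ posSet X u := by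
    intro z
    change (|(z + n * (2 * Real.pi * I)).re| < X ∧ 0 < u (z + n * (2 * Real.pi * I))) ↔
      (|z.re| < X ∧ 0 < u z)
    rw [hu, Complex.add_re, hre, add_zero]
  have himg : τ '' posSet X u = posSet X u := by
    ext z
    constructor
    · rintro ⟨w, hw, rfl⟩
      exact (hP w).2 hw
    · intro hz
      refine ⟨z - n * (2 * Real.pi * I), ?_, sub_add_cancel _ _⟩
      rw [← hP, sub_add_cancel]
      exact hz
  have hmem : t + n * (2 * Real.pi * I) ∈ connectedComponentIn (posSet X u)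
      (s + n * (2 * Real.pi * I)) ↔ t ∈ connectedComponentIn (posSet X u) s := by
    by_cases hs : s ∈ posSet X u
    · have h1 := τ.image_connectedComponentIn hs
      rw [himg] at h1
      change t + n * (2 * Real.pi * I) ∈ connectedComponentIn (posSet X u) (τ s) ↔ _
      rw [← h1]
      exact τ.injective.mem_set_image (a := t)
    · rw [connectedComponentIn_eq_empty hs, connectedComponentIn_eq_empty (fun h => hs ((hP s).1 h))]
      simp
  unfold WW
  by_cases h : t ∈ connectedComponentIn (posSet X u) s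
  · rw [if_pos h, if_pos (hmem.2 h)]
  · rw [if_neg h, if_neg (fun h' => h (hmem.1 h')), hu, hu]

theorem WProps_open (hc : Continuous u) : IsOpen (posSet X u) := by
  unfold posSet
  have h1 : IsOpen {s : ℂ | |s.re| < X} :=
    isOpen_lt (continuous_abs.comp Complex.continuous_re) continuous_const
  have h2 : IsOpen {s : ℂ | 0 < u s} := isOpen_lt continuous_const hc
  exact h1.inter h2

/-- where it is positive, the two-point function is locally the product `u s * u t` -/
theorem WW_local (hc : Continuous u) (h0 : ∀ s, 0 ≤ u s) (s t : ℂ) (hs : |s.re| < X)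
    (ht : |t.re| < X) (hW : 0 < WW X u s t) :
    0 < u s ∧ 0 < u t ∧ ∀ᶠ p : ℂ × ℂ in 𝓝 (s, t), WW X u p.1 p.2 = u p.1 * u p.2 := by
  have hle := hW.trans_le (WW_le h0 s t)
  have hus : 0 < u s := by
    rcases (h0 s).lt_or_eq with h | h
    · exact h
    · rw [← h, zero_mul] at hle
      exact absurd hle (lt_irrefl _)
  have hut : 0 < u t := by
    rcases (h0 t).lt_or_eq with h | h
    · exact h
    · rw [← h, mul_zero] at hle
      exact absurd hle (lt_irrefl _)
  have hnot : t ∉ connectedComponentIn (posSet X u) s := by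
    intro h
    unfold WW at hW
    rw [if_pos h] at hW
    exact lt_irrefl _ hW
  refine ⟨hus, hut, ?_⟩
  have hop := WProps_open (X := X) hc
  have h1 : connectedComponentIn (posSet X u) s ∈ 𝓝 s :=
    (hop.connectedComponentIn).mem_nhds (mem_connectedComponentIn ⟨hs, hus⟩)
  have h2 : connectedComponentIn (posSet X u) t ∈ 𝓝 t :=
    (hop.connectedComponentIn).mem_nhds (mem_connectedComponentIn ⟨ht, hut⟩)
  filter_upwards [prod_mem_nhds h1 h2] with p hp
  have hp1 : p.1 ∈ connectedComponentIn (posSet X u) s := hp.1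
  have hp2 : p.2 ∈ connectedComponentIn (posSet X u) t := hp.2
  have hn : p.2 ∉ connectedComponentIn (posSet X u) p.1 := by
    intro h
    apply hnot
    have e1 := connectedComponentIn_eq hp1
    have e2 := connectedComponentIn_eq hp2
    have e3 := connectedComponentIn_eq h
    rw [e1, e3, ← e2]
    exact mem_connectedComponentIn ⟨ht, hut⟩
  unfold WW
  rw [if_neg hn]

theorem WW_continuousOn (hc : Continuous u) (h0 : ∀ s, 0 ≤ u s) :
    ContinuousOn (fun p : ℂ × ℂ => WW X u p.1 p.2) (strip X ×ˢ strip X) := by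
  rintro ⟨s, t⟩ ⟨hs, ht⟩
  apply ContinuousAt.continuousWithinAt
  have hcont : Continuous fun p : ℂ × ℂ => u p.1 * u p.2 :=
    (hc.comp continuous_fst).mul (hc.comp continuous_snd)
  by_cases hW : 0 < WW X u s t
  · obtain ⟨_, _, h⟩ := WW_local hc h0 s t hs ht hW
    exact (continuousAt_congr h).2 hcont.continuousAt
  · have hW0 : WW X u s t = 0 := le_antisymm (not_lt.1 hW) (WW_nonneg h0 s t)
    by_cases hmem : t ∈ connectedComponentIn (posSet X u) s
    · have hop := WProps_open (X := X) hc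
      have hsP : s ∈ posSet X u := by
        by_contra h
        rw [connectedComponentIn_eq_empty h] at hmem
        exact hmem
      have hopen := hop.connectedComponentIn (x := s)
      have h1 : connectedComponentIn (posSet X u) s ∈ 𝓝 s :=
        hopen.mem_nhds (mem_connectedComponentIn hsP)
      have h2 : connectedComponentIn (posSet X u) s ∈ 𝓝 t := hopen.mem_nhds hmem
      have h3 : (fun p : ℂ × ℂ => WW X u p.1 p.2) =ᶠ[𝓝 (s, t)] fun _ => 0 := by
        filter_upwards [prod_mem_nhds h1 h2] with p hp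
        have hp1 : p.1 ∈ connectedComponentIn (posSet X u) s := hp.1
        have hp2 : p.2 ∈ connectedComponentIn (posSet X u) s := hp.2
        have e1 := connectedComponentIn_eq hp1
        rw [e1] at hp2
        unfold WW
        rw [if_pos hp2]
      exact (continuousAt_congr h3).2 continuousAt_const
    · have h4 : u s * u t = 0 := by
        unfold WW at hW0
        rwa [if_neg hmem] at hW0
      have h5 : Tendsto (fun p : ℂ × ℂ => u p.1 * u p.2) (𝓝 (s, t)) (𝓝 0) := by
        have := hcont.tendsto (s, t)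
        simpa [h4] using this
      unfold ContinuousAt
      change Tendsto _ _ (𝓝 (WW X u s t))
      rw [hW0]
      exact squeeze_zero (fun p => WW_nonneg h0 _ _) (fun p => WW_le h0 _ _) h5

/-- existence of a point where `WW / G` is maximal over the pairs `(s,t)` with `|Re (s+t)/2| ≤ P`,
`s - t ∈ D` -/
theorem exists_max (hc : Continuous u) (h0 : ∀ s, 0 ≤ u s)
    (hper : ∀ s, u (s + 2 * Real.pi * I) = u s) (P : ℝ) (D : Set ℂ) (hD : IsCompact D)
    (hPX : ∀ w ∈ D, P + |w.re| / 2 < X) (G : ℂ → ℂ → ℝ)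
    (hG : Continuous (fun p : ℂ × ℂ => G p.1 p.2))
    (hGpos : ∀ s t : ℂ, |(s.re + t.re) / 2| ≤ P → s - t ∈ D → 0 < G s t)
    (hGper : ∀ (n : ℤ) (s t : ℂ),
      G (s + n * (2 * Real.pi * I)) (t + n * (2 * Real.pi * I)) = G s t)
    (s₀ t₀ : ℂ) (h1 : |(s₀.re + t₀.re) / 2| ≤ P) (h2 : s₀ - t₀ ∈ D)
    (h3 : G s₀ t₀ < WW X u s₀ t₀) :
    ∃ s t : ℂ, |(s.re + t.re) / 2| ≤ P ∧ s - t ∈ D ∧ G s t < WW X u s t ∧
      ∀ s' t' : ℂ, |(s'.re + t'.re) / 2| ≤ P → s' - t' ∈ D →
        WW X u s' t' * G s t ≤ WW X u s t * G s' t' := by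
  let K : Set (ℂ × ℂ) := (Set.Icc (-P) P ×ℂ Set.Icc 0 (2 * Real.pi)) ×ˢ D
  have hK : IsCompact K := (isCompact_Icc.reProdIm isCompact_Icc).prod hD
  let ψ : ℂ × ℂ → ℂ × ℂ := fun q => (q.1 + q.2 / 2, q.1 - q.2 / 2)
  have hψ : Continuous ψ := by fun_prop
  -- the constraints for points of `K`
  have hK1 : ∀ q ∈ K, |((ψ q).1.re + (ψ q).2.re) / 2| ≤ P := by
    rintro ⟨m, w⟩ ⟨⟨hm, _⟩, hw⟩
    have e1 : ((ψ (m, w)).1.re + (ψ (m, w)).2.re) / 2 = m.re := by
      simp only [ψ, Complex.add_re, Complex.sub_re]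
      ring
    rw [e1]
    exact abs_le.2 hm
  have hK2 : ∀ q ∈ K, (ψ q).1 - (ψ q).2 ∈ D := by
    rintro ⟨m, w⟩ ⟨_, hw⟩
    have e1 : (ψ (m, w)).1 - (ψ (m, w)).2 = w := by
      simp only [ψ]
      ring
    rw [e1]
    exact hw
  have hstrip : ∀ s t : ℂ, |(s.re + t.re) / 2| ≤ P → s - t ∈ D → s ∈ strip X ∧ t ∈ strip X := by
    intro s t hst hd
    have e1 := hPX _ hd
    rw [Complex.sub_re] at e1
    have e2 := abs_le.1 hst
    have e3 := abs_le.1 (le_refl |s.re - t.re|)
    constructor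
    · change |s.re| < X
      rw [abs_lt]
      constructor <;> linarith [e2.1, e2.2, e3.1, e3.2]
    · change |t.re| < X
      rw [abs_lt]
      constructor <;> linarith [e2.1, e2.2, e3.1, e3.2]
  -- normalisation by periods
  have hnorm : ∀ s t : ℂ, |(s.re + t.re) / 2| ≤ P → s - t ∈ D →
      ∃ n : ℤ, ∃ q ∈ K, ψ q = (s + n * (2 * Real.pi * I), t + n * (2 * Real.pi * I)) := by
    intro s t hst hd
    let n : ℤ := -⌊((s.im + t.im) / 2) / (2 * Real.pi)⌋
    refine ⟨n, ((s + t) / 2 + n * (2 * Real.pi * I), s - t), ⟨⟨?_, ?_⟩, hd⟩, ?_⟩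
    · have e1 : ((s + t) / 2 + n * (2 * Real.pi * I)).re = (s.re + t.re) / 2 := by simp
      change ((s + t) / 2 + n * (2 * Real.pi * I)).re ∈ Set.Icc (-P) P
      rw [e1]
      exact abs_le.1 hst
    · have e1 : ((s + t) / 2 + n * (2 * Real.pi * I)).im =
          (s.im + t.im) / 2 + n * (2 * Real.pi) := by simp
      change ((s + t) / 2 + n * (2 * Real.pi * I)).im ∈ Set.Icc 0 (2 * Real.pi)
      rw [e1]
      have e2 := Int.floor_le (((s.im + t.im) / 2) / (2 * Real.pi))
      have e3 := Int.lt_floor_add_one (((s.im + t.im) / 2) / (2 * Real.pi))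
      have hpi := Real.pi_pos
      rw [le_div_iff₀ (by positivity)] at e2
      rw [div_lt_iff₀ (by positivity)] at e3
      have e4 : (n : ℝ) = -(⌊((s.im + t.im) / 2) / (2 * Real.pi)⌋ : ℝ) := by simp [n]
      rw [e4]
      constructor <;> linarith
    · simp only [ψ]
      refine Prod.ext ?_ ?_
      · ring
      · ring
  have hcW : ContinuousOn (fun q : ℂ × ℂ => WW X u (ψ q).1 (ψ q).2) K :=
    (WW_continuousOn (X := X) hc h0).comp hψ.continuousOn fun q hq =>
      hstrip _ _ (hK1 q hq) (hK2 q hq)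
  have hcG : ContinuousOn (fun q : ℂ × ℂ => G (ψ q).1 (ψ q).2) K :=
    (hG.comp hψ).continuousOn
  have hpos : ∀ q ∈ K, 0 < G (ψ q).1 (ψ q).2 := fun q hq => hGpos _ _ (hK1 q hq) (hK2 q hq)
  obtain ⟨n₀, q₀, hq₀, e₀⟩ := hnorm s₀ t₀ h1 h2
  obtain ⟨q, hq, hmax⟩ := hK.exists_isMaxOn ⟨q₀, hq₀⟩
    (hcW.div hcG fun q hq => (hpos q hq).ne')
  have hmain : ∀ s' t' : ℂ, |(s'.re + t'.re) / 2| ≤ P → s' - t' ∈ D →
      WW X u s' t' / G s' t' ≤ WW X u (ψ q).1 (ψ q).2 / G (ψ q).1 (ψ q).2 := by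
    intro s' t' a b
    obtain ⟨n, q', hq', e'⟩ := hnorm s' t' a b
    have e1 := hmax hq'
    have e2 : WW X u (ψ q').1 (ψ q').2 / G (ψ q').1 (ψ q').2 ≤
      WW X u (ψ q).1 (ψ q).2 / G (ψ q).1 (ψ q).2 := e1
    rw [e'] at e2
    change WW X u (s' + n * (2 * Real.pi * I)) (t' + n * (2 * Real.pi * I)) /
      G (s' + n * (2 * Real.pi * I)) (t' + n * (2 * Real.pi * I)) ≤ _ at e2
    rwa [WW_per hper, hGper] at e2
  refine ⟨(ψ q).1, (ψ q).2, hK1 q hq, hK2 q hq, ?_, ?_⟩
  · have e1 := hmain s₀ t₀ h1 h2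
    have e2 : 1 < WW X u s₀ t₀ / G s₀ t₀ := (one_lt_div (hGpos _ _ h1 h2)).2 h3
    exact (one_lt_div (hpos q hq)).1 (e2.trans_le e1)
  · intro s' t' a b
    have e1 := hmain s' t' a b
    rwa [div_le_div_iff₀ (hGpos _ _ a b) (hpos q hq)] at e1

end Pool.Agent.LibAV71
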