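import Pool.Agent.LibAV71.ZBar
import Pool.Agent.LibAV71.WProps

/-! Task D5: the two-phase lemma for order zero. -/

set_option autoImplicit false

open Filter Topology Complex

namespace Pool.Agent.LibAV71

private theorem CoreZero_exp_lt : Real.exp (1 / 6 : ℝ) < 121 / 100 := by
  have h1 : Real.exp (1 / 6 : ℝ) ^ 6 = Real.exp 1 := by
    rw [← Real.exp_nat_mul]; norm_num
  have h2 := Real.exp_one_lt_d9
  by_contra hcon
  push Not at hcon
  have h3 : (121 / 100 : ℝ) ^ 6 ≤ Real.exp (1 / 6 : ℝ) ^ 6 := by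
    apply pow_le_pow_left₀ (by norm_num) hcon
  rw [h1] at h3
  norm_num at h3
  norm_num at h2
  linarith

private theorem CoreZero_D0_pos (β : ℝ) (hβ : 0 < β) : 0 < D0 β := by
  unfold D0; linarith

private theorem CoreZero_kap_pos (β : ℝ) (hβ : 0 < β) : 0 < kap β := by
  unfold kap
  have := CoreZero_D0_pos β hβ
  positivity

private theorem CoreZero_P0_pos (β : ℝ) (hβ : 0 < β) : 0 < P0 β := by
  unfold P0
  have := CoreZero_kap_pos β hβ
  have h2 : 0 < Real.log 48 := Real.log_pos (by norm_num)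
  positivity

theorem core_zero (β : ℝ) (hβ : 0 < β) :
    ∃ X σ ε : ℝ, 0 < X ∧ 0 < σ ∧ 0 < ε ∧ ∀ u : ℂ → ℝ, Adm X 0 σ u →
      ∀ y₁ y₂ : ℝ, |y₁ - y₂| ≤ 2 * β → 1 - ε ≤ u (y₁ * I) → 1 - ε ≤ u (y₂ * I) →
        (y₂ : ℂ) * I ∈ connectedComponentIn (posSet X u) ((y₁ : ℂ) * I) := by
  have hD := CoreZero_D0_pos β hβ
  have hP := CoreZero_P0_pos β hβ
  have hX : 0 < P0 β + D0 β := by linarith
  refine ⟨P0 β + D0 β, 1 / (12 * (P0 β + D0 β)), 1 / 2, hX, by positivity, by norm_num, ?_⟩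
  intro u hu y₁ y₂ hy hu1 hu2
  set X : ℝ := P0 β + D0 β with hXdef
  set σ : ℝ := 1 / (12 * X) with hσ
  have hσ0 : 0 < σ := by positivity
  have hσX : σ * X = 1 / 12 := by
    rw [hσ]; field_simp
  by_contra hnot
  have hWW0 : WW X u (y₁ * I) (y₂ * I) = u (y₁ * I) * u (y₂ * I) := by
    unfold WW
    rw [if_neg hnot]
  have hWWge : (1 / 2 : ℝ) ^ 2 ≤ WW X u (y₁ * I) (y₂ * I) := by
    rw [hWW0]
    norm_num at hu1 hu2
    nlinarith
  have hsub : ((y₁ : ℂ) * I - (y₂ : ℂ) * I) = ((y₁ - y₂ : ℝ) : ℂ) * I := by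
    push_cast; ring
  obtain ⟨s, t, h1, h2, h3, h4⟩ := exists_max (X := X) (u := u) hu.cont hu.nonneg hu.per (P0 β)
    (Metric.closedBall (0 : ℂ) (D0 β)) (isCompact_closedBall 0 (D0 β))
    (by
      intro w hw
      rw [mem_closedBall_zero_iff] at hw
      have := Complex.abs_re_le_norm w
      rw [hXdef]
      linarith)
    (fun s t => (g0 β s t / 2) ^ 2)
    (by
      have := g0_continuous β
      fun_prop)
    (by
      intro s t _ hst
      rw [mem_closedBall_zero_iff] at hst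
      have := g0_pos β hβ s t hst
      positivity)
    (by
      intro n s t
      have hc : (n : ℂ) * (2 * Real.pi * I) = ((n * (2 * Real.pi) : ℝ) : ℂ) * I := by
        push_cast; ring
      show (g0 β (s + n * (2 * Real.pi * I)) (t + n * (2 * Real.pi * I)) / 2) ^ 2 = _
      rw [hc, g0_per])
    (y₁ * I) (y₂ * I)
    (by simp [hP.le])
    (by
      rw [mem_closedBall_zero_iff, hsub, norm_mul, Complex.norm_I, mul_one, Complex.norm_real,
        Real.norm_eq_abs]
      unfold D0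
      linarith)
    ((g0_target β hβ y₁ y₂ hy).trans_le hWWge)
  rw [mem_closedBall_zero_iff] at h2
  have hre := Complex.abs_re_le_norm (s - t)
  rw [Complex.sub_re] at hre
  have hsre : |s.re| < X := by
    rw [abs_lt]
    rw [abs_le] at h1 hre
    constructor <;> · rw [hXdef]; linarith [h1.1, h1.2, hre.1, hre.2]
  have htre : |t.re| < X := by
    rw [abs_lt]
    rw [abs_le] at h1 hre
    constructor <;> · rw [hXdef]; linarith [h1.1, h1.2, hre.1, hre.2]
  have hG := g0_pos β hβ s t h2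
  have hWpos : 0 < WW X u s t := lt_trans (by positivity) h3
  have hWle := WW_le (X := X) hu.nonneg s t
  have hbs := hu.bound s hsre.le
  have hbt := hu.bound t htre.le
  have hWlt : WW X u s t < 121 / 100 := by
    have e1 : u s ≤ Real.exp (1 / 12 : ℝ) := by
      refine hbs.trans (Real.exp_le_exp.mpr ?_)
      have : σ * |s.re| ≤ σ * X := mul_le_mul_of_nonneg_left hsre.le hσ0.le
      linarith
    have e2 : u t ≤ Real.exp (1 / 12 : ℝ) := by
      refine hbt.trans (Real.exp_le_exp.mpr ?_)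
      have : σ * |t.re| ≤ σ * X := mul_le_mul_of_nonneg_left htre.le hσ0.le
      linarith
    have e3 : u s * u t ≤ Real.exp (1 / 12 : ℝ) * Real.exp (1 / 12 : ℝ) :=
      mul_le_mul e1 e2 (hu.nonneg t) (Real.exp_pos _).le
    rw [← Real.exp_add] at e3
    have e4 : (1 / 12 : ℝ) + 1 / 12 = 1 / 6 := by norm_num
    rw [e4] at e3
    linarith [CoreZero_exp_lt]
  have hnb : ¬ (|(s.re + t.re) / 2| = P0 β ∨ ‖s - t‖ = D0 β) := by
    intro hb
    have := g0_boundary β hβ s t h2 hb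
    have h3' : (g0 β s t / 2) ^ 2 < WW X u s t := h3
    linarith
  push Not at hnb
  have h1' : |(s.re + t.re) / 2| < P0 β := lt_of_le_of_ne h1 hnb.1
  have h2' : ‖s - t‖ < D0 β := lt_of_le_of_ne h2 hnb.2
  have hst : s ≠ t := by
    rintro rfl
    rw [WW_self hu.nonneg s hsre] at hWpos
    exact lt_irrefl _ hWpos
  obtain ⟨hus, hut, hloc⟩ := WW_local hu.cont hu.nonneg s t hsre htre hWpos
  have hself : WW X u s t = u s * u t := hloc.self_of_nhds
  refine g0_no_max β hβ u s t hst h1 h2 hus hut (hu.harm s hus) (hu.harm t hut) ?_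
  have c1 : ∀ᶠ p : ℂ × ℂ in 𝓝 (s, t), |(p.1.re + p.2.re) / 2| < P0 β := by
    have hcont : Continuous (fun p : ℂ × ℂ => |(p.1.re + p.2.re) / 2|) := by fun_prop
    exact hcont.continuousAt.eventually (gt_mem_nhds h1')
  have c2 : ∀ᶠ p : ℂ × ℂ in 𝓝 (s, t), ‖p.1 - p.2‖ < D0 β := by
    have hcont : Continuous (fun p : ℂ × ℂ => ‖p.1 - p.2‖) := by fun_prop
    exact hcont.continuousAt.eventually (gt_mem_nhds h2')
  filter_upwards [hloc, c1, c2] with p hp1 hp2 hp3
  have h5 := h4 p.1 p.2 hp2.le (by rw [mem_closedBall_zero_iff]; exact hp3.le)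
  rw [hp1, hself] at h5
  have h6 : u p.1 * u p.2 * (g0 β s t / 2) ^ 2 ≤ u s * u t * (g0 β p.1 p.2 / 2) ^ 2 := h5
  nlinarith [h6]

end Pool.Agent.LibAV71
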