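import Pool.Agent.LibAV71.CorePos
import Pool.Agent.LibAV71.CoreZero

/-! The two-phase lemma for all orders. -/

set_option autoImplicit false

open Filter Topology Complex

namespace Pool.Agent.LibAV71

theorem core (ρ β : ℝ) (hρ : 0 ≤ ρ) (hβ : 0 < β) (h : ρ * β < Real.pi / 2) :
    ∃ X σ ε : ℝ, 0 < X ∧ 0 < σ ∧ 0 < ε ∧ ∀ u : ℂ → ℝ, Adm X ρ σ u →
      ∀ y₁ y₂ : ℝ, |y₁ - y₂| ≤ 2 * β → 1 - ε ≤ u (y₁ * I) → 1 - ε ≤ u (y₂ * I) →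
        (y₂ : ℂ) * I ∈ connectedComponentIn (posSet X u) ((y₁ : ℂ) * I) := by
  rcases hρ.eq_or_lt with rfl | hρ
  · exact core_zero β hβ
  · exact core_pos ρ β hρ hβ h

end Pool.Agent.LibAV71
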