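import Pool.Agent.LibAV71.BarInt
import Pool.Agent.LibAV71.WProps

/-! Task D4c: the two-phase lemma for positive order. -/

set_option autoImplicit false

open Filter Topology Complex

namespace Pool.Agent.LibAV71

private theorem CorePos_eps_lt (ρ β : ℝ) (hρ : 0 < ρ) (hβ : 0 < β) (c : Par ρ β) : 0 < 1 - c.ε := by
  obtain ⟨hμ, he1, -, he2, -, hk1, hk2⟩ := par_pos hρ c
  have h0 : 0 < c.μ * β := mul_pos hμ hβ
  have h5 := c.h5
  have hsin : 0 ≤ 2 * Real.sin (c.μ * β) := by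
    have := Real.sin_nonneg_of_nonneg_of_le_pi h0.le (by linarith [Real.pi_pos])
    linarith
  have hPhi : 0 ≤ Phi c.μ c.lm c.lp c.dm c.dp (2 * Real.sin (c.μ * β)) := by
    unfold Phi
    have h1 := mul_nonneg hk1.le (Real.rpow_nonneg hsin (ee c.μ c.lm))
    have h2 := mul_nonneg hk2.le (Real.rpow_nonneg hsin (ee c.μ c.lp))
    linarith
  have hA := c.hA
  have hdm := c.hdm
  have hdp := c.hdp
  have h1 : 0 ≤ c.A / 2 * (Phi c.μ c.lm c.lp c.dm c.dp (2 * Real.sin (c.μ * β)) + c.dm + c.dp) :=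
    mul_nonneg (by linarith) (by linarith)
  linarith [c.target]

theorem core_pos (ρ β : ℝ) (hρ : 0 < ρ) (hβ : 0 < β) (h : ρ * β < Real.pi / 2) :
    ∃ X σ ε : ℝ, 0 < X ∧ 0 < σ ∧ 0 < ε ∧ ∀ u : ℂ → ℝ, Adm X ρ σ u →
      ∀ y₁ y₂ : ℝ, |y₁ - y₂| ≤ 2 * β → 1 - ε ≤ u (y₁ * I) → 1 - ε ≤ u (y₂ * I) →
        (y₂ : ℂ) * I ∈ connectedComponentIn (posSet X u) ((y₁ : ℂ) * I) := by
  classical
  obtain ⟨c⟩ := exists_par ρ β hρ hβ h
  obtain ⟨hμ, -, -, -, -, -, -⟩ := par_pos hρ c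
  have hP := c.hP
  have hA := c.hA
  have hμi : 0 < 1 / c.μ := by positivity
  have hε := CorePos_eps_lt ρ β hρ hβ c
  refine ⟨c.P + 1 / c.μ + 1, c.σ, c.ε, by positivity, c.hσ, c.hε, ?_⟩
  intro u hu y₁ y₂ hy hy1 hy2
  by_contra hcon
  set X : ℝ := c.P + 1 / c.μ + 1 with hX
  let D : Set ℂ := {w : ℂ | |w.re| ≤ 2 / c.μ ∧ |w.im| ≤ Real.pi / c.μ}
  have hDc : IsCompact D := by
    apply Metric.isCompact_of_isClosed_isBounded
    · exact (isClosed_le (Complex.continuous_re.abs) continuous_const).inter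
        (isClosed_le (Complex.continuous_im.abs) continuous_const)
    · refine (Metric.isBounded_iff_subset_closedBall 0).2 ⟨2 / c.μ + Real.pi / c.μ, ?_⟩
      intro w hw
      rw [mem_closedBall_zero_iff]
      exact (Complex.norm_le_abs_re_add_abs_im w).trans (add_le_add hw.1 hw.2)
  let G : ℂ → ℂ → ℝ := fun s t => (c.A / 2 * gg c s t) ^ 2
  have hG : Continuous (fun p : ℂ × ℂ => G p.1 p.2) :=
    (continuous_const.mul (gg_continuous hρ c)).pow 2
  have hGpos : ∀ s t : ℂ, |(s.re + t.re) / 2| ≤ c.P → s - t ∈ D → 0 < G s t := by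
    intro s t _ hst
    have h1 := gg_pos hρ c s t (by simpa using hst.2)
    have h2 : 0 < c.A / 2 := by linarith
    exact pow_pos (mul_pos h2 h1) 2
  have hGper : ∀ (n : ℤ) (s t : ℂ),
      G (s + n * (2 * Real.pi * I)) (t + n * (2 * Real.pi * I)) = G s t := by
    intro n s t
    have h1 := gg_per c ((n : ℝ) * (2 * Real.pi)) s t
    have h2 : (((n : ℝ) * (2 * Real.pi) : ℝ) : ℂ) * I = n * (2 * Real.pi * I) := by
      push_cast
      ring
    rw [h2] at h1
    simp only [G, h1]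
  have hWW : WW X u ((y₁ : ℂ) * I) ((y₂ : ℂ) * I) = u (y₁ * I) * u (y₂ * I) := by
    unfold WW
    rw [if_neg hcon]
  have h3 : G ((y₁ : ℂ) * I) ((y₂ : ℂ) * I) < WW X u ((y₁ : ℂ) * I) ((y₂ : ℂ) * I) := by
    rw [hWW]
    have h4 := gg_target hρ hβ c y₁ y₂ hy
    have h5 : (1 - c.ε) ^ 2 ≤ u (y₁ * I) * u (y₂ * I) := by
      rw [sq]
      exact mul_le_mul hy1 hy2 hε.le (hε.le.trans hy1)
    exact lt_of_lt_of_le h4 h5
  have hβμ : 2 * β ≤ Real.pi / c.μ := by
    rw [le_div_iff₀ hμ]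
    linarith [c.h5]
  obtain ⟨s, t, hst1, hst2, hst3, hmax⟩ := exists_max (X := X) hu.cont hu.nonneg hu.per c.P D hDc
    (by
      intro w hw
      have h6 : |w.re| / 2 ≤ 1 / c.μ := by
        have : 2 / c.μ = 2 * (1 / c.μ) := by ring
        linarith [hw.1]
      linarith) G hG hGpos hGper ((y₁ : ℂ) * I) ((y₂ : ℂ) * I) (by simp [hP.le])
    (by
      constructor
      · simp only [Complex.sub_re, Complex.mul_re, Complex.ofReal_re, Complex.I_re,
          Complex.ofReal_im, Complex.I_im]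
        rw [show y₁ * 0 - 0 * 1 - (y₂ * 0 - 0 * 1) = (0 : ℝ) by ring, abs_zero]
        positivity
      · simp only [Complex.sub_im, Complex.mul_im, Complex.ofReal_re, Complex.I_re,
          Complex.ofReal_im, Complex.I_im]
        rw [show y₁ * 1 + 0 * 0 - (y₂ * 1 + 0 * 0) = y₁ - y₂ by ring]
        exact hy.trans hβμ) h3
  have hre : |s.re - t.re| ≤ 2 / c.μ := by simpa using hst2.1
  have him : |s.im - t.im| ≤ Real.pi / c.μ := by simpa using hst2.2
  have h2μ : 2 / c.μ = 2 * (1 / c.μ) := by ring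
  have hst1' := abs_le.1 hst1
  have hre' := abs_le.1 hre
  have hsX : |s.re| < X := by
    rw [abs_lt]
    constructor <;> linarith
  have htX : |t.re| < X := by
    rw [abs_lt]
    constructor <;> linarith
  have hGst := hGpos s t hst1 hst2
  have hWpos : 0 < WW X u s t := hGst.trans hst3
  obtain ⟨hus, hut, hloc⟩ := WW_local hu.cont hu.nonneg s t hsX htX hWpos
  have hnb : ¬ (|(s.re + t.re) / 2| = c.P ∨ |s.re - t.re| = 2 / c.μ ∨
      |s.im - t.im| = Real.pi / c.μ) := by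
    intro hb
    have h6 := gg_boundary hρ c s t hst1 hre him hb
    have h7 : WW X u s t ≤ Real.exp (ρ * s.re + c.σ * |s.re|) *
        Real.exp (ρ * t.re + c.σ * |t.re|) :=
      (WW_le hu.nonneg s t).trans (mul_le_mul (hu.bound s hsX.le) (hu.bound t htX.le)
        (hu.nonneg t) (Real.exp_pos _).le)
    have h8 : WW X u s t ≤ G s t := h7.trans h6
    exact absurd hst3 (not_lt.2 h8)
  rw [not_or, not_or] at hnb
  obtain ⟨hn1, hn2, hn3⟩ := hnb
  have hlt1 : |(s.re + t.re) / 2| < c.P := lt_of_le_of_ne hst1 hn1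
  have hlt2 : |s.re - t.re| < 2 / c.μ := lt_of_le_of_ne hre hn2
  have hlt3 : |s.im - t.im| < Real.pi / c.μ := lt_of_le_of_ne him hn3
  have hne : s ≠ t := by
    rintro rfl
    rw [WW_self hu.nonneg s hsX] at hWpos
    exact lt_irrefl _ hWpos
  refine no_interior_max hρ c u s t hne hre hlt3 hus hut (hu.harm s hus) (hu.harm t hut) ?_
  have hWst : WW X u s t = u s * u t := hloc.self_of_nhds
  have hc1 : Continuous fun p : ℂ × ℂ => |(p.1.re + p.2.re) / 2| :=
    (((Complex.continuous_re.comp continuous_fst).add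
      (Complex.continuous_re.comp continuous_snd)).div_const 2).abs
  have hc2 : Continuous fun p : ℂ × ℂ => |p.1.re - p.2.re| :=
    ((Complex.continuous_re.comp continuous_fst).sub
      (Complex.continuous_re.comp continuous_snd)).abs
  have hc3 : Continuous fun p : ℂ × ℂ => |p.1.im - p.2.im| :=
    ((Complex.continuous_im.comp continuous_fst).sub
      (Complex.continuous_im.comp continuous_snd)).abs
  have e1 : ∀ᶠ p : ℂ × ℂ in 𝓝 (s, t), |(p.1.re + p.2.re) / 2| < c.P :=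
    (isOpen_lt hc1 continuous_const).mem_nhds hlt1
  have e2 : ∀ᶠ p : ℂ × ℂ in 𝓝 (s, t), |p.1.re - p.2.re| < 2 / c.μ :=
    (isOpen_lt hc2 continuous_const).mem_nhds hlt2
  have e3 : ∀ᶠ p : ℂ × ℂ in 𝓝 (s, t), |p.1.im - p.2.im| < Real.pi / c.μ :=
    (isOpen_lt hc3 continuous_const).mem_nhds hlt3
  filter_upwards [hloc, e1, e2, e3] with p hp hp1 hp2 hp3
  have h9 := hmax p.1 p.2 hp1.le ⟨by simpa using hp2.le, by simpa using hp3.le⟩
  rw [hp, hWst] at h9
  simp only [G] at h9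
  have hA2 : 0 < (c.A / 2) ^ 2 := by
    apply pow_pos
    linarith
  have h10 : (c.A / 2) ^ 2 * (u p.1 * u p.2 * gg c s t ^ 2) ≤
      (c.A / 2) ^ 2 * (u s * u t * gg c p.1 p.2 ^ 2) := by
    calc (c.A / 2) ^ 2 * (u p.1 * u p.2 * gg c s t ^ 2)
        = u p.1 * u p.2 * (c.A / 2 * gg c s t) ^ 2 := by ring
      _ ≤ u s * u t * (c.A / 2 * gg c p.1 p.2) ^ 2 := h9
      _ = (c.A / 2) ^ 2 * (u s * u t * gg c p.1 p.2 ^ 2) := by ring
  exact le_of_mul_le_mul_left h10 hA2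

end Pool.Agent.LibAV71
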