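import Pool.Agent.LibAV71.Defs

/-! Task A1: counting lemma from the maximal density. -/

set_option autoImplicit false

open Filter Topology

namespace Pool.Agent.LibAV71

theorem Count_finite (Λ : Set ℕ) (t : ℝ) : Finite {n : ℕ // n ∈ Λ ∧ (n : ℝ) ≤ t} := by
  have h : ({n : ℕ | n ∈ Λ ∧ (n : ℝ) ≤ t}).Finite :=
    (Set.finite_Iic ⌊t⌋₊).subset fun n hn => Nat.le_floor hn.2
  exact h.to_subtype

theorem Nc_nonneg (Λ : Set ℕ) (t : ℝ) : 0 ≤ Nc Λ t := Nat.cast_nonneg _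

theorem Nc_mono (Λ : Set ℕ) : Monotone (Nc Λ) := by
  intro a b hab
  have hf := Count_finite Λ b
  unfold Nc
  have h1 : Nat.card {n : ℕ // n ∈ Λ ∧ (n : ℝ) ≤ a} ≤ Nat.card {n : ℕ // n ∈ Λ ∧ (n : ℝ) ≤ b} :=
    Nat.card_le_card_of_injective (fun n => (⟨n.1, n.2.1, n.2.2.trans hab⟩ :
      {n : ℕ // n ∈ Λ ∧ (n : ℝ) ≤ b})) (by
        intro x y hxy
        have h2 := congrArg Subtype.val hxy
        exact Subtype.ext h2)
  exact_mod_cast h1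

theorem Count_le (Λ : Set ℕ) (t : ℝ) (ht : 0 ≤ t) : Nc Λ t ≤ t + 1 := by
  unfold Nc
  have h1 : Nat.card {n : ℕ // n ∈ Λ ∧ (n : ℝ) ≤ t} ≤ Nat.card (Fin (⌊t⌋₊ + 1)) :=
    Nat.card_le_card_of_injective (fun n => (⟨n.1, Nat.lt_succ_of_le (Nat.le_floor n.2.2)⟩ :
      Fin (⌊t⌋₊ + 1))) (by
        intro x y hxy
        have h2 := congrArg Fin.val hxy
        exact Subtype.ext h2)
  rw [Nat.card_fin] at h1
  have h2 : ((Nat.card {n : ℕ // n ∈ Λ ∧ (n : ℝ) ≤ t} : ℕ) : ℝ) ≤ ((⌊t⌋₊ + 1 : ℕ) : ℝ) := by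
    exact_mod_cast h1
  have h3 := Nat.floor_le ht
  push_cast at h2
  linarith

theorem Count_iter (Λ : Set ℕ) (D ξ T N : ℝ) (hD : 0 < D) (hξ0 : 0 < ξ) (hξ1 : ξ < 1)
    (hT : 1 ≤ T) (hN : 0 ≤ N)
    (h : ∀ t, T ≤ t → Nc Λ t - Nc Λ (ξ * t) ≤ D * ((1 - ξ) * t)) (k : ℕ) :
    ∀ t, ξ ^ k * t ≤ T → t ≤ N → ∀ s, 0 ≤ s → s ≤ t →
      Nc Λ t - Nc Λ s ≤ D * (t - s) + (D * (1 - ξ) * N + (T + 1)) := by
  have hC : 0 ≤ D * (1 - ξ) * N := by
    have : 0 < 1 - ξ := by linarith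
    positivity
  have base : ∀ t, t ≤ T → ∀ s, 0 ≤ s → s ≤ t →
      Nc Λ t - Nc Λ s ≤ D * (t - s) + (D * (1 - ξ) * N + (T + 1)) := by
    intro t ht s hs hst
    have h1 := Count_le Λ t (hs.trans hst)
    have h2 := Nc_nonneg Λ s
    have h3 : 0 ≤ D * (t - s) := mul_nonneg hD.le (by linarith)
    linarith
  induction k with
  | zero =>
    intro t ht _ s hs hst
    rw [pow_zero, one_mul] at ht
    exact base t ht s hs hst
  | succ k ih =>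
    intro t ht htN s hs hst
    by_cases htT : t ≤ T
    · exact base t htT s hs hst
    · have h1 := h t (not_le.mp htT).le
      have ht0 : 0 ≤ t := hs.trans hst
      by_cases hsx : s ≤ ξ * t
      · have h2 := ih (ξ * t) (by rw [← mul_assoc, ← pow_succ]; exact ht)
          (by nlinarith) s hs hsx
        nlinarith
      · have h2 := Nc_mono Λ (not_le.mp hsx).le
        have h3 : 0 ≤ D * (t - s) := mul_nonneg hD.le (by linarith)
        have h4 : D * ((1 - ξ) * t) ≤ D * (1 - ξ) * N := by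
          have : 0 ≤ D * (1 - ξ) := mul_nonneg hD.le (by linarith)
          nlinarith
        linarith

/-- if the maximal density of `Λ` is `Δ < Δ₁` then every interval `(s,t]` in `[0,N]` contains at most
`Δ₁ (t-s) + η N` elements, for all large `N` -/
theorem count_bound (Λ : Set ℕ) (Δ Δ₁ : ℝ) (h0 : 0 < Δ₁) (hΔ : Δ < Δ₁)
    (hd : HasMaxDensity Λ Δ) :
    ∀ η : ℝ, 0 < η → ∃ T : ℝ, ∀ N : ℕ, T ≤ N → ∀ s t : ℝ, 0 ≤ s → s ≤ t → t ≤ N →
      Nc Λ t - Nc Λ s ≤ Δ₁ * (t - s) + η * N := by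
  intro η hη
  have e1 : ∀ᶠ ξ : ℝ in 𝓝[<] (1 : ℝ),
      limsup (fun t : ℝ => (Nc Λ t - Nc Λ (ξ * t)) / ((1 - ξ) * t)) atTop < Δ₁ :=
    hd.eventually_lt_const hΔ
  have e2 : ∀ᶠ ξ : ℝ in 𝓝[<] (1 : ℝ), max 0 (1 - η / (4 * Δ₁)) < ξ := by
    apply (eventually_gt_nhds ?_).filter_mono nhdsWithin_le_nhds
    rw [max_lt_iff]
    exact ⟨one_pos, by have : 0 < η / (4 * Δ₁) := by positivity
                       linarith⟩
  have e3 : ∀ᶠ ξ : ℝ in 𝓝[<] (1 : ℝ), ξ < 1 := eventually_mem_nhdsWithin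
  obtain ⟨ξ, hlim, hξ, hξ1⟩ := (e1.and (e2.and e3)).exists
  rw [max_lt_iff] at hξ
  obtain ⟨hξ0, hξ2⟩ := hξ
  have hx : 0 < 1 - ξ := by linarith
  have hbdd : IsBoundedUnder (· ≤ ·) atTop
      (fun t : ℝ => (Nc Λ t - Nc Λ (ξ * t)) / ((1 - ξ) * t)) := by
    refine ⟨2 / (1 - ξ), ?_⟩
    rw [eventually_map]
    filter_upwards [eventually_ge_atTop (1 : ℝ)] with t ht
    have h1 := Count_le Λ t (by linarith)
    have h2 := Nc_nonneg Λ (ξ * t)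
    rw [div_le_div_iff₀ (by positivity) hx]
    have h3 : Nc Λ t - Nc Λ (ξ * t) ≤ 2 * t := by linarith
    calc (Nc Λ t - Nc Λ (ξ * t)) * (1 - ξ) ≤ 2 * t * (1 - ξ) :=
          mul_le_mul_of_nonneg_right h3 hx.le
      _ = 2 * ((1 - ξ) * t) := by ring
  have hev := eventually_lt_of_limsup_lt hlim hbdd
  obtain ⟨T0, hT0⟩ := eventually_atTop.mp hev
  have hT : ∀ t, max T0 1 ≤ t → Nc Λ t - Nc Λ (ξ * t) ≤ Δ₁ * ((1 - ξ) * t) := by
    intro t ht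
    have h1 := hT0 t ((le_max_left _ _).trans ht)
    have h2 : 0 < t := lt_of_lt_of_le one_pos ((le_max_right _ _).trans ht)
    rw [div_lt_iff₀ (by positivity)] at h1
    exact h1.le
  refine ⟨2 * (max T0 1 + 1) / η, ?_⟩
  intro N hN s t hs hst htN
  have hN0 : (0 : ℝ) ≤ N := Nat.cast_nonneg _
  obtain ⟨k, hk⟩ := exists_pow_lt_of_lt_one (show (0 : ℝ) < 1 / (N + 1) by positivity) hξ1
  have hk2 : ξ ^ k * t ≤ max T0 1 := by
    have h1 : ξ ^ k * t ≤ 1 / (N + 1) * (N + 1) := by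
      apply mul_le_mul hk.le (by linarith) (hs.trans hst) (by positivity)
    have h2 : (1 : ℝ) / (N + 1) * (N + 1) = 1 := by field_simp
    rw [h2] at h1
    exact h1.trans (le_max_right _ _)
  have h1 := Count_iter Λ Δ₁ ξ (max T0 1) N h0 hξ0 hξ1 (le_max_right _ _) hN0 hT k t hk2 htN s
    hs hst
  have h2 : Δ₁ * (1 - ξ) * N ≤ η / 4 * N := by
    apply mul_le_mul_of_nonneg_right _ hN0
    have h3 : 1 - ξ ≤ η / (4 * Δ₁) := by linarith
    calc Δ₁ * (1 - ξ) ≤ Δ₁ * (η / (4 * Δ₁)) := mul_le_mul_of_nonneg_left h3 h0.le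
      _ = η / 4 := by field_simp
  have h3 : max T0 1 + 1 ≤ η / 2 * N := by
    rw [div_le_iff₀ hη] at hN
    linarith
  have h4 : 0 ≤ η * N := by positivity
  linarith

end Pool.Agent.LibAV71
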