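import Pool.Agent.LibAV71.Defs

/-! Task T1: the crossing lemma. -/

set_option autoImplicit false

open Filter Topology Complex

namespace Pool.Agent.LibAV71

/-- a continuous nonvanishing function on the unit square has a continuous logarithm -/
theorem exists_log_square (F : ℝ × ℝ → ℂ)
    (hF : ContinuousOn F (Set.Icc (0 : ℝ) 1 ×ˢ Set.Icc (0 : ℝ) 1))
    (h0 : ∀ p ∈ Set.Icc (0 : ℝ) 1 ×ˢ Set.Icc (0 : ℝ) 1, F p ≠ 0) :
    ∃ θ : ℝ × ℝ → ℂ, ContinuousOn θ (Set.Icc (0 : ℝ) 1 ×ˢ Set.Icc (0 : ℝ) 1) ∧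
      ∀ p ∈ Set.Icc (0 : ℝ) 1 ×ˢ Set.Icc (0 : ℝ) 1, Complex.exp (θ p) = F p := by
  set Q : Set (ℝ × ℝ) := Set.Icc (0 : ℝ) 1 ×ˢ Set.Icc (0 : ℝ) 1 with hQ
  have hc : IsCompact Q := isCompact_Icc.prod isCompact_Icc
  have hne : Q.Nonempty := ⟨(0, 0), by simp [hQ]⟩
  -- the minimum of the modulus
  obtain ⟨p₀, hp₀, hmin⟩ := hc.exists_isMinOn hne hF.norm
  have hm : 0 < ‖F p₀‖ := norm_pos_iff.2 (h0 p₀ hp₀)
  have hmin' : ∀ p ∈ Q, ‖F p₀‖ ≤ ‖F p‖ := fun p hp => hmin hp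
  -- uniform continuity
  have huc := hc.uniformContinuousOn_of_continuous hF
  rw [Metric.uniformContinuousOn_iff] at huc
  obtain ⟨δ, hδ, hunif⟩ := huc ‖F p₀‖ hm
  obtain ⟨n, hn⟩ := exists_nat_gt (1 / δ)
  have hn0 : (0 : ℝ) < n := lt_trans (by positivity) hn
  have hnδ : 1 / (n : ℝ) < δ := by
    rw [div_lt_comm₀ hn0 hδ]
    exact hn
  -- scaling stays in the square
  have hscale : ∀ k : ℕ, k ≤ n → ∀ p ∈ Q, ((k : ℝ) / n) • p ∈ Q := by
    intro k hk p hp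
    have h1 : (0 : ℝ) ≤ (k : ℝ) / n := by positivity
    have h2 : (k : ℝ) / n ≤ 1 := by
      rw [div_le_one hn0]
      exact_mod_cast hk
    obtain ⟨⟨a1, a2⟩, ⟨b1, b2⟩⟩ := hp
    refine ⟨⟨?_, ?_⟩, ⟨?_, ?_⟩⟩
    · exact mul_nonneg h1 a1
    · exact mul_le_one₀ h2 a1 a2
    · exact mul_nonneg h1 b1
    · exact mul_le_one₀ h2 b1 b2
  have hnorm : ∀ p ∈ Q, ‖p‖ ≤ 1 := by
    rintro ⟨a, b⟩ ⟨⟨a1, a2⟩, ⟨b1, b2⟩⟩
    rw [Prod.norm_def]
    simp only [Real.norm_eq_abs]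
    exact max_le (abs_le.2 ⟨by linarith, a2⟩) (abs_le.2 ⟨by linarith, b2⟩)
  -- the ratios
  let r : ℕ → ℝ × ℝ → ℂ := fun k p =>
    F ((((k + 1 : ℕ) : ℝ) / n) • p) / F ((((k : ℕ) : ℝ) / n) • p)
  have hslit : ∀ k < n, ∀ p ∈ Q, r k p ∈ Complex.slitPlane := by
    intro k hk p hp
    have h1 := hscale k hk.le p hp
    have h2 := hscale (k + 1) hk p hp
    have hb := h0 _ h1
    have h3 : r k p = 1 + (F ((((k + 1 : ℕ) : ℝ) / n) • p) - F ((((k : ℕ) : ℝ) / n) • p)) /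
        F ((((k : ℕ) : ℝ) / n) • p) := by
      change F ((((k + 1 : ℕ) : ℝ) / n) • p) / F ((((k : ℕ) : ℝ) / n) • p) = _
      field_simp
      ring
    rw [h3]
    apply Complex.mem_slitPlane_of_norm_lt_one
    rw [norm_div, div_lt_one (norm_pos_iff.2 hb), ← dist_eq_norm]
    refine (hunif _ h2 _ h1 ?_).trans_le (hmin' _ h1)
    rw [dist_eq_norm, ← sub_smul, norm_smul]
    have h4 : (((k + 1 : ℕ) : ℝ) / n) - (((k : ℕ) : ℝ) / n) = 1 / n := by
      push_cast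
      ring
    rw [h4, Real.norm_eq_abs, abs_of_pos (by positivity)]
    calc 1 / (n : ℝ) * ‖p‖ ≤ 1 / (n : ℝ) * 1 :=
          mul_le_mul_of_nonneg_left (hnorm p hp) (by positivity)
      _ < δ := by rw [mul_one]; exact hnδ
  have hcs : ∀ k ≤ n, ContinuousOn (fun p => F (((k : ℝ) / n) • p)) Q := by
    intro k hk
    exact hF.comp (continuous_const_smul _).continuousOn (fun p hp => hscale k hk p hp)
  have hcr : ∀ k < n, ContinuousOn (r k) Q := by
    intro k hk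
    exact (hcs (k + 1) hk).div (hcs k hk.le) fun p hp => h0 _ (hscale k hk.le p hp)
  refine ⟨fun p => Complex.log (F (0, 0)) + ∑ k ∈ Finset.range n, Complex.log (r k p), ?_, ?_⟩
  · refine continuousOn_const.add (continuousOn_finsetSum _ fun k hk => ?_)
    exact (hcr k (Finset.mem_range.1 hk)).clog (hslit k (Finset.mem_range.1 hk))
  · intro p hp
    have h00 : ((0, 0) : ℝ × ℝ) ∈ Q := by simp [hQ]
    have hrne : ∀ k ∈ Finset.range n, r k p ≠ 0 := fun k hk =>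
      Complex.slitPlane_ne_zero (hslit k (Finset.mem_range.1 hk) p hp)
    change Complex.exp (Complex.log (F (0, 0)) + ∑ k ∈ Finset.range n, Complex.log (r k p)) = F p
    rw [Complex.exp_add, Complex.exp_log (h0 _ h00), Complex.exp_sum,
      Finset.prod_congr rfl fun k hk => Complex.exp_log (hrne k hk)]
    have htel : ∀ m ≤ n, F (0, 0) * ∏ k ∈ Finset.range m, r k p = F (((m : ℝ) / n) • p) := by
      intro m hm
      induction m with
      | zero =>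
        have h5 : (((0 : ℕ) : ℝ) / n) • p = (0, 0) := by
          rw [Nat.cast_zero, zero_div, zero_smul]
          rfl
        rw [Finset.range_zero, Finset.prod_empty, mul_one, h5]
      | succ m ih =>
        rw [Finset.prod_range_succ, ← mul_assoc, ih (by omega)]
        change F (((m : ℝ) / n) • p) * (F ((((m + 1 : ℕ) : ℝ) / n) • p) / F (((m : ℝ) / n) • p)) = _
        exact mul_div_cancel₀ _ (h0 _ (hscale m (by omega) p hp))
    rw [htel n le_rfl, div_self hn0.ne', one_smul]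

theorem cross_aux (ψ : ℝ → ℝ) (hψ : ContinuousOn ψ (Set.Icc 0 1)) (c d : ℝ)
    (hne : ∀ t ∈ Set.Icc (0 : ℝ) 1, ψ t ≠ c ∧ ψ t ≠ d) {t₀ t₁ : ℝ} (ht₀ : t₀ ∈ Set.Icc (0 : ℝ) 1)
    (ht₁ : t₁ ∈ Set.Icc (0 : ℝ) 1) (h : c < ψ t₀ ∧ ψ t₀ < d) : c < ψ t₁ ∧ ψ t₁ < d := by
  have hpre : IsPreconnected (ψ '' Set.Icc 0 1) := isPreconnected_Icc.image ψ hψ
  constructor
  · by_contra hcon
    push Not at hcon
    have h1 : c ∈ ψ '' Set.Icc 0 1 :=
      hpre.Icc_subset ⟨t₁, ht₁, rfl⟩ ⟨t₀, ht₀, rfl⟩ ⟨hcon, h.1.le⟩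
    obtain ⟨t, ht, htc⟩ := h1
    exact (hne t ht).1 htc
  · by_contra hcon
    push Not at hcon
    have h1 : d ∈ ψ '' Set.Icc 0 1 :=
      hpre.Icc_subset ⟨t₀, ht₀, rfl⟩ ⟨t₁, ht₁, rfl⟩ ⟨h.2.le, hcon⟩
    obtain ⟨t, ht, htc⟩ := h1
    exact (hne t ht).2 htc

theorem cross_cos {a x : ℝ} (h : Real.cos x < 0 ∨ 0 < Real.cos x) (ha : Real.cos a = 0) : x ≠ a := by
  rintro rfl
  rcases h with h | h <;> linarith

theorem cross_sin {a x : ℝ} (h : Real.sin x < 0 ∨ 0 < Real.sin x) (ha : Real.sin a = 0) : x ≠ a := by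
  rintro rfl
  rcases h with h | h <;> linarith

/-- A path `h` crossing the closed strip `|Re| ≤ X` from left to right and a path `v` in the open strip
that starts below `h` and ends above `h` must meet. -/
theorem crossing (X : ℝ) (hX : 0 < X) (h v : ℝ → ℂ) (hh : ContinuousOn h (Set.Icc 0 1))
    (hv : ContinuousOn v (Set.Icc 0 1)) (h0 : (h 0).re = -X) (h1 : (h 1).re = X)
    (hvs : ∀ t ∈ Set.Icc (0 : ℝ) 1, |(v t).re| < X)
    (hv0 : ∀ s ∈ Set.Icc (0 : ℝ) 1, (v 0).im < (h s).im)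
    (hv1 : ∀ s ∈ Set.Icc (0 : ℝ) 1, (h s).im < (v 1).im) :
    ∃ s ∈ Set.Icc (0 : ℝ) 1, ∃ t ∈ Set.Icc (0 : ℝ) 1, h s = v t := by
  by_contra hcon
  push Not at hcon
  have hF : ContinuousOn (fun p : ℝ × ℝ => h p.1 - v p.2)
      (Set.Icc (0 : ℝ) 1 ×ˢ Set.Icc (0 : ℝ) 1) :=
    (hh.comp continuousOn_fst fun p hp => hp.1).sub (hv.comp continuousOn_snd fun p hp => hp.2)
  obtain ⟨θ, hθ, hexp⟩ := exists_log_square (fun p => h p.1 - v p.2) hF
    (fun p hp => sub_ne_zero.2 (hcon p.1 hp.1 p.2 hp.2))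
  -- the imaginary part, normalised at the corner `(1, 0)`
  set k : ℤ := ⌊(θ (1, 0)).im / (2 * Real.pi)⌋ with hk
  let φ : ℝ × ℝ → ℝ := fun p => (θ p).im - k * (2 * Real.pi)
  have hcos : ∀ p ∈ Set.Icc (0 : ℝ) 1 ×ˢ Set.Icc (0 : ℝ) 1,
      (h p.1).re - (v p.2).re = Real.exp (θ p).re * Real.cos (φ p) := by
    intro p hp
    have h2 := congrArg Complex.re (hexp p hp)
    rw [Complex.exp_re, Complex.sub_re] at h2
    rw [← h2, Real.cos_sub_int_mul_two_pi]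
  have hsin : ∀ p ∈ Set.Icc (0 : ℝ) 1 ×ˢ Set.Icc (0 : ℝ) 1,
      (h p.1).im - (v p.2).im = Real.exp (θ p).re * Real.sin (φ p) := by
    intro p hp
    have h2 := congrArg Complex.im (hexp p hp)
    rw [Complex.exp_im, Complex.sub_im] at h2
    rw [← h2, Real.sin_sub_int_mul_two_pi]
  have hφ : ContinuousOn φ (Set.Icc (0 : ℝ) 1 ×ˢ Set.Icc (0 : ℝ) 1) :=
    (Complex.continuous_im.comp_continuousOn hθ).sub continuousOn_const
  have e0 : (0 : ℝ) ∈ Set.Icc (0 : ℝ) 1 := ⟨le_rfl, zero_le_one⟩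
  have e1 : (1 : ℝ) ∈ Set.Icc (0 : ℝ) 1 := ⟨zero_le_one, le_rfl⟩
  -- signs on the sides
  have sR : ∀ t ∈ Set.Icc (0 : ℝ) 1, 0 < Real.cos (φ (1, t)) := by
    intro t ht
    have h2 := hcos (1, t) ⟨e1, ht⟩
    have h3 := (abs_lt.1 (hvs t ht)).2
    have h4 : 0 < Real.exp (θ (1, t)).re * Real.cos (φ (1, t)) := by
      rw [← h2]
      change 0 < (h 1).re - (v t).re
      linarith
    exact (pos_iff_pos_of_mul_pos h4).1 (Real.exp_pos _)
  have sL : ∀ t ∈ Set.Icc (0 : ℝ) 1, Real.cos (φ (0, t)) < 0 := by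
    intro t ht
    have h2 := hcos (0, t) ⟨e0, ht⟩
    have h3 := (abs_lt.1 (hvs t ht)).1
    have h4 : Real.exp (θ (0, t)).re * Real.cos (φ (0, t)) < 0 := by
      rw [← h2]
      change (h 0).re - (v t).re < 0
      linarith
    by_contra hc
    push Not at hc
    exact absurd (mul_nonneg (Real.exp_pos (θ (0, t)).re).le hc) (not_le.2 h4)
  have sB : ∀ s ∈ Set.Icc (0 : ℝ) 1, 0 < Real.sin (φ (s, 0)) := by
    intro s hs
    have h2 := hsin (s, 0) ⟨hs, e0⟩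
    have h3 := hv0 s hs
    have h4 : 0 < Real.exp (θ (s, 0)).re * Real.sin (φ (s, 0)) := by
      rw [← h2]
      change 0 < (h s).im - (v 0).im
      linarith
    exact (pos_iff_pos_of_mul_pos h4).1 (Real.exp_pos _)
  have sT : ∀ s ∈ Set.Icc (0 : ℝ) 1, Real.sin (φ (s, 1)) < 0 := by
    intro s hs
    have h2 := hsin (s, 1) ⟨hs, e1⟩
    have h3 := hv1 s hs
    have h4 : Real.exp (θ (s, 1)).re * Real.sin (φ (s, 1)) < 0 := by
      rw [← h2]
      change (h s).im - (v 1).im < 0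
      linarith
    by_contra hc
    push Not at hc
    exact absurd (mul_nonneg (Real.exp_pos (θ (s, 1)).re).le hc) (not_le.2 h4)
  -- continuity on the sides
  have cR : ContinuousOn (fun t => φ (1, t)) (Set.Icc 0 1) :=
    hφ.comp (by fun_prop) fun t ht => ⟨e1, ht⟩
  have cL : ContinuousOn (fun t => φ (0, t)) (Set.Icc 0 1) :=
    hφ.comp (by fun_prop) fun t ht => ⟨e0, ht⟩
  have cB : ContinuousOn (fun s => φ (s, 0)) (Set.Icc 0 1) :=
    hφ.comp (by fun_prop) fun s hs => ⟨hs, e0⟩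
  have cT : ContinuousOn (fun s => φ (s, 1)) (Set.Icc 0 1) :=
    hφ.comp (by fun_prop) fun s hs => ⟨hs, e1⟩
  have hpi := Real.pi_pos
  -- values of cos and sin
  have c1 : Real.cos (Real.pi / 2) = 0 := Real.cos_pi_div_two
  have c2 : Real.cos (-(Real.pi / 2)) = 0 := by rw [Real.cos_neg, c1]
  have c3 : Real.cos (3 * Real.pi / 2) = 0 := by
    have : 3 * Real.pi / 2 = Real.pi / 2 + Real.pi := by ring
    rw [this, Real.cos_add_pi, c1, neg_zero]
  have s1 : Real.sin 0 = 0 := Real.sin_zero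
  have s2 : Real.sin Real.pi = 0 := Real.sin_pi
  have s3 : Real.sin (2 * Real.pi) = 0 := Real.sin_two_pi
  -- the corner `(1, 0)`
  have k1 : 0 ≤ φ (1, 0) ∧ φ (1, 0) < 2 * Real.pi := by
    have h2 := Int.floor_le ((θ (1, 0)).im / (2 * Real.pi))
    have h3 := Int.lt_floor_add_one ((θ (1, 0)).im / (2 * Real.pi))
    rw [← hk] at h2 h3
    rw [le_div_iff₀ (by positivity)] at h2
    rw [div_lt_iff₀ (by positivity)] at h3
    change 0 ≤ (θ (1, 0)).im - k * (2 * Real.pi) ∧ (θ (1, 0)).im - k * (2 * Real.pi) < 2 * Real.pi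
    constructor <;> linarith
  have k2 : 0 < φ (1, 0) ∧ φ (1, 0) < Real.pi := by
    have h2 := sB 1 e1
    constructor
    · rcases k1.1.lt_or_eq with h3 | h3
      · exact h3
      · rw [← h3, s1] at h2
        exact absurd h2 (lt_irrefl _)
    · by_contra h3
      push Not at h3
      have h4 : Real.sin (φ (1, 0) - 2 * Real.pi) ≤ 0 :=
        Real.sin_nonpos_of_nonpos_of_neg_pi_le (by linarith [k1.2]) (by linarith)
      rw [Real.sin_sub_two_pi] at h4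
      linarith
  have k3 : φ (1, 0) < Real.pi / 2 := by
    by_contra h3
    push Not at h3
    have h4 := Real.cos_nonpos_of_pi_div_two_le_of_le h3 (by linarith [k2.2])
    linarith [sR 0 e0]
  -- go round
  have g1 : 0 < φ (0, 0) ∧ φ (0, 0) < Real.pi :=
    cross_aux (fun s => φ (s, 0)) cB 0 Real.pi
      (fun s hs => ⟨cross_sin (Or.inr (sB s hs)) s1, cross_sin (Or.inr (sB s hs)) s2⟩) e1 e0 k2
  have g2 : Real.pi / 2 < φ (0, 0) := by
    by_contra h3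
    push Not at h3
    have h4 := Real.cos_nonneg_of_neg_pi_div_two_le_of_le (x := φ (0, 0)) (by linarith [g1.1]) h3
    linarith [sL 0 e0]
  have g3 : Real.pi / 2 < φ (0, 1) ∧ φ (0, 1) < 3 * Real.pi / 2 :=
    cross_aux (fun t => φ (0, t)) cL (Real.pi / 2) (3 * Real.pi / 2)
      (fun t ht => ⟨cross_cos (Or.inl (sL t ht)) c1, cross_cos (Or.inl (sL t ht)) c3⟩) e0 e1
      ⟨g2, by linarith [g1.2]⟩
  have g4 : Real.pi < φ (0, 1) := by
    by_contra h3
    push Not at h3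
    have h4 := Real.sin_nonneg_of_nonneg_of_le_pi (x := φ (0, 1)) (by linarith [g3.1]) h3
    linarith [sT 0 e0]
  have g5 : Real.pi < φ (1, 1) ∧ φ (1, 1) < 2 * Real.pi :=
    cross_aux (fun s => φ (s, 1)) cT Real.pi (2 * Real.pi)
      (fun s hs => ⟨cross_sin (Or.inl (sT s hs)) s2, cross_sin (Or.inl (sT s hs)) s3⟩) e0 e1
      ⟨g4, by linarith [g3.2]⟩
  have g6 : -(Real.pi / 2) < φ (1, 1) ∧ φ (1, 1) < Real.pi / 2 :=
    cross_aux (fun t => φ (1, t)) cR (-(Real.pi / 2)) (Real.pi / 2)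
      (fun t ht => ⟨cross_cos (Or.inr (sR t ht)) c2, cross_cos (Or.inr (sR t ht)) c1⟩) e0 e1
      ⟨by linarith [k2.1], k3⟩
  linarith [g5.1, g6.2]

end Pool.Agent.LibAV71
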