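import Mathlib

/-! # Common definitions (helper71, MP_309e42_an)

Entire functions whose exponent set has small maximal density have no finite asymptotic value. -/

set_option autoImplicit false

open Filter Topology Complex

namespace Pool.Agent.LibAV71

noncomputable section

/-- maximum modulus on the circle of radius `r` -/
def MM (f : ℂ → ℂ) (r : ℝ) : ℝ := sSup ((fun z => ‖f z‖) '' {z : ℂ | ‖z‖ = r})

/-- logarithm of the maximum modulus in the logarithmic variable: `log M(e^x, f)` -/
def BB (f : ℂ → ℂ) (x : ℝ) : ℝ := Real.log (MM f (Real.exp x))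

/-- counting function of a set of natural numbers -/
def Nc (Λ : Set ℕ) (t : ℝ) : ℝ := ((Nat.card {n : ℕ // n ∈ Λ ∧ (n : ℝ) ≤ t} : ℕ) : ℝ)

/-- `Δ` is the maximal (Polya) density of `Λ` -/
def HasMaxDensity (Λ : Set ℕ) (Δ : ℝ) : Prop :=
  Tendsto (fun ξ : ℝ => limsup (fun t : ℝ => (Nc Λ t - Nc Λ (ξ * t)) / ((1 - ξ) * t)) atTop)
    (𝓝[<] (1 : ℝ)) (𝓝 Δ)

/-- open vertical strip -/
def strip (X : ℝ) : Set ℂ := {s | |s.re| < X}

/-- the part of the strip in which `u` is positive -/
def posSet (X : ℝ) (u : ℂ → ℝ) : Set ℂ := {s | |s.re| < X ∧ 0 < u s}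

open Classical in
/-- the two-point function: the product of the values of `u` at two points lying in different
connected components of `posSet X u`, and zero otherwise -/
def WW (X : ℝ) (u : ℂ → ℝ) (s t : ℂ) : ℝ :=
  if t ∈ connectedComponentIn (posSet X u) s then 0 else u s * u t

/-- the class of functions to which the two-phase lemma applies -/
structure Adm (X ρ σ : ℝ) (u : ℂ → ℝ) : Prop where
  cont : Continuous u
  nonneg : ∀ s, 0 ≤ u s
  per : ∀ s, u (s + 2 * Real.pi * I) = u s
  bound : ∀ s, |s.re| ≤ X → u s ≤ Real.exp (ρ * s.re + σ * |s.re|)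
  harm : ∀ s, 0 < u s → ∃ L : ℂ → ℂ, AnalyticAt ℂ L s ∧ ∀ᶠ w in 𝓝 s, u w = (L w).re

end

end Pool.Agent.LibAV71
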