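import Pool.Agent.LibAV71.Defs

/-! Task A2: matching the exponents with the points of an arithmetic progression. -/

set_option autoImplicit false

open Filter Topology

namespace Pool.Agent.LibAV71

open Classical in
theorem Match_Nc (Λ : Set ℕ) (t : ℝ) (ht : 0 ≤ t) :
    Nc Λ t = (((Finset.range (⌊t⌋₊ + 1)).filter (fun m => m ∈ Λ)).card : ℝ) := by
  unfold Nc
  congr 1
  apply Nat.subtype_card
  intro x
  rw [Finset.mem_filter, Finset.mem_range, Nat.lt_succ_iff, Nat.le_floor_iff ht]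
  tauto

open Classical in
/-- number of elements in `(s,t]` -/
theorem Match_Ioc (Λ : Set ℕ) (s t : ℝ) (hs : 0 ≤ s) (hst : s ≤ t) (S : Finset ℕ)
    (hS : ∀ m ∈ S, m ∈ Λ ∧ s < m ∧ (m : ℝ) ≤ t) : (S.card : ℝ) ≤ Nc Λ t - Nc Λ s := by
  rw [Match_Nc Λ t (hs.trans hst), Match_Nc Λ s hs]
  have hsub : (Finset.range (⌊s⌋₊ + 1)).filter (fun m => m ∈ Λ) ∪ S ⊆
      (Finset.range (⌊t⌋₊ + 1)).filter (fun m => m ∈ Λ) := by
    intro x hx
    rw [Finset.mem_union, Finset.mem_filter, Finset.mem_range, Nat.lt_succ_iff,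
      Nat.le_floor_iff hs] at hx
    rw [Finset.mem_filter, Finset.mem_range, Nat.lt_succ_iff, Nat.le_floor_iff (hs.trans hst)]
    rcases hx with ⟨h1, h2⟩ | h
    · exact ⟨h1.trans hst, h2⟩
    · obtain ⟨h1, _, h3⟩ := hS x h
      exact ⟨h3, h1⟩
  have hdis : Disjoint ((Finset.range (⌊s⌋₊ + 1)).filter (fun m => m ∈ Λ)) S := by
    rw [Finset.disjoint_left]
    intro x hx hx2
    rw [Finset.mem_filter, Finset.mem_range, Nat.lt_succ_iff, Nat.le_floor_iff hs] at hx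
    exact absurd (hS x hx2).2.1 (not_lt.2 hx.1)
  have hcard := Finset.card_le_card hsub
  rw [Finset.card_union_of_disjoint hdis] at hcard
  have : (((Finset.range (⌊s⌋₊ + 1)).filter (fun m => m ∈ Λ)).card : ℝ) + S.card ≤
      (((Finset.range (⌊t⌋₊ + 1)).filter (fun m => m ∈ Λ)).card : ℝ) := by exact_mod_cast hcard
  linarith

theorem Match_erase {α : Type*} [DecidableEq α] (s : Finset α) (a : α) :
    s.card ≤ (s.erase a).card + 1 := by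
  have := Finset.pred_card_le_card_erase (s := s) (a := a)
  omega

/-- nonzero integers in a half open interval -/
theorem Match_int (A B : ℝ) :
    B - A - 2 ≤ (((Finset.Ioc ⌊A⌋ ⌊B⌋).erase 0).card : ℝ) := by
  have h1 : ((Finset.Ioc ⌊A⌋ ⌊B⌋).card : ℝ) ≤ (((Finset.Ioc ⌊A⌋ ⌊B⌋).erase 0).card : ℝ) + 1 := by
    exact_mod_cast Match_erase (Finset.Ioc ⌊A⌋ ⌊B⌋) (0 : ℤ)
  have h2 : (⌊B⌋ : ℝ) - ⌊A⌋ ≤ ((Finset.Ioc ⌊A⌋ ⌊B⌋).card : ℝ) := by
    rw [Int.card_Ioc]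
    have := Int.self_le_toNat (⌊B⌋ - ⌊A⌋)
    have h3 : ((⌊B⌋ - ⌊A⌋ : ℤ) : ℝ) ≤ (((⌊B⌋ - ⌊A⌋).toNat : ℤ) : ℝ) := by exact_mod_cast this
    rw [Int.cast_sub] at h3
    exact_mod_cast h3
  have h3 := Int.sub_one_lt_floor B
  have h4 := Int.floor_le A
  linarith

/-- injection between finite sets -/
theorem Match_inj (S : Finset ℕ) (T : Finset ℤ) (h : S.card ≤ T.card) :
    ∃ e : ℕ → ℤ, Set.InjOn e (S : Set ℕ) ∧ ∀ m ∈ S, e m ∈ T := by
  classical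
  have hne : Nonempty ({x // x ∈ S} ↪ {x // x ∈ T}) := by
    apply Function.Embedding.nonempty_of_card_le
    rw [Fintype.card_coe, Fintype.card_coe]; exact h
  obtain ⟨g⟩ := hne
  refine ⟨fun m => if hm : m ∈ S then (g ⟨m, hm⟩ : ℤ) else 0, ?_, ?_⟩
  · intro a ha b hb hab
    have ha' : a ∈ S := ha
    have hb' : b ∈ S := hb
    simp only [dif_pos ha', dif_pos hb'] at hab
    have := g.injective (Subtype.ext hab)
    exact congrArg Subtype.val this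
  · intro m hm
    simp only [dif_pos hm]
    exact (g ⟨m, hm⟩).2

/-- If every interval `(s,t]` of `[0,N]` contains at most `Δ₁ (t-s) + η N` elements of `Λ` (`N` large), then for
`Δ₂ > Δ₁` the elements of `Λ ∩ [0,N]` different from `n` can be matched injectively with points
`n + j/Δ₂`, `j ≠ 0`, at distance at most `δ N`. -/
theorem matching (Λ : Set ℕ) (Δ₁ Δ₂ : ℝ) (h0 : 0 < Δ₁) (h12 : Δ₁ < Δ₂)
    (hc : ∀ η : ℝ, 0 < η → ∃ T : ℝ, ∀ N : ℕ, T ≤ N → ∀ s t : ℝ, 0 ≤ s → s ≤ t → t ≤ N →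
      Nc Λ t - Nc Λ s ≤ Δ₁ * (t - s) + η * N) :
    ∀ δ : ℝ, 0 < δ → ∃ T : ℝ, ∀ N : ℕ, T ≤ N → ∀ n : ℕ, n ≤ N →
      ∃ φ : ℕ → ℤ, Set.InjOn φ {m | m ∈ Λ ∧ m ≤ N ∧ m ≠ n} ∧
        ∀ m : ℕ, m ∈ Λ → m ≤ N → m ≠ n →
          φ m ≠ 0 ∧ |(m : ℝ) - ((n : ℝ) + (φ m : ℝ) / Δ₂)| ≤ δ * N := by
  classical
  intro δ hδ
  obtain ⟨J, hJ⟩ := exists_nat_gt (1 / δ)
  have hJ0 : (0 : ℝ) < J := lt_trans (by positivity) hJ
  have hJδ : 1 / (J : ℝ) ≤ δ := by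
    rw [div_le_iff₀ hJ0]
    rw [div_lt_iff₀ hδ] at hJ
    linarith
  have h2 : 0 < Δ₂ := h0.trans h12
  have hd : 0 < Δ₂ - Δ₁ := by linarith
  obtain ⟨T₁, hT₁⟩ := hc ((Δ₂ - Δ₁) / (4 * J)) (by positivity)
  refine ⟨max T₁ (max 1 (4 * J / (Δ₂ - Δ₁))), ?_⟩
  intro N hN n hn
  have hN1 : T₁ ≤ N := (le_max_left _ _).trans hN
  have hN2 : (1 : ℝ) ≤ N := (le_max_left _ _).trans ((le_max_right _ _).trans hN)
  have hN3 : 4 * J / (Δ₂ - Δ₁) ≤ N := (le_max_right _ _).trans ((le_max_right _ _).trans hN)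
  set h : ℝ := N / J with hh
  have hhpos : 0 < h := by rw [hh]; positivity
  have hhN : h * J = N := by rw [hh]; field_simp
  have hbig : 4 ≤ (Δ₂ - Δ₁) * h := by
    rw [div_le_iff₀ hd] at hN3
    rw [hh, mul_div_assoc', le_div_iff₀ hJ0]
    linarith
  set b : ℕ → ℕ := fun m => ⌈(m : ℝ) / h⌉₊ - 1 with hb
  -- position of `m` in its block
  have hb1 : ∀ m : ℕ, 0 < m → (b m : ℝ) * h < m ∧ (m : ℝ) ≤ ((b m : ℝ) + 1) * h := by
    intro m hm
    have hm' : (0 : ℝ) < (m : ℝ) / h := by positivity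
    have hc1 : 1 ≤ ⌈(m : ℝ) / h⌉₊ := Nat.one_le_iff_ne_zero.2 (Nat.ceil_pos.2 hm').ne'
    have hc2 : ((b m : ℕ) : ℝ) = (⌈(m : ℝ) / h⌉₊ : ℝ) - 1 := by
      rw [hb]; simp only; rw [Nat.cast_sub hc1]; simp
    have hc3 := Nat.ceil_lt_add_one hm'.le
    have hc4 := Nat.le_ceil ((m : ℝ) / h)
    constructor
    · rw [hc2, ← lt_div_iff₀ hhpos]; linarith
    · rw [hc2, ← div_le_iff₀ hhpos]; linarith
  have hb0 : b 0 = 0 := by simp [hb]
  have hbJ : ∀ m : ℕ, m ≤ N → b m < J := by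
    intro m hm
    rcases Nat.eq_zero_or_pos m with rfl | hm0
    · rw [hb0]; exact_mod_cast hJ0
    · have h3 := (hb1 m hm0).1
      have hm' : (m : ℝ) ≤ N := by exact_mod_cast hm
      have h4 : (b m : ℝ) * h < J * h := by rw [mul_comm (J : ℝ) h, hhN]; linarith
      exact_mod_cast lt_of_mul_lt_mul_right h4 hhpos.le
  have hb1' : ∀ m : ℕ, (b m : ℝ) * h ≤ m ∧ (m : ℝ) ≤ ((b m : ℝ) + 1) * h := by
    intro m
    rcases Nat.eq_zero_or_pos m with rfl | hm0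
    · rw [hb0]; simp [hhpos.le]
    · exact ⟨(hb1 m hm0).1.le, (hb1 m hm0).2⟩
  -- the sets
  set S : ℕ → Finset ℕ := fun i =>
    (Finset.range (N + 1)).filter (fun m => m ∈ Λ ∧ m ≠ n ∧ b m = i) with hS
  set T : ℕ → Finset ℤ := fun i =>
    (Finset.Ioc ⌊Δ₂ * (i * h - n)⌋ ⌊Δ₂ * ((i + 1) * h - n)⌋).erase 0 with hT
  have hcard : ∀ i, i < J → (S i).card ≤ (T i).card := by
    intro i hi
    have hi' : ((i : ℝ) + 1) ≤ J := by exact_mod_cast hi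
    have e1 : ((i : ℝ) + 1) * h ≤ N := by
      rw [← hhN, mul_comm h]; exact mul_le_mul_of_nonneg_right hi' hhpos.le
    have e2 : (((S i).erase 0).card : ℝ) ≤ Nc Λ (((i : ℝ) + 1) * h) - Nc Λ ((i : ℝ) * h) := by
      apply Match_Ioc
      · positivity
      · nlinarith
      · intro m hm
        rw [Finset.mem_erase, hS, Finset.mem_filter] at hm
        obtain ⟨hm0, _, hm1, _, hm2⟩ := hm
        have := hb1 m (Nat.pos_of_ne_zero hm0)
        rw [hm2] at this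
        exact ⟨hm1, this.1, this.2⟩
    have e3 := hT₁ N hN1 ((i : ℝ) * h) (((i : ℝ) + 1) * h) (by positivity) (by nlinarith) e1
    have e4 : (Δ₂ - Δ₁) / (4 * J) * N = (Δ₂ - Δ₁) * h / 4 := by
      rw [← hhN]; field_simp
    have e5 : ((S i).card : ℝ) ≤ ((S i).erase 0).card + 1 := by
      exact_mod_cast Match_erase (S i) 0
    have e6 := Match_int (Δ₂ * (i * h - n)) (Δ₂ * ((i + 1) * h - n))
    have e7 : ((S i).card : ℝ) ≤ (T i).card := by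
      have : ((T i).card : ℝ) = (((Finset.Ioc ⌊Δ₂ * (i * h - n)⌋
        ⌊Δ₂ * ((i + 1) * h - n)⌋).erase 0).card : ℝ) := rfl
      rw [this]
      nlinarith
    exact_mod_cast e7
  have hex : ∀ i, ∃ e : ℕ → ℤ, i < J → Set.InjOn e (S i : Set ℕ) ∧ ∀ m ∈ S i, e m ∈ T i := by
    intro i
    by_cases hi : i < J
    · obtain ⟨e, he1, he2⟩ := Match_inj (S i) (T i) (hcard i hi)
      exact ⟨e, fun _ => ⟨he1, he2⟩⟩
    · exact ⟨fun _ => 0, fun h => absurd h hi⟩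
  choose e he using hex
  have hSm : ∀ m : ℕ, m ∈ Λ → m ≤ N → m ≠ n → m ∈ S (b m) := by
    intro m h3 h4 h5
    rw [hS, Finset.mem_filter, Finset.mem_range]
    exact ⟨Nat.lt_succ_of_le h4, h3, h5, rfl⟩
  have hTm : ∀ m : ℕ, m ∈ Λ → m ≤ N → m ≠ n →
      e (b m) m ≠ 0 ∧ (b m : ℝ) * h < n + (e (b m) m : ℝ) / Δ₂ ∧
        n + (e (b m) m : ℝ) / Δ₂ ≤ ((b m : ℝ) + 1) * h := by
    intro m h3 h4 h5
    have h6 := (he (b m) (hbJ m h4)).2 m (hSm m h3 h4 h5)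
    rw [hT] at h6
    simp only [Finset.mem_erase, Finset.mem_Ioc, Int.floor_lt, Int.le_floor] at h6
    obtain ⟨h7, h8, h9⟩ := h6
    refine ⟨h7, ?_, ?_⟩
    · have : (b m : ℝ) * h - n < (e (b m) m : ℝ) / Δ₂ := by
        rw [lt_div_iff₀ h2]; linarith
      linarith
    · have : (e (b m) m : ℝ) / Δ₂ ≤ ((b m : ℝ) + 1) * h - n := by
        rw [div_le_iff₀ h2]; linarith
      linarith
  refine ⟨fun m => e (b m) m, ?_, ?_⟩
  · rintro m₁ ⟨ha1, ha2, ha3⟩ m₂ ⟨hb1'', hb2, hb3⟩ heq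
    simp only at heq
    have hbb : b m₁ = b m₂ := by
      obtain ⟨_, p1, p2⟩ := hTm m₁ ha1 ha2 ha3
      obtain ⟨_, q1, q2⟩ := hTm m₂ hb1'' hb2 hb3
      rw [heq] at p1 p2
      have r1 : (b m₁ : ℝ) * h < ((b m₂ : ℝ) + 1) * h := lt_of_lt_of_le p1 q2
      have r2 : (b m₂ : ℝ) * h < ((b m₁ : ℝ) + 1) * h := lt_of_lt_of_le q1 p2
      have r3 := lt_of_mul_lt_mul_right r1 hhpos.le
      have r4 := lt_of_mul_lt_mul_right r2 hhpos.le
      have r5 : b m₁ < b m₂ + 1 := by exact_mod_cast r3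
      have r6 : b m₂ < b m₁ + 1 := by exact_mod_cast r4
      omega
    have hs1 := hSm m₁ ha1 ha2 ha3
    have hs2 := hSm m₂ hb1'' hb2 hb3
    rw [← hbb] at hs2 heq
    exact (he (b m₁) (hbJ m₁ ha2)).1 hs1 hs2 heq
  · intro m h3 h4 h5
    obtain ⟨h6, h7, h8⟩ := hTm m h3 h4 h5
    obtain ⟨h9, h10⟩ := hb1' m
    refine ⟨h6, ?_⟩
    have hδN : h ≤ δ * N := by
      rw [hh, div_eq_mul_one_div, mul_comm]
      exact mul_le_mul_of_nonneg_right hJδ (by positivity)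
    rw [abs_le]
    constructor <;> nlinarith

end Pool.Agent.LibAV71
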