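import Pool.Agent.LibAV71.Defs

/-! Task B1: elementary properties of the maximum modulus. -/

set_option autoImplicit false

open Filter Topology Complex

namespace Pool.Agent.LibAV71

variable {f : ℂ → ℂ}

theorem maxMod_set (r : ℝ) : {z : ℂ | ‖z‖ = r} = Metric.sphere (0 : ℂ) r := by
  ext z
  simp

theorem maxMod_bdd (hf : Differentiable ℂ f) (r : ℝ) :
    BddAbove ((fun z => ‖f z‖) '' {z : ℂ | ‖z‖ = r}) := by
  rw [maxMod_set]
  exact (isCompact_sphere (0 : ℂ) r).bddAbove_image hf.continuous.norm.continuousOn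

theorem norm_le_MM (hf : Differentiable ℂ f) (z : ℂ) : ‖f z‖ ≤ MM f ‖z‖ :=
  le_csSup (maxMod_bdd hf ‖z‖) ⟨z, rfl, rfl⟩

theorem exists_eq_MM (hf : Differentiable ℂ f) (r : ℝ) (hr : 0 ≤ r) :
    ∃ z : ℂ, ‖z‖ = r ∧ ‖f z‖ = MM f r := by
  obtain ⟨z, hz, he⟩ := (isCompact_sphere (0 : ℂ) r).exists_sSup_image_eq
    (NormedSpace.sphere_nonempty.2 hr) (f := fun z => ‖f z‖) hf.continuous.norm.continuousOn
  refine ⟨z, by simpa using hz, ?_⟩
  rw [MM, maxMod_set]
  exact he.symm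

theorem maxMod_le (hf : Differentiable ℂ f) {s : ℝ} (hs : 0 < s) (z : ℂ) (hz : ‖z‖ ≤ s) :
    ‖f z‖ ≤ MM f s := by
  refine Complex.norm_le_of_forall_mem_frontier_norm_le (U := Metric.ball (0 : ℂ) s)
    Metric.isBounded_ball hf.diffContOnCl ?_ ?_
  · intro w hw
    rw [frontier_ball (0 : ℂ) hs.ne'] at hw
    have hw' : ‖w‖ = s := by simpa using hw
    rw [← hw']
    exact norm_le_MM hf w
  · rw [closure_ball (0 : ℂ) hs.ne']
    simpa using hz

theorem MM_mono (hf : Differentiable ℂ f) {r s : ℝ} (hr : 0 ≤ r) (hrs : r ≤ s) :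
    MM f r ≤ MM f s := by
  rcases hr.eq_or_lt with h0 | h0
  · rcases hrs.eq_or_lt with h1 | h1
    · rw [h1]
    · obtain ⟨z, hz, he⟩ := exists_eq_MM hf r hr
      rw [← he]
      exact maxMod_le hf (lt_of_le_of_lt hr h1) z (by rw [hz]; exact hrs)
  · obtain ⟨z, hz, he⟩ := exists_eq_MM hf r hr
    rw [← he]
    exact maxMod_le hf (lt_of_lt_of_le h0 hrs) z (by rw [hz]; exact hrs)

theorem MM_pos (hf : Differentiable ℂ f) (hnc : ∃ z w : ℂ, f z ≠ f w) {r : ℝ} (hr : 0 < r) :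
    0 < MM f r := by
  by_contra hcon
  push Not at hcon
  have hz : f =ᶠ[𝓝 (0 : ℂ)] (fun _ => (0 : ℂ)) := by
    filter_upwards [Metric.ball_mem_nhds (0 : ℂ) hr] with z hz
    have hz' : ‖z‖ ≤ r := by
      have : ‖z‖ < r := by simpa using hz
      exact this.le
    have := (maxMod_le hf hr z hz').trans hcon
    exact norm_le_zero_iff.1 this
  have hfa : AnalyticOnNhd ℂ f Set.univ := fun x _ => hf.analyticAt x
  have hfe := AnalyticOnNhd.eq_of_eventuallyEq hfa analyticOnNhd_const hz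
  obtain ⟨z, w, hzw⟩ := hnc
  apply hzw
  rw [hfe]

theorem MM_tendsto (hf : Differentiable ℂ f) (hnc : ∃ z w : ℂ, f z ≠ f w) :
    Tendsto (MM f) atTop atTop := by
  rw [tendsto_atTop]
  intro b
  by_cases hb : ∃ R, 0 ≤ R ∧ b ≤ MM f R
  · obtain ⟨R, hR, hbR⟩ := hb
    filter_upwards [eventually_ge_atTop R] with r hr
    exact hbR.trans (MM_mono hf hR hr)
  · exfalso
    push Not at hb
    obtain ⟨z, w, hzw⟩ := hnc
    apply hzw
    refine hf.apply_eq_apply_of_bounded ?_ z w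
    rw [isBounded_iff_forall_norm_le]
    refine ⟨b, ?_⟩
    rintro _ ⟨x, rfl⟩
    exact (norm_le_MM hf x).trans (hb ‖x‖ (norm_nonneg x)).le

theorem BB_mono (hf : Differentiable ℂ f) (hnc : ∃ z w : ℂ, f z ≠ f w) : Monotone (BB f) := by
  intro x y hxy
  exact Real.log_le_log (MM_pos hf hnc (Real.exp_pos x))
    (MM_mono hf (Real.exp_pos x).le (Real.exp_le_exp.2 hxy))

theorem maxMod_exp (x : ℝ) : MM f (Real.exp x) =
    sSup ((fun u : ℂ => ‖f (Complex.exp x * u)‖) '' Metric.sphere (0 : ℂ) 1) := by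
  rw [MM]
  congr 1
  ext t
  constructor
  · rintro ⟨z, hz, rfl⟩
    have hz' : ‖z‖ = Real.exp x := hz
    refine ⟨z / Complex.exp x, ?_, ?_⟩
    · rw [mem_sphere_zero_iff_norm, norm_div, hz', Complex.norm_exp, Complex.ofReal_re,
        div_self (Real.exp_pos x).ne']
    · show ‖f (Complex.exp x * (z / Complex.exp x))‖ = ‖f z‖
      rw [mul_div_cancel₀ _ (Complex.exp_ne_zero x)]
  · rintro ⟨u, hu, rfl⟩
    refine ⟨Complex.exp x * u, ?_, rfl⟩
    show ‖Complex.exp x * u‖ = Real.exp x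
    rw [norm_mul, mem_sphere_zero_iff_norm.1 hu, mul_one, Complex.norm_exp, Complex.ofReal_re]

theorem BB_continuous (hf : Differentiable ℂ f) (hnc : ∃ z w : ℂ, f z ≠ f w) :
    Continuous (BB f) := by
  have h1 : Continuous fun x : ℝ => MM f (Real.exp x) := by
    have h2 : (fun x : ℝ => MM f (Real.exp x)) = fun x : ℝ =>
        sSup ((fun u : ℂ => ‖f (Complex.exp x * u)‖) '' Metric.sphere (0 : ℂ) 1) :=
      funext maxMod_exp
    rw [h2]
    refine IsCompact.continuous_sSup (f := fun (x : ℝ) (u : ℂ) => ‖f (Complex.exp x * u)‖)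
      (isCompact_sphere (0 : ℂ) 1) ?_
    have hfc := hf.continuous
    show Continuous fun p : ℝ × ℂ => ‖f (Complex.exp p.1 * p.2)‖
    fun_prop
  exact Real.continuousOn_log.comp_continuous h1
    (fun x => (MM_pos hf hnc (Real.exp_pos x)).ne')

theorem BB_tendsto (hf : Differentiable ℂ f) (hnc : ∃ z w : ℂ, f z ≠ f w) :
    Tendsto (BB f) atTop atTop :=
  Real.tendsto_log_atTop.comp ((MM_tendsto hf hnc).comp Real.tendsto_exp_atTop)

theorem norm_le_exp_BB (hf : Differentiable ℂ f) (hnc : ∃ z w : ℂ, f z ≠ f w) (s : ℂ) :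
    ‖f (Complex.exp s)‖ ≤ Real.exp (BB f s.re) := by
  rw [BB, Real.exp_log (MM_pos hf hnc (Real.exp_pos _)), ← Complex.norm_exp]
  exact norm_le_MM hf _

theorem taylor_hasSum (hf : Differentiable ℂ f) (z : ℂ) :
    HasSum (fun n : ℕ => (iteratedDeriv n f 0 / (n.factorial : ℂ)) * z ^ n) (f z) := by
  have h := Complex.hasSum_taylorSeries_of_entire hf 0 z
  have he : (fun n : ℕ => (iteratedDeriv n f 0 / (n.factorial : ℂ)) * z ^ n) =
      fun n : ℕ => (n.factorial : ℂ)⁻¹ • (z - 0) ^ n • iteratedDeriv n f 0 := by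
    funext n
    rw [sub_zero, smul_eq_mul, smul_eq_mul, div_eq_inv_mul]
    ring
  rw [he]
  exact h

theorem cauchy_le (hf : Differentiable ℂ f) (n : ℕ) (r : ℝ) (hr : 0 < r) :
    ‖iteratedDeriv n f 0 / (n.factorial : ℂ)‖ * r ^ n ≤ MM f r := by
  have h := Complex.norm_iteratedDeriv_le_of_forall_mem_sphere_norm_le (c := 0) (C := MM f r) n hr
    hf.diffContOnCl (by
      intro z hz
      have hz' : ‖z‖ = r := by simpa using hz
      rw [← hz']
      exact norm_le_MM hf z)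
  have hn : (0 : ℝ) < n.factorial := by exact_mod_cast n.factorial_pos
  rw [norm_div, Complex.norm_natCast]
  rw [le_div_iff₀ (pow_pos hr n)] at h
  rw [div_mul_eq_mul_div, div_le_iff₀ hn]
  linarith

end Pool.Agent.LibAV71
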