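import Pool.Agent.LibAV71.Count
import Pool.Agent.LibAV71.Match
import Pool.Agent.LibAV71.Coeff
import Pool.Agent.LibAV71.MaxMod

/-! Task A7: points where `|f|` is nearly maximal are `2πΔ'`-dense on suitable circles. -/

set_option autoImplicit false

open Filter Topology Complex

namespace Pool.Agent.LibAV71

private theorem Dense_exp_neg_two : Real.exp (-2) ≤ 1 / 2 := by
  rw [Real.exp_neg, ← one_div]
  apply one_div_le_one_div_of_le (by norm_num)
  have := Real.add_one_le_exp (2 : ℝ)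
  linarith

/-- growth comparison -/
private theorem Dense_growth (K ε : ℝ) (hε : 0 < ε) (E : ℝ) :
    ∀ᶠ B : ℝ in atTop, 2 * (K * B + 2) * E * Real.exp (-(3 * ε / 4) * B) + Real.exp (-B) < 1 := by
  have hb : 0 < 3 * ε / 4 := by positivity
  have h1 : Tendsto (fun B : ℝ => (3 * ε / 4) * B) atTop atTop :=
    tendsto_id.const_mul_atTop hb
  have h2 := (Real.tendsto_pow_mul_exp_neg_atTop_nhds_zero 1).comp h1
  have h3 := (Real.tendsto_pow_mul_exp_neg_atTop_nhds_zero 0).comp h1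
  have h4 := Real.tendsto_pow_mul_exp_neg_atTop_nhds_zero 0
  have h5 : Tendsto (fun B : ℝ => 2 * E * K / (3 * ε / 4) *
      ((3 * ε / 4 * B) ^ 1 * Real.exp (-(3 * ε / 4 * B))) +
      4 * E * ((3 * ε / 4 * B) ^ 0 * Real.exp (-(3 * ε / 4 * B))) +
      B ^ 0 * Real.exp (-B)) atTop (𝓝 (2 * E * K / (3 * ε / 4) * 0 + 4 * E * 0 + 0)) :=
    ((h2.const_mul _).add (h3.const_mul _)).add h4
  have h6 : (fun B : ℝ => 2 * E * K / (3 * ε / 4) *
      ((3 * ε / 4 * B) ^ 1 * Real.exp (-(3 * ε / 4 * B))) +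
      4 * E * ((3 * ε / 4 * B) ^ 0 * Real.exp (-(3 * ε / 4 * B))) +
      B ^ 0 * Real.exp (-B)) =
      fun B : ℝ => 2 * (K * B + 2) * E * Real.exp (-(3 * ε / 4) * B) + Real.exp (-B) := by
    funext B
    rw [neg_mul]
    field_simp
    ring
  rw [h6] at h5
  simp only [mul_zero, add_zero] at h5
  exact h5.eventually (gt_mem_nhds one_pos)

theorem near_max_dense (f : ℂ → ℂ) (hf : Differentiable ℂ f) (hnc : ∃ z w : ℂ, f z ≠ f w)
    (Δ Δ' : ℝ) (h0 : 0 < Δ') (hΔ : Δ < Δ') (hd : HasMaxDensity {n | iteratedDeriv n f 0 ≠ 0} Δ) :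
    ∀ ε : ℝ, 0 < ε → ∀ K : ℝ, 0 < K → ∃ B₀ : ℝ, ∀ x : ℝ, B₀ ≤ BB f x →
      BB f (x + 2) ≤ K * BB f x → ∀ a : ℝ, ∃ y ∈ Set.Icc a (a + 2 * Real.pi * Δ'),
        Real.exp ((1 - ε) * BB f x) ≤ ‖f (Complex.exp (x + y * I))‖ := by
  intro ε hε K hK
  -- the densities
  obtain ⟨D₁, hD₁0, hD₁, hD₁'⟩ : ∃ D₁ : ℝ, 0 < D₁ ∧ Δ < D₁ ∧ D₁ < Δ' := by
    refine ⟨(max Δ 0 + Δ') / 2, ?_, ?_, ?_⟩
    · have := le_max_right Δ 0
      linarith
    · have := le_max_left Δ 0
      linarith
    · have : max Δ 0 < Δ' := max_lt hΔ h0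
      linarith
  obtain ⟨D₂, hirr, hD₂, hD₂'⟩ := exists_irrational_btwn hD₁'
  have hD₂0 : 0 < D₂ := hD₁0.trans hD₂
  have hmatch := matching _ D₁ D₂ hD₁0 hD₂ (count_bound _ Δ D₁ hD₁0 hD₁ hd)
  set ε₁ : ℝ := min ε (1 / 2) with hε₁
  have hε₁0 : 0 < ε₁ := lt_min hε (by norm_num)
  have hε₁ε : ε₁ ≤ ε := min_le_left _ _
  have hε₁h : ε₁ ≤ 1 / 2 := min_le_right _ _
  set ε' : ℝ := ε₁ / (4 * K) with hε'
  have hε'0 : 0 < ε' := by positivity
  obtain ⟨T, hT⟩ := coeff_bound _ D₂ hD₂0 hirr hmatch ε' hε'0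
  obtain ⟨B₁, hB₁⟩ := eventually_atTop.1 (Dense_growth K ε₁ hε₁0 (Real.exp ε'))
  refine ⟨max (max T B₁) 1, ?_⟩
  intro x hx hxK a
  set B : ℝ := BB f x with hBdef
  have hBT : T ≤ B := (le_max_left _ _).trans ((le_max_left _ _).trans hx)
  have hBB₁ : B₁ ≤ B := (le_max_right _ _).trans ((le_max_left _ _).trans hx)
  have hB1 : 1 ≤ B := (le_max_right _ _).trans hx
  have hBmono : B ≤ BB f (x + 2) := BB_mono hf hnc (by linarith)
  by_contra hcon
  push Not at hcon
  set N : ℕ := ⌈BB f (x + 2)⌉₊ with hN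
  have hN1 : BB f (x + 2) ≤ N := Nat.le_ceil _
  have hN2 : (N : ℝ) < BB f (x + 2) + 1 := Nat.ceil_lt_add_one (by linarith)
  have hN3 : (N : ℝ) ≤ K * B + 1 := by linarith
  have hTN : T ≤ (N : ℝ) := by linarith
  -- the coefficients
  set A : ℕ → ℂ := fun m => iteratedDeriv m f 0 / (m.factorial : ℂ) with hA
  set c : ℕ → ℂ := fun m => A m * (Real.exp x : ℂ) ^ m with hc
  have hcΛ : ∀ m, m ∉ {n | iteratedDeriv n f 0 ≠ 0} → c m = 0 := by
    intro m hm
    have h1 : iteratedDeriv m f 0 = 0 := by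
      by_contra h
      exact hm h
    simp only [hc, hA, h1, zero_div, zero_mul]
  have hcn : ∀ m, ‖c m‖ = ‖A m‖ * Real.exp x ^ m := by
    intro m
    simp only [hc]
    rw [norm_mul, norm_pow, Complex.norm_real, Real.norm_eq_abs, abs_of_pos (Real.exp_pos x)]
  have hMM : MM f (Real.exp (x + 2)) = Real.exp (BB f (x + 2)) := by
    rw [BB, Real.exp_log (MM_pos hf hnc (Real.exp_pos _))]
  have hcb : ∀ m, ‖c m‖ ≤ Real.exp (BB f (x + 2)) * Real.exp (-2) ^ m := by
    intro m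
    have h1 := cauchy_le hf m (Real.exp (x + 2)) (Real.exp_pos _)
    rw [hMM] at h1
    have h2 : Real.exp (x + 2) ^ m * Real.exp (-2) ^ m = Real.exp x ^ m := by
      rw [← mul_pow, ← Real.exp_add]
      congr 2
      ring
    calc ‖c m‖ = ‖A m‖ * Real.exp (x + 2) ^ m * Real.exp (-2) ^ m := by
          rw [hcn, mul_assoc, h2]
      _ ≤ Real.exp (BB f (x + 2)) * Real.exp (-2) ^ m :=
          mul_le_mul_of_nonneg_right h1 (by positivity)
  have hr0 : 0 ≤ Real.exp (-2) := (Real.exp_pos _).le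
  have hr1 : Real.exp (-2) < 1 := lt_of_le_of_lt Dense_exp_neg_two (by norm_num)
  have hgeo : Summable (fun m : ℕ => Real.exp (BB f (x + 2)) * Real.exp (-2) ^ m) :=
    (summable_geometric_of_lt_one hr0 hr1).mul_left _
  have hcs : Summable (fun m => ‖c m‖) :=
    Summable.of_nonneg_of_le (fun m => norm_nonneg _) hcb hgeo
  have hgeoN : Summable (fun m : ℕ => Real.exp (BB f (x + 2)) * Real.exp (-2) ^ (m + N + 1)) := by
    have := (summable_nat_add_iff (N + 1)).2 hgeo
    simpa [add_assoc] using this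
  have hcsN : Summable (fun m => ‖c (m + N + 1)‖) := by
    have := (summable_nat_add_iff (N + 1)).2 hcs
    simpa [add_assoc] using this
  have htail : ∑' m, ‖c (m + N + 1)‖ ≤ 1 := by
    have h1 : ∑' m, ‖c (m + N + 1)‖ ≤
        ∑' m : ℕ, Real.exp (BB f (x + 2)) * Real.exp (-2) ^ (m + N + 1) :=
      hcsN.tsum_le_tsum (fun m => hcb (m + N + 1)) hgeoN
    have h2 : ∑' m : ℕ, Real.exp (BB f (x + 2)) * Real.exp (-2) ^ (m + N + 1) =
        Real.exp (BB f (x + 2)) * Real.exp (-2) ^ (N + 1) * (1 - Real.exp (-2))⁻¹ := by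
      rw [← tsum_geometric_of_lt_one hr0 hr1, ← tsum_mul_left]
      apply tsum_congr
      intro m
      rw [add_assoc, pow_add]
      ring
    have h3 : Real.exp (BB f (x + 2)) * Real.exp (-2) ^ (N + 1) ≤ Real.exp (-2) := by
      rw [pow_succ, ← mul_assoc, ← Real.exp_nat_mul, ← Real.exp_add]
      have h4 : Real.exp (BB f (x + 2) + (N : ℝ) * -2) ≤ 1 := by
        rw [Real.exp_le_one_iff]
        have : (0 : ℝ) ≤ N := Nat.cast_nonneg _
        linarith
      calc Real.exp (BB f (x + 2) + (N : ℝ) * -2) * Real.exp (-2) ≤ 1 * Real.exp (-2) :=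
            mul_le_mul_of_nonneg_right h4 hr0
        _ = Real.exp (-2) := one_mul _
    have h5 := Dense_exp_neg_two
    have h6 : 0 < 1 - Real.exp (-2) := by linarith
    calc ∑' m, ‖c (m + N + 1)‖ ≤
        Real.exp (BB f (x + 2)) * Real.exp (-2) ^ (N + 1) * (1 - Real.exp (-2))⁻¹ := by
          rw [← h2]; exact h1
      _ ≤ Real.exp (-2) * (1 - Real.exp (-2))⁻¹ :=
          mul_le_mul_of_nonneg_right h3 (by positivity)
      _ ≤ 1 := by
          rw [← div_eq_mul_inv, div_le_one h6]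
          linarith
  set Q : ℝ := Real.exp ((1 - ε₁) * B) with hQ
  have hbound : ∀ y ∈ Set.Icc a (a + 2 * Real.pi * D₂),
      ‖∑' m : ℕ, c m * Complex.exp (I * m * y)‖ ≤ Q := by
    intro y hy
    have h1 := hcon y ⟨hy.1, hy.2.trans (by
      have := mul_le_mul_of_nonneg_left hD₂'.le (by positivity : (0 : ℝ) ≤ 2 * Real.pi)
      linarith)⟩
    have h2 : ∑' m : ℕ, c m * Complex.exp (I * m * y) = f (Complex.exp (x + y * I)) := by
      rw [← (taylor_hasSum hf (Complex.exp (x + y * I))).tsum_eq]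
      apply tsum_congr
      intro m
      simp only [hc, hA]
      rw [mul_assoc]
      congr 1
      rw [Complex.ofReal_exp, ← Complex.exp_nat_mul, ← Complex.exp_nat_mul, ← Complex.exp_add]
      congr 1
      ring
    rw [h2]
    refine h1.le.trans ?_
    rw [hQ]
    apply Real.exp_le_exp.2
    apply mul_le_mul_of_nonneg_right _ (by linarith)
    linarith
  have hcoef : ∀ n ∈ Finset.range (N + 1), ‖c n‖ ≤ Real.exp (ε' * N) * (Q + 1) := by
    intro n hn
    rw [Finset.mem_range] at hn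
    exact hT N hTN n (by omega) c hcΛ hcs htail a Q hbound
  -- the maximum
  have hMMx : MM f (Real.exp x) = Real.exp B := by
    rw [hBdef, BB, Real.exp_log (MM_pos hf hnc (Real.exp_pos _))]
  obtain ⟨z, hz, hfz⟩ := exists_eq_MM hf (Real.exp x) (Real.exp_pos x).le
  have hle1 : Real.exp B ≤ ∑' m, ‖c m‖ := by
    rw [← hMMx, ← hfz, ← (taylor_hasSum hf z).tsum_eq]
    have h1 : ∀ m : ℕ, ‖iteratedDeriv m f 0 / (m.factorial : ℂ) * z ^ m‖ = ‖c m‖ := by
      intro m
      rw [hcn, norm_mul, norm_pow, hz]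
    have h2 : Summable (fun m : ℕ => ‖iteratedDeriv m f 0 / (m.factorial : ℂ) * z ^ m‖) := by
      simp only [h1]
      exact hcs
    have h3 := norm_tsum_le_tsum_norm h2
    simp only [h1] at h3
    exact h3
  have hle2 : ∑' m, ‖c m‖ ≤ (N + 1) * (Real.exp (ε' * N) * (Q + 1)) + 1 := by
    rw [← hcs.sum_add_tsum_nat_add (N + 1)]
    apply add_le_add
    · refine (Finset.sum_le_sum hcoef).trans ?_
      simp
    · simpa [add_assoc] using htail
  have hQ1 : 1 ≤ Q := by
    rw [hQ]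
    apply Real.one_le_exp
    apply mul_nonneg <;> linarith
  have hexp : Real.exp (ε' * N) ≤ Real.exp ε' * Real.exp (ε₁ / 4 * B) := by
    rw [← Real.exp_add]
    apply Real.exp_le_exp.2
    calc ε' * N ≤ ε' * (K * B + 1) := mul_le_mul_of_nonneg_left hN3 hε'0.le
      _ = ε' + ε₁ / 4 * B := by
          rw [hε']
          field_simp
          ring
  have hfin : Real.exp B < Real.exp B := by
    calc Real.exp B ≤ (N + 1) * (Real.exp (ε' * N) * (Q + 1)) + 1 := hle1.trans hle2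
      _ ≤ (K * B + 2) * ((Real.exp ε' * Real.exp (ε₁ / 4 * B)) * (2 * Q)) + 1 := by
          have h1 : (N : ℝ) + 1 ≤ K * B + 2 := by linarith
          have h2 : Real.exp (ε' * N) * (Q + 1) ≤
              (Real.exp ε' * Real.exp (ε₁ / 4 * B)) * (2 * Q) :=
            mul_le_mul hexp (by linarith) (by linarith) (by positivity)
          have h3 : 0 ≤ Real.exp (ε' * N) * (Q + 1) := by positivity
          have h4 : 0 ≤ K * B + 2 := by
            have : 0 ≤ K * B := mul_nonneg hK.le (by linarith)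
            linarith
          have := mul_le_mul h1 h2 h3 h4
          linarith
      _ = Real.exp B * (2 * (K * B + 2) * Real.exp ε' * Real.exp (-(3 * ε₁ / 4) * B) +
          Real.exp (-B)) := by
          have h1 : Real.exp B * Real.exp (-B) = 1 := by
            rw [← Real.exp_add, add_neg_cancel, Real.exp_zero]
          have h2 : Real.exp (ε₁ / 4 * B) * Q = Real.exp B * Real.exp (-(3 * ε₁ / 4) * B) := by
            rw [hQ, ← Real.exp_add, ← Real.exp_add]
            congr 1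
            ring
          calc (K * B + 2) * ((Real.exp ε' * Real.exp (ε₁ / 4 * B)) * (2 * Q)) + 1
              = 2 * (K * B + 2) * Real.exp ε' * (Real.exp (ε₁ / 4 * B) * Q) + 1 := by ring
            _ = 2 * (K * B + 2) * Real.exp ε' * (Real.exp B * Real.exp (-(3 * ε₁ / 4) * B)) +
                Real.exp B * Real.exp (-B) := by rw [h2, h1]
            _ = _ := by ring
      _ < Real.exp B * 1 := mul_lt_mul_of_pos_left (hB₁ B hBB₁) (Real.exp_pos B)
      _ = Real.exp B := mul_one _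
  exact lt_irrefl _ hfin

end Pool.Agent.LibAV71
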