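import Pool.Agent.LibAV71.Defs

/-! Task T2: a curve tending to infinity gives crossings of vertical strips in the logarithmic plane. -/

set_option autoImplicit false

open Filter Topology Complex

namespace Pool.Agent.LibAV71

/-- a continuous real function that starts below `a` and tends to infinity crosses `[a,b]` -/
theorem Lift_crossing (r : ℝ → ℝ) (hr : Continuous r) (T a b : ℝ) (hT : r T < a) (hab : a < b)
    (hinf : Tendsto r atTop atTop) :
    ∃ ta tb : ℝ, T ≤ ta ∧ ta ≤ tb ∧ r ta = a ∧ r tb = b ∧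
      ∀ t ∈ Set.Icc ta tb, a ≤ r t ∧ r t ≤ b := by
  obtain ⟨M, hM1, hM2⟩ : ∃ M, T ≤ M ∧ b ≤ r M :=
    ((eventually_ge_atTop T).and (hinf.eventually_ge_atTop b)).exists
  -- first time at level b
  have hSc : IsCompact (Set.Icc T M ∩ {t | b ≤ r t}) :=
    isCompact_Icc.inter_right (isClosed_le continuous_const hr)
  obtain ⟨tb, ⟨⟨htb1, htb2⟩, htb3⟩, htb4⟩ := hSc.exists_isLeast ⟨M, ⟨hM1, le_rfl⟩, hM2⟩
  have hTb : r T < b := hT.trans hab
  have hrtb : r tb = b := by
    have hiv := intermediate_value_Icc htb1 hr.continuousOn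
    obtain ⟨c, hc, hc2⟩ := hiv ⟨hTb.le, htb3⟩
    have := htb4 ⟨⟨hc.1, hc.2.trans htb2⟩, hc2.ge⟩
    have hcc : c = tb := le_antisymm hc.2 this
    rw [← hcc]; exact hc2
  have hS'c : IsCompact (Set.Icc T tb ∩ {t | r t ≤ a}) :=
    isCompact_Icc.inter_right (isClosed_le hr continuous_const)
  obtain ⟨ta, ⟨⟨hta1, hta2⟩, hta3⟩, hta4⟩ := hS'c.exists_isGreatest ⟨T, ⟨le_rfl, htb1⟩, hT.le⟩
  have hrta : r ta = a := by
    have hiv := intermediate_value_Icc hta2 hr.continuousOn
    obtain ⟨c, hc, hc2⟩ := hiv ⟨hta3, by rw [hrtb]; exact hab.le⟩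
    have := hta4 ⟨⟨hta1.trans hc.1, hc.2⟩, hc2.le⟩
    have hcc : c = ta := le_antisymm this hc.1
    rw [← hcc]; exact hc2
  refine ⟨ta, tb, hta1, hta2, hrta, hrtb, ?_⟩
  intro t ht
  constructor
  · by_contra hcon
    push Not at hcon
    have h1 := hta4 ⟨⟨hta1.trans ht.1, ht.2⟩, hcon.le⟩
    have : t = ta := le_antisymm h1 ht.1
    rw [this, hrta] at hcon
    exact lt_irrefl _ hcon
  · by_contra hcon
    push Not at hcon
    have h1 := htb4 ⟨⟨hta1.trans ht.1, ht.2.trans htb2⟩, hcon.le⟩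
    have : t = tb := le_antisymm ht.2 h1
    rw [this, hrtb] at hcon
    exact lt_irrefl _ hcon

theorem strip_crossing (γ : ℝ → ℂ) (hγ : Continuous γ)
    (hinf : Tendsto (fun t : ℝ => ‖γ t‖) atTop atTop) (t₀ : ℝ) :
    ∃ x₀ : ℝ, ∀ a b : ℝ, x₀ ≤ a → a < b → ∃ h : ℝ → ℂ, ContinuousOn h (Set.Icc 0 1) ∧
      (h 0).re = a ∧ (h 1).re = b ∧ ∀ t ∈ Set.Icc (0 : ℝ) 1,
        a ≤ (h t).re ∧ (h t).re ≤ b ∧ ∃ τ : ℝ, t₀ ≤ τ ∧ Complex.exp (h t) = γ τ := by
  obtain ⟨T₁, hT₁⟩ := eventually_atTop.1 (hinf.eventually_ge_atTop (1 : ℝ))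
  set T := max t₀ T₁ with hTdef
  have hne : ∀ t, γ (max T t) ≠ 0 := by
    intro t h0
    have h1 := hT₁ (max T t) ((le_max_right _ _).trans (le_max_left _ _))
    simp only [h0, norm_zero] at h1
    linarith
  have hUc : IsSimplyConnected (Set.univ : Set ℝ) := by
    have hc : ContractibleSpace (Set.univ : Set ℝ) :=
      Convex.contractibleSpace convex_univ ⟨0, trivial⟩
    exact SimplyConnectedSpace.ofContractible _
  obtain ⟨f, hf, hfe⟩ := exists_continuousOn_eqOn_exp_comp (X := ℝ) hUc isOpen_univ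
    (g := fun t => γ (max T t)) (by fun_prop) (by
      rintro ⟨t, _, ht⟩
      exact hne t ht)
  have hf' : Continuous f := continuousOn_univ.1 hf
  have hexp : ∀ t, Complex.exp (f t) = γ (max T t) := fun t => hfe (Set.mem_univ t)
  have hre : ∀ t, (f t).re = Real.log ‖γ (max T t)‖ := by
    intro t
    rw [← hexp t, Complex.norm_exp, Real.log_exp]
  have hrinf : Tendsto (fun t => (f t).re) atTop atTop := by
    simp_rw [hre]
    apply Real.tendsto_log_atTop.comp
    exact hinf.comp (tendsto_atTop_mono (fun t => le_max_right T t) tendsto_id)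
  refine ⟨(f T).re + 1, ?_⟩
  intro a b ha hab
  obtain ⟨ta, tb, h1, h2, h3, h4, h5⟩ := Lift_crossing (fun t => (f t).re)
    (Complex.continuous_re.comp hf') T a b (by show (f T).re < a; linarith) hab hrinf
  refine ⟨fun s => f (ta + s * (tb - ta)), (by fun_prop), ?_, ?_, ?_⟩
  · simp only [zero_mul, add_zero]; exact h3
  · have : ta + 1 * (tb - ta) = tb := by ring
    simp only [this]; exact h4
  · intro s hs
    have hmem : ta + s * (tb - ta) ∈ Set.Icc ta tb := by
      constructor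
      · nlinarith [hs.1]
      · nlinarith [hs.2]
    obtain ⟨h6, h7⟩ := h5 _ hmem
    refine ⟨h6, h7, max T (ta + s * (tb - ta)), ?_, hexp _⟩
    exact (le_max_left t₀ T₁).trans (le_max_left _ _)

end Pool.Agent.LibAV71
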