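import Pool.Agent.LibAV71.MaxMod

/-! Task F2: the order of an entire function. -/

set_option autoImplicit false

open Filter Topology Complex

namespace Pool.Agent.LibAV71

/-- order at most `ρ` -/
def OrdLe (f : ℂ → ℂ) (ρ : ℝ) : Prop :=
  ∀ ε : ℝ, 0 < ε → ∀ᶠ r : ℝ in atTop, ∀ z : ℂ, ‖z‖ = r → ‖f z‖ ≤ Real.exp (r ^ (ρ + ε))

/-- order at least `ρ` -/
def OrdGe (f : ℂ → ℂ) (ρ : ℝ) : Prop :=
  ∀ ε : ℝ, 0 < ε → ∃ᶠ r : ℝ in atTop, ∃ z : ℂ, ‖z‖ = r ∧ Real.exp (r ^ (ρ - ε)) ≤ ‖f z‖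

theorem Order_nonneg (f : ℂ → ℂ) (hf : Differentiable ℂ f) (hnc : ∃ z w : ℂ, f z ≠ f w) (ρ : ℝ)
    (h : OrdLe f ρ) : 0 ≤ ρ := by
  by_contra hneg
  push Not at hneg
  have h1 := h (-ρ / 2) (by linarith)
  have h2 := (MM_tendsto hf hnc).eventually (eventually_gt_atTop (Real.exp 1))
  obtain ⟨r, hr1, hr2, hr3⟩ := (h1.and (h2.and (eventually_ge_atTop (1 : ℝ)))).exists
  obtain ⟨z, hz1, hz2⟩ := exists_eq_MM hf r (by linarith)
  have h3 := hr1 z hz1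
  rw [hz2] at h3
  have h4 : r ^ (ρ + -ρ / 2) ≤ 1 := by
    apply Real.rpow_le_one_of_one_le_of_nonpos hr3
    linarith
  have h5 : Real.exp (r ^ (ρ + -ρ / 2)) ≤ Real.exp 1 := Real.exp_le_exp.mpr h4
  linarith

/-- a non-constant entire function of order at most `ρ` has an exact order `ρ₀ ∈ [0, ρ]` -/
theorem exists_order (f : ℂ → ℂ) (hf : Differentiable ℂ f) (hnc : ∃ z w : ℂ, f z ≠ f w) (ρ : ℝ)
    (h : OrdLe f ρ) : ∃ ρ₀ : ℝ, 0 ≤ ρ₀ ∧ ρ₀ ≤ ρ ∧ OrdLe f ρ₀ ∧ OrdGe f ρ₀ := by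
  set S : Set ℝ := {a | OrdLe f a} with hS
  have hne : S.Nonempty := ⟨ρ, h⟩
  have hbd : BddBelow S := ⟨0, fun a ha => Order_nonneg f hf hnc a ha⟩
  refine ⟨sInf S, ?_, csInf_le hbd h, ?_, ?_⟩
  · exact le_csInf hne (fun a ha => Order_nonneg f hf hnc a ha)
  · intro ε hε
    obtain ⟨a, ha, hlt⟩ := exists_lt_of_csInf_lt hne (show sInf S < sInf S + ε / 2 by linarith)
    filter_upwards [ha (ε / 2) (by linarith), eventually_ge_atTop (1 : ℝ)] with r hr1 hr2 z hz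
    refine (hr1 z hz).trans ?_
    apply Real.exp_le_exp.mpr
    apply Real.rpow_le_rpow_of_exponent_le hr2
    linarith
  · intro ε hε
    by_contra hcon
    rw [not_frequently] at hcon
    have hmem : sInf S - ε ∈ S := by
      intro ε' hε'
      filter_upwards [hcon, eventually_ge_atTop (1 : ℝ)] with r hr1 hr2 z hz
      push Not at hr1
      refine (hr1 z hz).le.trans ?_
      apply Real.exp_le_exp.mpr
      apply Real.rpow_le_rpow_of_exponent_le hr2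
      linarith
    have := csInf_le hbd hmem
    linarith

theorem log_BB_le (f : ℂ → ℂ) (hf : Differentiable ℂ f) (hnc : ∃ z w : ℂ, f z ≠ f w) (ρ : ℝ)
    (h : OrdLe f ρ) : ∀ ε : ℝ, 0 < ε → ∀ᶠ x in atTop, Real.log (BB f x) ≤ (ρ + ε) * x := by
  intro ε hε
  have h1 := Real.tendsto_exp_atTop.eventually (h ε hε)
  filter_upwards [h1, (BB_tendsto hf hnc).eventually (eventually_gt_atTop 0)] with x hx1 hx2
  obtain ⟨z, hz1, hz2⟩ := exists_eq_MM hf (Real.exp x) (Real.exp_pos x).le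
  have h3 := hx1 z hz1
  rw [hz2] at h3
  have h4 : BB f x ≤ Real.exp x ^ (ρ + ε) := by
    unfold BB
    have := Real.log_le_log (MM_pos hf hnc (Real.exp_pos x)) h3
    rwa [Real.log_exp] at this
  have h5 := Real.log_le_log hx2 h4
  rwa [Real.log_rpow (Real.exp_pos x), Real.log_exp] at h5

theorem log_BB_ge (f : ℂ → ℂ) (hf : Differentiable ℂ f) (hnc : ∃ z w : ℂ, f z ≠ f w) (ρ : ℝ)
    (h : OrdGe f ρ) : ∀ ε : ℝ, 0 < ε → ∃ᶠ x in atTop, (ρ - ε) * x ≤ Real.log (BB f x) := by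
  intro ε hε
  have h1 := h ε hε
  rw [← Real.map_exp_atTop, frequently_map] at h1
  refine h1.mono ?_
  rintro x ⟨z, hz1, hz2⟩
  have h2 := norm_le_MM hf z
  rw [hz1] at h2
  have h3 : Real.exp x ^ (ρ - ε) ≤ BB f x := by
    unfold BB
    rw [Real.le_log_iff_exp_le (MM_pos hf hnc (Real.exp_pos x))]
    exact hz2.trans h2
  have h4 := Real.log_le_log (Real.rpow_pos_of_pos (Real.exp_pos x) _) h3
  rwa [Real.log_rpow (Real.exp_pos x), Real.log_exp] at h4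

theorem density_nonneg (Λ : Set ℕ) (Δ : ℝ) (hd : HasMaxDensity Λ Δ) : 0 ≤ Δ := by
  refine ge_of_tendsto hd ?_
  have hev : ∀ᶠ ξ : ℝ in 𝓝[<] (1 : ℝ), 0 < ξ ∧ ξ < 1 := by
    have h1 : ∀ᶠ ξ : ℝ in 𝓝[<] (1 : ℝ), 0 < ξ :=
      (eventually_gt_nhds (show (0 : ℝ) < 1 by norm_num)).filter_mono nhdsWithin_le_nhds
    have h2 : ∀ᶠ ξ : ℝ in 𝓝[<] (1 : ℝ), ξ < 1 := eventually_mem_nhdsWithin
    exact h1.and h2
  filter_upwards [hev] with ξ hξ
  rw [Filter.limsup_eq]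
  apply Real.sInf_nonneg
  intro a ha
  have ha' : ∀ᶠ t : ℝ in atTop, (Nc Λ t - Nc Λ (ξ * t)) / ((1 - ξ) * t) ≤ a := ha
  obtain ⟨t, ht1, ht2⟩ := (ha'.and (eventually_gt_atTop (0 : ℝ))).exists
  refine le_trans ?_ ht1
  apply div_nonneg
  · have hmono : Nc Λ (ξ * t) ≤ Nc Λ t := by
      unfold Nc
      have hfin : Finite {n : ℕ // n ∈ Λ ∧ (n : ℝ) ≤ t} := by
        have : Set.Finite {n : ℕ | n ∈ Λ ∧ (n : ℝ) ≤ t} := by
          apply Set.Finite.subset (Set.finite_Iic ⌊t⌋₊)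
          intro n hn
          exact Nat.le_floor hn.2
        exact this
      have hle : ξ * t ≤ t := by nlinarith [hξ.1, hξ.2]
      have := Nat.card_le_card_of_injective
        (fun n : {n : ℕ // n ∈ Λ ∧ (n : ℝ) ≤ ξ * t} =>
          (⟨n.1, n.2.1, n.2.2.trans hle⟩ : {n : ℕ // n ∈ Λ ∧ (n : ℝ) ≤ t}))
        (by
          intro a b hab
          have := congrArg Subtype.val hab
          exact Subtype.ext this)
      exact_mod_cast this
    linarith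
  · apply mul_nonneg
    · linarith [hξ.2]
    · exact ht2.le

end Pool.Agent.LibAV71
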