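import Pool.Agent.LibAV71.Defs

/-! Task B2: Polya peaks. -/

set_option autoImplicit false

open Filter Topology

namespace Pool.Agent.LibAV71

theorem peaks (b : ℝ → ℝ) (x₁ : ℝ) (hb : ContinuousOn b (Set.Ici x₁)) (ρ : ℝ)
    (h1 : ∀ ε : ℝ, 0 < ε → ∀ᶠ x in atTop, b x ≤ (ρ + ε) * x)
    (h2 : ∀ ε : ℝ, 0 < ε → ∃ᶠ x in atTop, (ρ - ε) * x ≤ b x) :
    ∀ σ : ℝ, 0 < σ → ∀ x₀ : ℝ, ∃ xs : ℝ, x₀ ≤ xs ∧ x₁ ≤ xs ∧
      ∀ x, x₁ ≤ x → b x ≤ b xs + ρ * (x - xs) + σ * |x - xs| := by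
  intro σ hσ x₀
  -- the bound on the initial segment
  obtain ⟨C, hC⟩ : ∃ C, ∀ x ∈ Set.Icc x₁ (max x₀ x₁), b x - ρ * x ≤ C := by
    have hc : ContinuousOn (fun x => b x - ρ * x) (Set.Icc x₁ (max x₀ x₁)) :=
      (hb.mono fun x hx => hx.1).sub (by fun_prop)
    obtain ⟨C, hC⟩ := (isCompact_Icc.image_of_continuousOn hc).bddAbove
    exact ⟨C, fun x hx => hC (Set.mem_image_of_mem _ hx)⟩
  -- choice of `R`
  obtain ⟨R, hR1, hR2⟩ := ((h2 (σ / 2) (by positivity)).and_eventually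
    (eventually_gt_atTop (max (max x₀ x₁) (2 / σ * (C + σ * max x₀ x₁))))).exists
  obtain ⟨hR3, hR4⟩ := max_lt_iff.1 hR2
  have hRC : C - σ * (R - max x₀ x₁) < b R - ρ * R := by
    have h3 : C + σ * max x₀ x₁ < σ / 2 * R := by
      have h4 : 2 / σ * (C + σ * max x₀ x₁) * (σ / 2) < R * (σ / 2) :=
        mul_lt_mul_of_pos_right hR4 (by positivity)
      have h5 : 2 / σ * (C + σ * max x₀ x₁) * (σ / 2) = C + σ * max x₀ x₁ := by
        field_simp
      linarith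
    nlinarith
  have hRx1 : x₁ < R := lt_of_le_of_lt (le_max_right _ _) hR3
  -- choice of `M`
  obtain ⟨M0, hM0⟩ := eventually_atTop.1 (h1 (σ / 2) (by positivity))
  obtain ⟨M, hM⟩ : ∃ M, M = max (max M0 R) (2 / σ * (σ * R - (b R - ρ * R))) := ⟨_, rfl⟩
  have hMR : R ≤ M := by rw [hM]; exact le_trans (le_max_right _ _) (le_max_left _ _)
  have hMM : M0 ≤ M := by rw [hM]; exact le_trans (le_max_left _ _) (le_max_left _ _)
  have hM2 : 2 / σ * (σ * R - (b R - ρ * R)) ≤ M := by rw [hM]; exact le_max_right _ _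
  have hfar : ∀ x, M ≤ x → b x - ρ * x - σ * |x - R| ≤ b R - ρ * R := by
    intro x hx
    have h3 := hM0 x (hMM.trans hx)
    rw [abs_of_nonneg (by linarith)]
    have h4 : 2 / σ * (σ * R - (b R - ρ * R)) * (σ / 2) ≤ x * (σ / 2) :=
      mul_le_mul_of_nonneg_right (hM2.trans hx) (by positivity)
    have h5 : 2 / σ * (σ * R - (b R - ρ * R)) * (σ / 2) = σ * R - (b R - ρ * R) := by
      field_simp
    nlinarith
  have hcont : ContinuousOn (fun x => b x - ρ * x - σ * |x - R|) (Set.Icc x₁ M) := by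
    refine ((hb.mono fun x hx => hx.1).sub (by fun_prop)).sub (by fun_prop)
  obtain ⟨xs, hxs, hmax⟩ := isCompact_Icc.exists_isMaxOn
    ⟨R, ⟨hRx1.le, hMR⟩⟩ hcont
  have hmaxR : b R - ρ * R ≤ b xs - ρ * xs - σ * |xs - R| := by
    have := hmax (show R ∈ Set.Icc x₁ M from ⟨hRx1.le, hMR⟩)
    simpa using this
  have hall : ∀ x, x₁ ≤ x → b x - ρ * x - σ * |x - R| ≤ b xs - ρ * xs - σ * |xs - R| := by
    intro x hx
    rcases le_total x M with h | h
    · exact hmax (show x ∈ Set.Icc x₁ M from ⟨hx, h⟩)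
    · exact (hfar x h).trans hmaxR
  refine ⟨xs, ?_, hxs.1, ?_⟩
  · by_contra hlt
    push Not at hlt
    have hxm : xs ≤ max x₀ x₁ := hlt.le.trans (le_max_left _ _)
    have h3 := hC xs ⟨hxs.1, hxm⟩
    have h4 : |xs - R| = R - xs := by
      rw [abs_of_nonpos (by linarith)]; ring
    rw [h4] at hmaxR
    nlinarith
  · intro x hx
    have h3 := hall x hx
    have h4 : |x - R| ≤ |x - xs| + |xs - R| := by
      have := abs_add_le (x - xs) (xs - R)
      simpa using this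
    nlinarith
end Pool.Agent.LibAV71
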