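import Pool.Agent.LibAV71.Cross

/-! Task T3: no connected component of `posSet X u` contains points on the imaginary axis going to both
ends when `u` vanishes on a path crossing the strip. -/

set_option autoImplicit false

open Filter Topology Complex

namespace Pool.Agent.LibAV71

theorem sep (X : ℝ) (hX : 0 < X) (u : ℂ → ℝ) (hu : Continuous u) (h : ℝ → ℂ)
    (hh : ContinuousOn h (Set.Icc 0 1)) (h0 : (h 0).re = -X) (h1 : (h 1).re = X)
    (hz : ∀ t ∈ Set.Icc (0 : ℝ) 1, u (h t) ≤ 0)
    (y : ℤ → ℝ) (η L : ℝ) (hη : 0 < η)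
    (hy : ∀ k : ℤ, (k : ℝ) * η ≤ y k ∧ y k ≤ (k : ℝ) * η + L) (hpos : ∀ k, 0 < u (y k * I))
    (hcomp : ∀ k : ℤ, (y (k + 1) : ℂ) * I ∈ connectedComponentIn (posSet X u) ((y k : ℂ) * I)) :
    False := by
  -- bound of the imaginary part of the path
  obtain ⟨B, hB⟩ : ∃ B : ℝ, ∀ t ∈ Set.Icc (0 : ℝ) 1, ‖h t‖ ≤ B :=
    isCompact_Icc.exists_bound_of_continuousOn hh
  have him : ∀ t ∈ Set.Icc (0 : ℝ) 1, |(h t).im| ≤ B := fun t ht =>
    (Complex.abs_im_le_norm _).trans (hB t ht)
  have hopen : IsOpen (posSet X u) := by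
    apply IsOpen.inter
    · exact isOpen_lt (Complex.continuous_re.abs) continuous_const
    · exact isOpen_lt continuous_const hu
  have hmem : ∀ k, (y k : ℂ) * I ∈ posSet X u := by
    intro k
    refine ⟨?_, hpos k⟩
    simpa using hX
  set Cc : Set ℂ := connectedComponentIn (posSet X u) ((y 0 : ℂ) * I) with hCc
  have hsame : ∀ k : ℤ, connectedComponentIn (posSet X u) ((y k : ℂ) * I) = Cc := by
    intro k
    induction k using Int.induction_on with
    | zero => rfl
    | succ k ih => rw [← connectedComponentIn_eq (hcomp k)]; exact ih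
    | pred k ih =>
      have h2 := connectedComponentIn_eq (hcomp (-(k : ℤ) - 1))
      rw [sub_add_cancel] at h2
      rw [h2]
      exact ih
  have hin : ∀ k : ℤ, (y k : ℂ) * I ∈ Cc := by
    intro k
    rw [← hsame k]
    exact mem_connectedComponentIn (hmem k)
  have hCo : IsOpen Cc := hopen.connectedComponentIn
  have hCconn : IsConnected Cc := ⟨⟨_, hin 0⟩, isPreconnected_connectedComponentIn⟩
  have hCp : IsPathConnected Cc := (hCo.isConnected_iff_isPathConnected).1 hCconn
  -- choice of the indices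
  obtain ⟨n, hn⟩ := exists_nat_gt ((B + 1 + |L|) / η)
  have hn' : B + 1 + |L| < n * η := by
    rwa [div_lt_iff₀ hη] at hn
  have hlow : y (-(n : ℤ)) < -B := by
    have h2 := (hy (-(n : ℤ))).2
    push_cast at h2
    have := le_abs_self L
    linarith
  have hhigh : B < y (n : ℤ) := by
    have h2 := (hy (n : ℤ)).1
    push_cast at h2
    have := abs_nonneg L
    linarith
  obtain ⟨γ, hγ⟩ := hCp.joinedIn _ (hin (-(n : ℤ))) _ (hin (n : ℤ))
  let v : ℝ → ℂ := γ.extend
  have hv : Continuous v := γ.continuous_extend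
  have hvmem : ∀ t ∈ Set.Icc (0 : ℝ) 1, v t ∈ posSet X u := by
    intro t ht
    have h2 : v t = γ ⟨t, ht⟩ := γ.extend_apply ht
    rw [h2]
    exact connectedComponentIn_subset _ _ (hγ ⟨t, ht⟩)
  have hv0 : v 0 = (y (-(n : ℤ)) : ℂ) * I := γ.extend_zero
  have hv1 : v 1 = (y (n : ℤ) : ℂ) * I := γ.extend_one
  obtain ⟨s, hs, t, ht, hst⟩ := crossing X hX h v hh hv.continuousOn h0 h1
    (fun t ht => (hvmem t ht).1)
    (by
      intro s hs
      rw [hv0]
      have h2 := (abs_le.1 (him s hs)).1
      simp only [Complex.mul_im, Complex.ofReal_re, Complex.I_im, Complex.ofReal_im, Complex.I_re]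
      linarith)
    (by
      intro s hs
      rw [hv1]
      have h2 := (abs_le.1 (him s hs)).2
      simp only [Complex.mul_im, Complex.ofReal_re, Complex.I_im, Complex.ofReal_im, Complex.I_re]
      linarith)
  have h3 := hz s hs
  have h4 := (hvmem t ht).2
  rw [hst] at h3
  linarith

end Pool.Agent.LibAV71
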