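import Pool.Agent.LibAV71.Core
import Pool.Agent.LibAV71.Dense
import Pool.Agent.LibAV71.Peaks
import Pool.Agent.LibAV71.Lift
import Pool.Agent.LibAV71.Sep
import Pool.Agent.LibAV71.Order

/-! Task F1: the main theorem. -/

set_option autoImplicit false

open Filter Topology Complex

namespace Pool.Agent.LibAV71

/-- the normalised function used in the proof is admissible -/
theorem adm_of (f : ℂ → ℂ) (hf : Differentiable ℂ f) (X ρ σ xs A : ℝ) (hB : 0 < BB f xs)
    (hA : 0 ≤ A) (hb : ∀ s : ℝ, |s| ≤ X → BB f (xs + s) ≤ BB f xs * Real.exp (ρ * s + σ * |s|))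
    (hnc : ∃ z w : ℂ, f z ≠ f w) :
    Adm X ρ σ (fun s => (Real.log (max ‖f (Complex.exp (s + xs))‖ (Real.exp A)) - A) / BB f xs) := by
  have hmpos : ∀ s : ℂ, 0 < max ‖f (Complex.exp (s + xs))‖ (Real.exp A) :=
    fun s => lt_max_of_lt_right (Real.exp_pos A)
  have hnn : ∀ s : ℂ, 0 ≤ Real.log (max ‖f (Complex.exp (s + xs))‖ (Real.exp A)) - A := by
    intro s
    have := Real.log_le_log (Real.exp_pos A) (le_max_right ‖f (Complex.exp (s + xs))‖ (Real.exp A))
    rw [Real.log_exp] at this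
    linarith
  refine ⟨?_, ?_, ?_, ?_, ?_⟩
  · have h1 : Continuous (fun s : ℂ => max ‖f (Complex.exp (s + xs))‖ (Real.exp A)) := by
      have := hf.continuous
      fun_prop
    have h2 : Continuous (fun s : ℂ => Real.log (max ‖f (Complex.exp (s + xs))‖ (Real.exp A))) :=
      h1.log (fun s => (hmpos s).ne')
    exact (h2.sub continuous_const).div_const _
  · intro s
    exact div_nonneg (hnn s) hB.le
  · intro s
    have : Complex.exp (s + 2 * Real.pi * I + xs) = Complex.exp (s + xs) := by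
      rw [show s + 2 * Real.pi * I + xs = s + xs + 2 * Real.pi * I by ring, Complex.exp_periodic]
    simp only [this]
  · intro s hs
    rw [div_le_iff₀ hB]
    have h1 := norm_le_exp_BB hf hnc (s + xs)
    have hre : (s + (xs : ℂ)).re = xs + s.re := by simp [add_comm]
    rw [hre] at h1
    have h2 := hb s.re hs
    rcases le_total ‖f (Complex.exp (s + xs))‖ (Real.exp A) with h | h
    · rw [max_eq_right h, Real.log_exp]
      have := mul_pos (Real.exp_pos (ρ * s.re + σ * |s.re|)) hB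
      linarith
    · rw [max_eq_left h]
      have hpos : 0 < ‖f (Complex.exp (s + xs))‖ := lt_of_lt_of_le (Real.exp_pos A) h
      have h3 : Real.log ‖f (Complex.exp (s + xs))‖ ≤ BB f (xs + s.re) := by
        rw [Real.log_le_iff_le_exp hpos]
        exact h1
      rw [mul_comm]
      linarith
  · intro s hs
    have hs' : 0 < Real.log (max ‖f (Complex.exp (s + xs))‖ (Real.exp A)) - A := by
      by_contra hcon
      push Not at hcon
      have : (Real.log (max ‖f (Complex.exp (s + xs))‖ (Real.exp A)) - A) / BB f xs ≤ 0 :=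
        div_nonpos_of_nonpos_of_nonneg hcon hB.le
      exact absurd hs (not_lt.mpr this)
    have hgt : Real.exp A < ‖f (Complex.exp (s + xs))‖ := by
      by_contra hcon
      push Not at hcon
      rw [max_eq_right hcon, Real.log_exp] at hs'
      linarith
    have hf0 : f (Complex.exp (s + xs)) ≠ 0 := by
      intro h0
      rw [h0, norm_zero] at hgt
      exact absurd hgt (not_lt.mpr (Real.exp_pos A).le)
    set w₀ := f (Complex.exp (s + xs)) with hw₀
    refine ⟨fun w => (Complex.log (f (Complex.exp (w + xs)) / w₀) + Complex.log w₀ - A) / (BB f xs : ℂ),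
      ?_, ?_⟩
    · have h1 : AnalyticAt ℂ (fun w : ℂ => f (Complex.exp (w + xs)) / w₀) s := by
        have hd : Differentiable ℂ (fun w : ℂ => f (Complex.exp (w + xs)) / w₀) := by
          have : Differentiable ℂ (fun w : ℂ => Complex.exp (w + xs)) := by fun_prop
          exact (hf.comp this).div_const _
        exact hd.analyticAt s
      have h2 : (fun w : ℂ => f (Complex.exp (w + xs)) / w₀) s ∈ slitPlane := by
        simp only [← hw₀, div_self hf0]
        exact one_mem_slitPlane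
      exact (((h1.clog h2).add analyticAt_const).sub analyticAt_const).div_const
    · have hc : Continuous (fun w : ℂ => ‖f (Complex.exp (w + xs))‖) := by
        have := hf.continuous
        fun_prop
      filter_upwards [hc.continuousAt.eventually (lt_mem_nhds hgt)] with w hw
      have hw0 : f (Complex.exp (w + xs)) ≠ 0 := by
        intro h0
        rw [h0, norm_zero] at hw
        exact absurd hw (not_lt.mpr (Real.exp_pos A).le)
      rw [max_eq_left hw.le]
      have h3 : ((Complex.log (f (Complex.exp (w + xs)) / w₀) + Complex.log w₀ - A) / (BB f xs : ℂ)).re =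
          ((Complex.log (f (Complex.exp (w + xs)) / w₀)).re + (Complex.log w₀).re - A) / BB f xs := by
        rw [Complex.div_ofReal_re]
        simp
      rw [h3, Complex.log_re, Complex.log_re, norm_div,
        Real.log_div (norm_ne_zero_iff.mpr hw0) (norm_ne_zero_iff.mpr hf0)]
      ring

theorem main (ρ Δ : ℝ) (hρ : 0 ≤ ρ) (hΔ : 0 ≤ Δ) (h : ρ * Δ < 1 / 2) :
    ∃ c : ℝ, 0 < c ∧ ∀ f : ℂ → ℂ, Differentiable ℂ f → (∃ z w : ℂ, f z ≠ f w) →
      OrdLe f ρ → OrdGe f ρ → HasMaxDensity {n | iteratedDeriv n f 0 ≠ 0} Δ →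
      ∀ γ : ℝ → ℂ, Continuous γ → Tendsto (fun t : ℝ => ‖γ t‖) atTop atTop →
        ∃ᶠ t in atTop, c * Real.log (MM f ‖γ t‖) ≤ Real.log ‖f (γ t)‖ := by
  -- choice of β and Δ'
  obtain ⟨β, hβ1, hβ2⟩ : ∃ β : ℝ, Real.pi * Δ < β ∧ ρ * β < Real.pi / 2 := by
    rcases hρ.eq_or_lt with rfl | hρ'
    · exact ⟨Real.pi * Δ + 1, by linarith, by simpa using Real.pi_pos⟩
    · have h1 : Real.pi * Δ < Real.pi / 2 / ρ := by
        rw [lt_div_iff₀ hρ']
        nlinarith [Real.pi_pos]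
      obtain ⟨β, h2, h3⟩ := exists_between h1
      refine ⟨β, h2, ?_⟩
      rw [lt_div_iff₀ hρ'] at h3
      linarith
  have hπ := Real.pi_pos
  have hβ0 : 0 < β := lt_of_le_of_lt (by positivity) hβ1
  obtain ⟨X, σ, ε, hX, hσ, hε, hε1, hcore⟩ : ∃ X σ ε : ℝ, 0 < X ∧ 0 < σ ∧ 0 < ε ∧ ε < 1 ∧
      ∀ u : ℂ → ℝ, Adm X ρ σ u →
      ∀ y₁ y₂ : ℝ, |y₁ - y₂| ≤ 2 * β → 1 - ε ≤ u (y₁ * I) → 1 - ε ≤ u (y₂ * I) →
        (y₂ : ℂ) * I ∈ connectedComponentIn (posSet X u) ((y₁ : ℂ) * I) := by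
    obtain ⟨X, σ, ε, hX, hσ, hε, hcore⟩ := core ρ β hρ hβ0 hβ2
    refine ⟨X, σ, min ε (1 / 2), hX, hσ, lt_min hε (by norm_num),
      lt_of_le_of_lt (min_le_right _ _) (by norm_num), ?_⟩
    intro u hu y₁ y₂ h12 h1 h2
    have hm := min_le_left ε (1 / 2)
    exact hcore u hu y₁ y₂ h12 (by linarith) (by linarith)
  obtain ⟨Δ', hΔ1, hΔ2⟩ : ∃ Δ' : ℝ, Δ < Δ' ∧ Real.pi * Δ' < β := by
    have h1 : Δ < β / Real.pi := by
      rw [lt_div_iff₀ hπ]
      linarith
    obtain ⟨D, h2, h3⟩ := exists_between h1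
    refine ⟨D, h2, ?_⟩
    rw [lt_div_iff₀ hπ] at h3
    linarith
  have hΔ'0 : 0 < Δ' := lt_of_le_of_lt hΔ hΔ1
  set η : ℝ := 2 * (β - Real.pi * Δ') with hη
  have hη0 : 0 < η := by rw [hη]; linarith
  refine ⟨ε / 2 * Real.exp (-((ρ + σ) * X)), by positivity, ?_⟩
  intro f hf hnc ho1 ho2 hd γ hγ hinf
  by_contra hcon
  rw [Filter.not_frequently] at hcon
  simp only [not_le] at hcon
  -- the near maxima
  obtain ⟨B₀, hdense⟩ := near_max_dense f hf hnc Δ Δ' hΔ'0 hΔ1 hd (ε / 2) (by positivity)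
    (Real.exp (2 * ρ + 2 * σ)) (Real.exp_pos _)
  -- the curve
  obtain ⟨t₀, ht₀⟩ := Filter.eventually_atTop.mp hcon
  obtain ⟨x₀, hcross⟩ := strip_crossing γ hγ hinf t₀
  -- the peak
  have hBt := BB_tendsto hf hnc
  obtain ⟨x₁, hx₁⟩ := Filter.eventually_atTop.mp (hBt.eventually (eventually_ge_atTop (max 1 B₀)))
  have hBpos : ∀ x, x₁ ≤ x → 0 < BB f x := fun x hx =>
    lt_of_lt_of_le one_pos ((le_max_left _ _).trans (hx₁ x hx))
  have hcb : ContinuousOn (fun x => Real.log (BB f x)) (Set.Ici x₁) :=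
    ContinuousOn.log (BB_continuous hf hnc).continuousOn (fun x hx => (hBpos x hx).ne')
  obtain ⟨xs, hxs1, hxs2, hpk⟩ := peaks (fun x => Real.log (BB f x)) x₁ hcb ρ
    (log_BB_le f hf hnc ρ ho1) (log_BB_ge f hf hnc ρ ho2) σ hσ (max (x₀ + X) (x₁ + X))
  have hxs0 : x₀ ≤ xs - X := by linarith [(le_max_left (x₀ + X) (x₁ + X)).trans hxs1]
  have hxsX : x₁ ≤ xs - X := by linarith [(le_max_right (x₀ + X) (x₁ + X)).trans hxs1]
  have hBs : 0 < BB f xs := hBpos xs hxs2
  have hgrow : ∀ x, x₁ ≤ x → BB f x ≤ BB f xs * Real.exp (ρ * (x - xs) + σ * |x - xs|) := by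
    intro x hx
    have h1 := hpk x hx
    calc BB f x = Real.exp (Real.log (BB f x)) := (Real.exp_log (hBpos x hx)).symm
      _ ≤ Real.exp (Real.log (BB f xs) + (ρ * (x - xs) + σ * |x - xs|)) :=
        Real.exp_le_exp.mpr (by linarith)
      _ = BB f xs * Real.exp (ρ * (x - xs) + σ * |x - xs|) := by
        rw [Real.exp_add, Real.exp_log hBs]
  have hgX : ∀ s : ℝ, |s| ≤ X → BB f (xs + s) ≤ BB f xs * Real.exp (ρ * s + σ * |s|) := by
    intro s hs
    have h1 := hgrow (xs + s) (by linarith [(abs_le.mp hs).1])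
    simpa using h1
  have hK : BB f (xs + 2) ≤ Real.exp (2 * ρ + 2 * σ) * BB f xs := by
    have h1 := hgrow (xs + 2) (by linarith)
    have h2 : ρ * (xs + 2 - xs) + σ * |xs + 2 - xs| = 2 * ρ + 2 * σ := by
      rw [show xs + 2 - xs = 2 by ring, abs_of_pos (by norm_num : (0:ℝ) < 2)]
      ring
    rw [h2] at h1
    linarith
  set A : ℝ := ε / 2 * BB f xs with hA
  have hA0 : 0 ≤ A := by positivity
  set u : ℂ → ℝ := fun s => (Real.log (max ‖f (Complex.exp (s + xs))‖ (Real.exp A)) - A) / BB f xs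
    with hu
  have hadm : Adm X ρ σ u := adm_of f hf X ρ σ xs A hBs hA0 hgX hnc
  -- choose the near maxima
  have hy : ∀ k : ℤ, ∃ y ∈ Set.Icc ((k : ℝ) * η) ((k : ℝ) * η + 2 * Real.pi * Δ'),
      Real.exp ((1 - ε / 2) * BB f xs) ≤ ‖f (Complex.exp (xs + y * I))‖ := fun k =>
    hdense xs ((le_max_right _ _).trans (hx₁ xs hxs2)) hK _
  choose y hy1 hy2 using hy
  have huy : ∀ k, 1 - ε ≤ u (y k * I) := by
    intro k
    have h1 := hy2 k
    have h2 : Complex.exp ((y k : ℂ) * I + xs) = Complex.exp (xs + y k * I) := by rw [add_comm]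
    simp only [hu, h2]
    rw [le_div_iff₀ hBs]
    have h3 : (1 - ε / 2) * BB f xs ≤ Real.log (max ‖f (Complex.exp (xs + y k * I))‖ (Real.exp A)) := by
      rw [Real.le_log_iff_exp_le (lt_max_of_lt_right (Real.exp_pos A))]
      exact h1.trans (le_max_left _ _)
    rw [hA]
    linarith
  have hupos : ∀ k, 0 < u (y k * I) := fun k => lt_of_lt_of_le (by linarith) (huy k)
  have hcomp : ∀ k : ℤ, (y (k + 1) : ℂ) * I ∈ connectedComponentIn (posSet X u) ((y k : ℂ) * I) := by
    intro k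
    apply hcore u hadm (y k) (y (k + 1)) _ (huy k) (huy (k + 1))
    have h1 := hy1 k
    have h2 := hy1 (k + 1)
    simp only [Set.mem_Icc] at h1 h2
    push_cast at h2
    rw [abs_le]
    constructor <;> nlinarith [h1.1, h1.2, h2.1, h2.2]
  -- the crossing path
  obtain ⟨h, hh, hh0, hh1, hh2⟩ := hcross (xs - X) (xs + X) hxs0 (by linarith)
  refine sep X hX u hadm.cont (fun t => h t - xs) (hh.sub continuousOn_const) (by simp [hh0])
    (by simp [hh1]) ?_ y η (2 * Real.pi * Δ') hη0 (fun k => ⟨(hy1 k).1, (hy1 k).2⟩) hupos hcomp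
  intro t ht
  obtain ⟨h3, h4, τ, h5, h6⟩ := hh2 t ht
  have h7 := ht₀ τ h5
  have h8 : ‖γ τ‖ = Real.exp (h t).re := by rw [← h6, Complex.norm_exp]
  have h9 : Real.log (MM f ‖γ τ‖) = BB f (h t).re := by rw [h8, BB]
  rw [h9] at h7
  have h10 : BB f (h t).re ≤ BB f xs * Real.exp ((ρ + σ) * X) := by
    have h11 := hgX ((h t).re - xs) (by rw [abs_le]; constructor <;> linarith)
    rw [show xs + ((h t).re - xs) = (h t).re by ring] at h11
    refine h11.trans ?_
    apply mul_le_mul_of_nonneg_left _ hBs.le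
    apply Real.exp_le_exp.mpr
    have h12 : |(h t).re - xs| ≤ X := by rw [abs_le]; constructor <;> linarith
    have h13 : (h t).re - xs ≤ X := (le_abs_self _).trans h12
    nlinarith
  have h14 : Real.log ‖f (γ τ)‖ ≤ A := by
    have h15 : ε / 2 * Real.exp (-((ρ + σ) * X)) * BB f (h t).re ≤ A := by
      calc ε / 2 * Real.exp (-((ρ + σ) * X)) * BB f (h t).re
          ≤ ε / 2 * Real.exp (-((ρ + σ) * X)) * (BB f xs * Real.exp ((ρ + σ) * X)) :=
            mul_le_mul_of_nonneg_left h10 (by positivity)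
        _ = ε / 2 * BB f xs * (Real.exp (-((ρ + σ) * X)) * Real.exp ((ρ + σ) * X)) := by ring
        _ = A := by rw [← Real.exp_add]; simp [hA]
    linarith
  have h16 : ‖f (γ τ)‖ ≤ Real.exp A := by
    rcases eq_or_lt_of_le (norm_nonneg (f (γ τ))) with h17 | h17
    · rw [← h17]; exact (Real.exp_pos A).le
    · exact (Real.log_le_iff_le_exp h17).mp h14
  have h18 : Complex.exp (h t - xs + xs) = γ τ := by rw [sub_add_cancel, h6]
  simp only [hu, h18, max_eq_right h16, Real.log_exp, sub_self, zero_div, le_refl]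

/-- no finite asymptotic value -/
theorem no_asymptotic_value (f : ℂ → ℂ) (hf : Differentiable ℂ f) (hnc : ∃ z w : ℂ, f z ≠ f w)
    (ρ Δ : ℝ) (ho : OrdLe f ρ) (hd : HasMaxDensity {n | iteratedDeriv n f 0 ≠ 0} Δ)
    (h : ρ * Δ < 1 / 2) :
    ¬ ∃ a : ℂ, ∃ γ : ℝ → ℂ, Continuous γ ∧ Tendsto (fun t : ℝ => ‖γ t‖) atTop atTop ∧
      Tendsto (fun t : ℝ => f (γ t)) atTop (𝓝 a) := by
  rintro ⟨a, γ, hγ, hinf, hlim⟩
  obtain ⟨ρ₀, h0, h1, h2, h3⟩ := exists_order f hf hnc ρ ho
  have hΔ := density_nonneg _ _ hd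
  have h4 : ρ₀ * Δ < 1 / 2 := lt_of_le_of_lt (mul_le_mul_of_nonneg_right h1 hΔ) h
  obtain ⟨c, hc, hmain⟩ := main ρ₀ Δ h0 hΔ h4
  have h5 := hmain f hf hnc h2 h3 hd γ hγ hinf
  -- log M tends to infinity, log |f| is bounded
  have h6 : Tendsto (fun t => Real.log (MM f ‖γ t‖)) atTop atTop :=
    Real.tendsto_log_atTop.comp ((MM_tendsto hf hnc).comp hinf)
  have h7 : ∀ᶠ t in atTop, ‖f (γ t)‖ ≤ ‖a‖ + 1 := by
    have h8 : Tendsto (fun t => ‖f (γ t)‖) atTop (𝓝 ‖a‖) := hlim.norm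
    exact (h8.eventually (gt_mem_nhds (lt_add_one _))).mono (fun t ht => le_of_lt ht)
  have h9 : ∀ᶠ t in atTop, Real.log (‖a‖ + 1) + 1 ≤ c * Real.log (MM f ‖γ t‖) :=
    (h6.const_mul_atTop hc).eventually (eventually_ge_atTop _)
  obtain ⟨t, ht1, ht2, ht3⟩ := (h5.and_eventually (h7.and h9)).exists
  have h10 : Real.log ‖f (γ t)‖ ≤ Real.log (‖a‖ + 1) := by
    rcases eq_or_lt_of_le (norm_nonneg (f (γ t))) with h17 | h17
    · rw [← h17, Real.log_zero]
      exact Real.log_nonneg (by linarith [norm_nonneg a])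
    · exact Real.log_le_log h17 ht2
  linarith

end Pool.Agent.LibAV71
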