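import Pool.Agent.LibAV71.Defs

/-! Task D1a: one-variable first and second order conditions at a local maximum of `u v / g^2`. -/

set_option autoImplicit false

open Filter Topology

namespace Pool.Agent.LibAV71

theorem one_var (u v g u' v' g' : ℝ → ℝ) (u'' v'' g'' : ℝ)
    (hu : ∀ᶠ t in 𝓝 (0 : ℝ), HasDerivAt u (u' t) t) (hv : ∀ᶠ t in 𝓝 (0 : ℝ), HasDerivAt v (v' t) t)
    (hg : ∀ᶠ t in 𝓝 (0 : ℝ), HasDerivAt g (g' t) t)
    (hu2 : HasDerivAt u' u'' 0) (hv2 : HasDerivAt v' v'' 0) (hg2 : HasDerivAt g' g'' 0)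
    (hu0 : 0 < u 0) (hv0 : 0 < v 0) (hg0 : 0 < g 0)
    (hmax : ∀ᶠ t in 𝓝 (0 : ℝ), u t * v t * (g 0) ^ 2 ≤ u 0 * v 0 * (g t) ^ 2) :
    u' 0 / u 0 + v' 0 / v 0 = 2 * (g' 0 / g 0) ∧
      u'' / u 0 - (u' 0 / u 0) ^ 2 + (v'' / v 0 - (v' 0 / v 0) ^ 2)
        - 2 * (g'' / g 0 - (g' 0 / g 0) ^ 2) ≤ 0 := by
  have hu1 : HasDerivAt u (u' 0) 0 := hu.self_of_nhds
  have hv1 : HasDerivAt v (v' 0) 0 := hv.self_of_nhds
  have hg1 : HasDerivAt g (g' 0) 0 := hg.self_of_nhds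
  have pu : ∀ᶠ t in 𝓝 (0 : ℝ), 0 < u t := hu1.continuousAt.eventually (lt_mem_nhds hu0)
  have pv : ∀ᶠ t in 𝓝 (0 : ℝ), 0 < v t := hv1.continuousAt.eventually (lt_mem_nhds hv0)
  have pg : ∀ᶠ t in 𝓝 (0 : ℝ), 0 < g t := hg1.continuousAt.eventually (lt_mem_nhds hg0)
  set F : ℝ → ℝ := fun t => Real.log (u t) + Real.log (v t) - 2 * Real.log (g t) with hF
  set F' : ℝ → ℝ := fun t => u' t / u t + v' t / v t - 2 * (g' t / g t) with hF'
  have hFd : ∀ᶠ t in 𝓝 (0 : ℝ), HasDerivAt F (F' t) t := by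
    filter_upwards [hu, hv, hg, pu, pv, pg] with t h1 h2 h3 h4 h5 h6
    exact ((h1.log h4.ne').add (h2.log h5.ne')).sub ((h3.log h6.ne').const_mul 2)
  have hFmax : IsLocalMax F 0 := by
    filter_upwards [hmax, pu, pv, pg] with t h1 h4 h5 h6
    have e1 : Real.log (u t * v t * (g 0) ^ 2) ≤ Real.log (u 0 * v 0 * (g t) ^ 2) :=
      Real.log_le_log (by positivity) h1
    rw [Real.log_mul (by positivity) (by positivity), Real.log_mul (by positivity) (by positivity),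
      Real.log_mul (by positivity) (by positivity), Real.log_mul (by positivity) (by positivity),
      Real.log_pow, Real.log_pow] at e1
    simp only [hF]
    push_cast at e1
    linarith
  have hFd0 : HasDerivAt F (F' 0) 0 := hFd.self_of_nhds
  have hz : F' 0 = 0 := hFmax.hasDerivAt_eq_zero hFd0
  refine ⟨by simp only [hF'] at hz; linarith, ?_⟩
  have hF2 : HasDerivAt F' (u'' / u 0 - (u' 0 / u 0) ^ 2 + (v'' / v 0 - (v' 0 / v 0) ^ 2)
        - 2 * (g'' / g 0 - (g' 0 / g 0) ^ 2)) 0 := by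
    have k : ∀ a b c : ℝ, 0 < c → (a * c - b * b) / c ^ 2 = a / c - (b / c) ^ 2 := by
      intro a b c hc
      field_simp
    have a1 := (hu2.div hu1 hu0.ne').add (hv2.div hv1 hv0.ne')
    have a2 := a1.sub ((hg2.div hg1 hg0.ne').const_mul 2)
    rw [k _ _ _ hu0, k _ _ _ hv0, k _ _ _ hg0] at a2
    exact a2
  by_contra hneg
  rw [not_le] at hneg
  have hdF : deriv F =ᶠ[𝓝 0] F' := by
    filter_upwards [hFd] with t ht using ht.deriv
  have hddF : deriv (deriv F) 0 = (u'' / u 0 - (u' 0 / u 0) ^ 2 + (v'' / v 0 - (v' 0 / v 0) ^ 2)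
        - 2 * (g'' / g 0 - (g' 0 / g 0) ^ 2)) := by
    rw [hdF.deriv_eq]; exact hF2.deriv
  have hmin : IsLocalMin F 0 :=
    isLocalMin_of_deriv_deriv_pos (by rw [hddF]; exact hneg) (by rw [hFd0.deriv, hz])
      hFd0.continuousAt
  have hconst : ∀ᶠ t in 𝓝 (0 : ℝ), F t = F 0 := by
    filter_upwards [hmin, hFmax] with t h1 h2 using le_antisymm h2 h1
  have hc2 : F =ᶠ[𝓝 0] fun _ => F 0 := hconst
  have hd1 : deriv F =ᶠ[𝓝 0] fun _ => (0 : ℝ) := by
    have := hc2.deriv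
    filter_upwards [this] with t ht
    rw [ht]; simp
  have hd2 : deriv (deriv F) 0 = 0 := by
    rw [hd1.deriv_eq]; simp
  rw [hd2] at hddF
  linarith

end Pool.Agent.LibAV71
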