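import Pool.Agent.LibAV71.Defs

/-! Task D4a: existence of parameters (pure real analysis), positive order. -/

set_option autoImplicit false

open Filter Topology

namespace Pool.Agent.LibAV71

noncomputable section

/-- exponent `2 l / μ - 1` -/
def ee (μ l : ℝ) : ℝ := 2 * (l / μ) - 1

/-- coefficient of the concave correction -/
def kk (μ l d : ℝ) : ℝ := 12 * d ^ 2 / (ee μ l * (1 - ee μ l))

/-- the concave function of the distance -/
def Phi (μ lm lp dm dp x : ℝ) : ℝ :=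
  x + kk μ lm dm * x ^ (ee μ lm) + kk μ lp dp * x ^ (ee μ lp)

/-- the parameters of the barrier -/
structure Par (ρ β : ℝ) where
  μ : ℝ
  lm : ℝ
  lp : ℝ
  dm : ℝ
  dp : ℝ
  A : ℝ
  σ : ℝ
  P : ℝ
  ε : ℝ
  hσ : 0 < σ
  hε : 0 < ε
  hdm : 0 < dm
  hdp : 0 < dp
  hP : 0 < P
  hA : 1 ≤ A
  h1 : μ / 2 < lm
  h2 : lm < ρ - σ
  h3 : ρ + σ < lp
  h4 : lp < μ
  h5 : μ * β < Real.pi / 2
  target : A / 2 * (Phi μ lm lp dm dp (2 * Real.sin (μ * β)) + dm + dp) < 1 - ε
  mid : ∀ p : ℝ, Real.exp (ρ * p + σ * |p| + σ / μ) ≤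
    A * (Real.exp (μ * p) + dm / 2 * Real.cos (lm * Real.pi / (2 * μ)) * Real.exp (lm * p))
  right : Real.exp (ρ * P + σ * P + σ / μ) ≤
    A / 2 * (dp * Real.cos (lp * Real.pi / (2 * μ)) * Real.exp (lp * P))
  left : Real.exp (-(ρ * P) + σ * P + σ / μ) ≤
    A / 2 * (dm * Real.cos (lm * Real.pi / (2 * μ)) * Real.exp (-(lm * P)))

private theorem Par_rpow_le {x e : ℝ} (hx0 : 0 ≤ x) (hx2 : x ≤ 2) (he0 : 0 ≤ e) (he1 : e ≤ 1) :
    x ^ e ≤ 2 := by
  rcases le_or_gt x 1 with h | h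
  · exact (Real.rpow_le_one hx0 h he0).trans (by norm_num)
  · have h1 : x ^ e ≤ x ^ (1 : ℝ) := Real.rpow_le_rpow_of_exponent_le h.le he1
    rw [Real.rpow_one] at h1
    exact h1.trans hx2

private theorem Par_cos_ge {y : ℝ} (h0 : 0 ≤ y) (h1 : y ≤ 3 * Real.pi / 8) :
    1 / 5 ≤ Real.cos y := by
  have hpi := Real.pi_lt_d2
  have hpi0 := Real.pi_pos
  have h2 : Real.cos (3 * Real.pi / 8) ≤ Real.cos y :=
    Real.cos_le_cos_of_nonneg_of_le_pi h0 (by linarith) h1
  have h3 : Real.cos (3 * Real.pi / 8) = Real.sin (Real.pi / 8) := by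
    rw [← Real.cos_pi_div_two_sub]
    congr 1
    ring
  have h4 : Real.pi / 8 - (Real.pi / 8) ^ 3 / 6 < Real.sin (Real.pi / 8) :=
    Real.sin_gt_sub_cube (by linarith : (0 : ℝ) < Real.pi / 8)
  have h5 : (3 : ℝ) < Real.pi := Real.pi_gt_three
  have h6 : (Real.pi / 8) ^ 3 ≤ (1 / 2) ^ 3 := by
    apply pow_le_pow_left₀ (by positivity)
    linarith
  rw [h3] at h2
  linarith

private theorem Par_exp_neg_le {y : ℝ} (hy : 0 < y) : Real.exp (-y) ≤ 1 / y := by
  rw [Real.exp_neg, ← one_div]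
  exact one_div_le_one_div_of_le hy (by linarith [Real.add_one_le_exp y])

/-- the middle estimate -/
private theorem Par_mid {ρ σ dm A : ℝ} (hρ : 0 < ρ) (hσ : 0 < σ) (hdm : 0 < dm) (hA : 1 < A)
    (h1 : σ ≤ ρ / 24) (h2 : σ ≤ ρ * Real.log A / 2) (h3 : σ ≤ ρ * Real.log A * dm / 640) (p : ℝ) :
    Real.exp (ρ * p + σ * |p| + σ / (ρ + 3 * σ)) ≤
      A * (Real.exp ((ρ + 3 * σ) * p) + dm / 2 *
        Real.cos (3 * ρ / 4 * Real.pi / (2 * (ρ + 3 * σ))) * Real.exp (3 * ρ / 4 * p)) := by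
  have hμ : 0 < ρ + 3 * σ := by linarith
  have hlog : 0 < Real.log A := Real.log_pos hA
  have hA0 : 0 < A := by linarith
  have hc : 1 / 5 ≤ Real.cos (3 * ρ / 4 * Real.pi / (2 * (ρ + 3 * σ))) := by
    apply Par_cos_ge
    · have := Real.pi_pos
      positivity
    · rw [div_le_iff₀ (by linarith)]
      nlinarith [Real.pi_pos, mul_pos Real.pi_pos hσ]
  set c := Real.cos (3 * ρ / 4 * Real.pi / (2 * (ρ + 3 * σ))) with hcdef
  have hq : σ / (ρ + 3 * σ) ≤ Real.log A / 2 := by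
    rw [div_le_iff₀ hμ]
    nlinarith
  have hexpA : ∀ z : ℝ, A * Real.exp z = Real.exp (Real.log A + z) := fun z => by
    rw [Real.exp_add, Real.exp_log hA0]
  rcases le_or_gt 0 p with hp | hp
  · have e1 : Real.exp (ρ * p + σ * |p| + σ / (ρ + 3 * σ)) ≤ A * Real.exp ((ρ + 3 * σ) * p) := by
      rw [hexpA]
      apply Real.exp_le_exp.2
      rw [abs_of_nonneg hp]
      nlinarith [mul_nonneg hσ.le hp]
    have e2 : 0 ≤ dm / 2 * c * Real.exp (3 * ρ / 4 * p) := by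
      have : 0 < Real.exp (3 * ρ / 4 * p) := Real.exp_pos _
      have hc0 : 0 < c := by linarith
      positivity
    nlinarith
  · have habs : |p| = -p := abs_of_neg hp
    rw [habs]
    have hc0 : 0 < c := by linarith
    have hexp0 : 0 < Real.exp (3 * ρ / 4 * p) := Real.exp_pos _
    have hexp1 : 0 < Real.exp ((ρ + 3 * σ) * p) := Real.exp_pos _
    rcases le_or_gt (4 * σ * (-p)) (Real.log A / 2) with hcase | hcase
    · have e1 : Real.exp (ρ * p + σ * -p + σ / (ρ + 3 * σ)) ≤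
          A * Real.exp ((ρ + 3 * σ) * p) := by
        rw [hexpA]
        apply Real.exp_le_exp.2
        nlinarith
      have e2 : 0 ≤ dm / 2 * c * Real.exp (3 * ρ / 4 * p) := by positivity
      nlinarith
    · -- the exponential is small
      have hy : 0 < ρ * Real.log A / (64 * σ) := by positivity
      have e1 : Real.exp (ρ * p + σ * -p + σ / (ρ + 3 * σ)) ≤
          A * (Real.exp (-(ρ * Real.log A / (64 * σ))) * Real.exp (3 * ρ / 4 * p)) := by
        rw [← Real.exp_add, hexpA]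
        apply Real.exp_le_exp.2
        have e3 : ρ * Real.log A / (64 * σ) ≤ ρ / 8 * (-p) := by
          rw [div_le_iff₀ (by positivity)]
          nlinarith
        have e4 : (ρ / 4 - σ) * (-p) ≥ ρ / 8 * (-p) := by
          apply mul_le_mul_of_nonneg_right _ (by linarith)
          linarith
        nlinarith
      have e2 : Real.exp (-(ρ * Real.log A / (64 * σ))) ≤ dm / 2 * c := by
        refine (Par_exp_neg_le hy).trans ?_
        have e5 : 1 / (ρ * Real.log A / (64 * σ)) ≤ dm / 10 := by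
          rw [one_div, inv_div, div_le_iff₀ (by positivity)]
          nlinarith
        nlinarith
      have e6 : A * (Real.exp (-(ρ * Real.log A / (64 * σ))) * Real.exp (3 * ρ / 4 * p)) ≤
          A * (dm / 2 * c * Real.exp (3 * ρ / 4 * p)) :=
        mul_le_mul_of_nonneg_left (mul_le_mul_of_nonneg_right e2 hexp0.le) hA0.le
      refine (e1.trans e6).trans (mul_le_mul_of_nonneg_left ?_ hA0.le)
      linarith

theorem exists_par (ρ β : ℝ) (hρ : 0 < ρ) (hβ : 0 < β) (h : ρ * β < Real.pi / 2) :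
    Nonempty (Par ρ β) := by
  have hpi := Real.pi_pos
  -- `S`, `A`, `g`
  set S := Real.sin (ρ * β) with hS
  have hρβ : 0 < ρ * β := mul_pos hρ hβ
  have hS0 : 0 < S := Real.sin_pos_of_pos_of_lt_pi hρβ (by linarith)
  have hS1 : S < 1 := by
    rw [hS, ← Real.sin_pi_div_two]
    exact Real.sin_lt_sin_of_lt_of_le_pi_div_two (by linarith) le_rfl h
  obtain ⟨A, hA, hAS⟩ : ∃ A : ℝ, 1 < A ∧ A * S < 1 := by
    refine ⟨(1 + S) / (2 * S), ?_, ?_⟩
    · rw [lt_div_iff₀ (by positivity)]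
      linarith
    · have : (1 + S) / (2 * S) * S = (1 + S) / 2 := by
        field_simp
      rw [this]
      linarith
  have hA0 : 0 < A := by linarith
  have hlog : 0 < Real.log A := Real.log_pos hA
  obtain ⟨g, hg, hgdef⟩ : ∃ g : ℝ, 0 < g ∧ A * S + g = 1 := ⟨1 - A * S, by linarith, by ring⟩
  -- `dm`
  obtain ⟨dm, hdm, hdm1, hdm2⟩ : ∃ dm : ℝ, 0 < dm ∧ dm ≤ 1 ∧ A / 2 * (109 * dm) ≤ g / 4 := by
    refine ⟨min 1 (g / (218 * A)), by positivity, min_le_left _ _, ?_⟩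
    have h1 : min 1 (g / (218 * A)) ≤ g / (218 * A) := min_le_right _ _
    calc A / 2 * (109 * min 1 (g / (218 * A))) ≤ A / 2 * (109 * (g / (218 * A))) := by gcongr
      _ = g / 4 := by
        field_simp
        norm_num
  -- `σ`
  obtain ⟨σ, hσ, s1, s2, s3, s4, s5⟩ : ∃ σ : ℝ, 0 < σ ∧ σ ≤ ρ / 24 ∧
      (ρ + 3 * σ) * β < Real.pi / 2 ∧ A * (3 * σ * β) ≤ g / 4 ∧ σ ≤ ρ * Real.log A / 2 ∧
      σ ≤ ρ * Real.log A * dm / 640 := by
    have q1 : 0 < ρ / 24 := by positivity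
    have q2 : 0 < (Real.pi / 2 - ρ * β) / (6 * β) := by
      apply div_pos
      · linarith
      · positivity
    have q3 : 0 < g / (12 * A * β) := by positivity
    have q4 : 0 < ρ * Real.log A / 2 := by positivity
    have q5 : 0 < ρ * Real.log A * dm / 640 := by positivity
    refine ⟨min (min (ρ / 24) ((Real.pi / 2 - ρ * β) / (6 * β))) (min (g / (12 * A * β))
      (min (ρ * Real.log A / 2) (ρ * Real.log A * dm / 640))),
      lt_min (lt_min q1 q2) (lt_min q3 (lt_min q4 q5)), ?_, ?_, ?_, ?_, ?_⟩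
    · exact (min_le_left _ _).trans (min_le_left _ _)
    · set σ := min (min (ρ / 24) ((Real.pi / 2 - ρ * β) / (6 * β))) (min (g / (12 * A * β))
        (min (ρ * Real.log A / 2) (ρ * Real.log A * dm / 640)))
      have h1 : σ ≤ (Real.pi / 2 - ρ * β) / (6 * β) :=
        (min_le_left _ _).trans (min_le_right _ _)
      rw [le_div_iff₀ (by positivity)] at h1
      nlinarith
    · set σ := min (min (ρ / 24) ((Real.pi / 2 - ρ * β) / (6 * β))) (min (g / (12 * A * β))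
        (min (ρ * Real.log A / 2) (ρ * Real.log A * dm / 640)))
      have h1 : σ ≤ g / (12 * A * β) := (min_le_right _ _).trans (min_le_left _ _)
      rw [le_div_iff₀ (by positivity)] at h1
      nlinarith
    · exact (min_le_right _ _).trans ((min_le_right _ _).trans (min_le_left _ _))
    · exact (min_le_right _ _).trans ((min_le_right _ _).trans (min_le_right _ _))
  have hμ : 0 < ρ + 3 * σ := by linarith
  -- exponents
  have hem : 1 / 3 ≤ ee (ρ + 3 * σ) (3 * ρ / 4) ∧ ee (ρ + 3 * σ) (3 * ρ / 4) ≤ 1 / 2 := by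
    unfold ee
    constructor
    · have : 2 / 3 ≤ 3 * ρ / 4 / (ρ + 3 * σ) := by
        rw [le_div_iff₀ hμ]
        linarith
      linarith
    · have : 3 * ρ / 4 / (ρ + 3 * σ) ≤ 3 / 4 := by
        rw [div_le_iff₀ hμ]
        linarith
      linarith
  have hep : 0 < ee (ρ + 3 * σ) (ρ + 2 * σ) ∧ ee (ρ + 3 * σ) (ρ + 2 * σ) < 1 := by
    unfold ee
    constructor
    · have : 1 / 2 < (ρ + 2 * σ) / (ρ + 3 * σ) := by
        rw [lt_div_iff₀ hμ]
        linarith
      linarith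
    · have : (ρ + 2 * σ) / (ρ + 3 * σ) < 1 := by
        rw [div_lt_iff₀ hμ]
        linarith
      linarith
  obtain ⟨q, hq, hqdef⟩ : ∃ q : ℝ, 0 < q ∧
      q = ee (ρ + 3 * σ) (ρ + 2 * σ) * (1 - ee (ρ + 3 * σ) (ρ + 2 * σ)) :=
    ⟨_, mul_pos hep.1 (by linarith [hep.2]), rfl⟩
  -- `dp`
  obtain ⟨dp, hdp, hdp1, hdp2⟩ : ∃ dp : ℝ, 0 < dp ∧ dp ≤ 1 ∧
      A / 2 * ((24 / q + 1) * dp) ≤ g / 4 := by
    have h24 : 0 < 24 / q + 1 := by positivity
    refine ⟨min 1 (g / (2 * A * (24 / q + 1))), by positivity, min_le_left _ _, ?_⟩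
    calc A / 2 * ((24 / q + 1) * min 1 (g / (2 * A * (24 / q + 1)))) ≤
        A / 2 * ((24 / q + 1) * (g / (2 * A * (24 / q + 1)))) := by
          gcongr
          exact min_le_right _ _
      _ = g / 4 := by
        field_simp
        norm_num
  -- cosines
  have hcm : 1 / 5 ≤ Real.cos (3 * ρ / 4 * Real.pi / (2 * (ρ + 3 * σ))) := by
    apply Par_cos_ge
    · positivity
    · rw [div_le_iff₀ (by linarith)]
      nlinarith [mul_pos hpi hσ]
  have hcp : 0 < Real.cos ((ρ + 2 * σ) * Real.pi / (2 * (ρ + 3 * σ))) := by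
    apply Real.cos_pos_of_mem_Ioo
    constructor
    · have : 0 < (ρ + 2 * σ) * Real.pi / (2 * (ρ + 3 * σ)) := by positivity
      linarith
    · rw [div_lt_iff₀ (by linarith)]
      nlinarith [mul_pos hpi hσ]
  set cm := Real.cos (3 * ρ / 4 * Real.pi / (2 * (ρ + 3 * σ))) with hcmdef
  set cpp := Real.cos ((ρ + 2 * σ) * Real.pi / (2 * (ρ + 3 * σ))) with hcpdef
  have hcm0 : 0 < cm := by linarith
  -- `P`
  have hκ : 0 < ρ / 4 - σ := by linarith
  obtain ⟨P, hP, hP1, hP2⟩ : ∃ P : ℝ, 0 < P ∧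
      Real.exp (σ / (ρ + 3 * σ)) ≤ A / 2 * (dp * cpp) * Real.exp (σ * P) ∧
      Real.exp (σ / (ρ + 3 * σ)) ≤ A / 2 * (dm * cm) * Real.exp ((ρ / 4 - σ) * P) := by
    have hE : 0 < Real.exp (σ / (ρ + 3 * σ)) := Real.exp_pos _
    set E := Real.exp (σ / (ρ + 3 * σ))
    have c1 : 0 < A / 2 * (dp * cpp) := by positivity
    have c2 : 0 < A / 2 * (dm * cm) := by positivity
    have gen : ∀ c κ P : ℝ, 0 < c → 0 < κ → E / (c * κ) ≤ P → E ≤ c * Real.exp (κ * P) := by
      intro c κ P hc hκ hPc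
      rw [div_le_iff₀ (by positivity)] at hPc
      have h1 : κ * P ≤ Real.exp (κ * P) := by linarith [Real.add_one_le_exp (κ * P)]
      nlinarith
    refine ⟨max (E / (A / 2 * (dp * cpp) * σ)) (E / (A / 2 * (dm * cm) * (ρ / 4 - σ))),
      lt_max_of_lt_left (by positivity), gen _ _ _ c1 hσ (le_max_left _ _),
      gen _ _ _ c2 hκ (le_max_right _ _)⟩
  refine ⟨⟨ρ + 3 * σ, 3 * ρ / 4, ρ + 2 * σ, dm, dp, A, σ, P, g / 8, hσ, by positivity, hdm, hdp,
    hP, hA.le, by linarith, by linarith, by linarith, by linarith, s2, ?_,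
    fun p => Par_mid hρ hσ hdm hA s1 s4 s5 p, ?_, ?_⟩⟩
  · -- target
    have hμβ : 0 < (ρ + 3 * σ) * β := mul_pos hμ hβ
    have hsin0 : 0 < Real.sin ((ρ + 3 * σ) * β) :=
      Real.sin_pos_of_pos_of_lt_pi hμβ (by linarith)
    have hsin1 : Real.sin ((ρ + 3 * σ) * β) ≤ 1 := Real.sin_le_one _
    have hsinS : Real.sin ((ρ + 3 * σ) * β) ≤ S + 3 * σ * β := by
      have h1 := Real.abs_sin_sub_sin_le ((ρ + 3 * σ) * β) (ρ * β)
      have h2 : (ρ + 3 * σ) * β - ρ * β = 3 * σ * β := by ring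
      rw [h2, abs_of_pos (by positivity : (0 : ℝ) < 3 * σ * β)] at h1
      have h3 := (abs_le.1 h1).2
      linarith
    have hx2 : 2 * Real.sin ((ρ + 3 * σ) * β) ≤ 2 := by linarith
    have hx0 : 0 ≤ 2 * Real.sin ((ρ + 3 * σ) * β) := by linarith
    have r1 := Par_rpow_le hx0 hx2 (by linarith [hem.1] : 0 ≤ ee (ρ + 3 * σ) (3 * ρ / 4))
      (by linarith [hem.2])
    have r2 := Par_rpow_le hx0 hx2 hep.1.le hep.2.le
    have r1' : 0 ≤ (2 * Real.sin ((ρ + 3 * σ) * β)) ^ ee (ρ + 3 * σ) (3 * ρ / 4) :=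
      Real.rpow_nonneg hx0 _
    have r2' : 0 ≤ (2 * Real.sin ((ρ + 3 * σ) * β)) ^ ee (ρ + 3 * σ) (ρ + 2 * σ) :=
      Real.rpow_nonneg hx0 _
    have k1 : kk (ρ + 3 * σ) (3 * ρ / 4) dm ≤ 54 * dm := by
      unfold kk
      have hden : 2 / 9 ≤ ee (ρ + 3 * σ) (3 * ρ / 4) * (1 - ee (ρ + 3 * σ) (3 * ρ / 4)) := by
        nlinarith [hem.1, hem.2]
      rw [div_le_iff₀ (by linarith)]
      nlinarith [mul_pos hdm hdm]
    have k2 : kk (ρ + 3 * σ) (ρ + 2 * σ) dp ≤ 12 / q * dp := by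
      unfold kk
      rw [← hqdef, div_mul_eq_mul_div]
      gcongr
      nlinarith
    have t1 : kk (ρ + 3 * σ) (3 * ρ / 4) dm *
        (2 * Real.sin ((ρ + 3 * σ) * β)) ^ ee (ρ + 3 * σ) (3 * ρ / 4) ≤ 54 * dm * 2 :=
      mul_le_mul k1 r1 r1' (by positivity)
    have t2 : kk (ρ + 3 * σ) (ρ + 2 * σ) dp *
        (2 * Real.sin ((ρ + 3 * σ) * β)) ^ ee (ρ + 3 * σ) (ρ + 2 * σ) ≤ 12 / q * dp * 2 :=
      mul_le_mul k2 r2 r2' (by positivity)
    have t3 : Phi (ρ + 3 * σ) (3 * ρ / 4) (ρ + 2 * σ) dm dp (2 * Real.sin ((ρ + 3 * σ) * β)) +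
        dm + dp ≤ 2 * (S + 3 * σ * β) + 109 * dm + (24 / q + 1) * dp := by
      unfold Phi
      have e1 : 12 / q * dp * 2 = 24 / q * dp := by ring
      rw [e1] at t2
      linarith
    have t4 := mul_le_mul_of_nonneg_left t3 (by positivity : 0 ≤ A / 2)
    have t5 : A / 2 * (2 * (S + 3 * σ * β) + 109 * dm + (24 / q + 1) * dp) =
        A * S + A * (3 * σ * β) + A / 2 * (109 * dm) + A / 2 * ((24 / q + 1) * dp) := by ring
    rw [t5] at t4
    linarith
  · -- right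
    have e1 : Real.exp (ρ * P + σ * P + σ / (ρ + 3 * σ)) =
        Real.exp (σ / (ρ + 3 * σ)) * Real.exp (ρ * P + σ * P) := by
      rw [← Real.exp_add]
      congr 1
      ring
    have e2 : Real.exp ((ρ + 2 * σ) * P) = Real.exp (σ * P) * Real.exp (ρ * P + σ * P) := by
      rw [← Real.exp_add]
      congr 1
      ring
    rw [e1, e2]
    have e3 := mul_le_mul_of_nonneg_right hP1 (Real.exp_pos (ρ * P + σ * P)).le
    calc _ ≤ _ := e3
      _ = _ := by ring
  · -- left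
    have e1 : Real.exp (-(ρ * P) + σ * P + σ / (ρ + 3 * σ)) =
        Real.exp (σ / (ρ + 3 * σ)) * Real.exp (-(ρ * P) + σ * P) := by
      rw [← Real.exp_add]
      congr 1
      ring
    have e2 : Real.exp (-(3 * ρ / 4 * P)) =
        Real.exp ((ρ / 4 - σ) * P) * Real.exp (-(ρ * P) + σ * P) := by
      rw [← Real.exp_add]
      congr 1
      ring
    rw [e1, e2]
    have e3 := mul_le_mul_of_nonneg_right hP2 (Real.exp_pos (-(ρ * P) + σ * P)).le
    calc _ ≤ _ := e3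
      _ = _ := by ring

end

end Pool.Agent.LibAV71
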