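import Pool.Agent.LibAV71.Defs

/-! Task A3: product bounds. -/

set_option autoImplicit false

open Filter Topology

namespace Pool.Agent.LibAV71

theorem one_add_le_exp_sqrt (x : ℝ) (hx : 0 ≤ x) : 1 + x ≤ Real.exp (Real.sqrt x) := by
  have hy : 0 ≤ Real.sqrt x := Real.sqrt_nonneg x
  have hsq : Real.sqrt x ^ 2 = x := Real.sq_sqrt hx
  have h := Real.sum_le_exp_of_nonneg hy 4
  simp only [Finset.sum_range_succ, Finset.sum_range_zero, Nat.factorial] at h
  norm_num at h
  refine le_trans ?_ h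
  set y := Real.sqrt x with hyd
  rw [← hsq]
  nlinarith [mul_nonneg hy (sq_nonneg (y - 3/2)), mul_nonneg hy hy]

/-- `∏_{k=1}^M (1 + a/k) ≤ exp (2 sqrt (a M))` -/
theorem prod_le_exp (a : ℝ) (ha : 0 ≤ a) (M : ℕ) :
    ∏ k ∈ Finset.Icc 1 M, (1 + a / (k : ℝ)) ≤ Real.exp (2 * Real.sqrt (a * M)) := by
  induction M with
  | zero => simp
  | succ M ih =>
    rw [Finset.prod_Icc_succ_top (by omega)]
    have hM1 : (0 : ℝ) < (M : ℝ) + 1 := by positivity
    have h1 : 1 + a / (((M + 1 : ℕ) : ℝ)) ≤ Real.exp (Real.sqrt (a / ((M + 1 : ℕ) : ℝ))) :=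
      one_add_le_exp_sqrt _ (by positivity)
    have h0 : 0 ≤ 1 + a / (((M + 1 : ℕ) : ℝ)) := by positivity
    calc (∏ k ∈ Finset.Icc 1 M, (1 + a / (k : ℝ))) * (1 + a / (((M + 1 : ℕ) : ℝ)))
        ≤ Real.exp (2 * Real.sqrt (a * M)) * Real.exp (Real.sqrt (a / ((M + 1 : ℕ) : ℝ))) :=
          mul_le_mul ih h1 h0 (Real.exp_pos _).le
      _ = Real.exp (2 * Real.sqrt (a * M) + Real.sqrt (a / ((M + 1 : ℕ) : ℝ))) := by
          rw [Real.exp_add]
      _ ≤ Real.exp (2 * Real.sqrt (a * ((M + 1 : ℕ) : ℝ))) := by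
          apply Real.exp_le_exp.mpr
          push_cast
          rw [Real.sqrt_mul ha, Real.sqrt_div ha, Real.sqrt_mul ha]
          have hs : 0 ≤ Real.sqrt a := Real.sqrt_nonneg a
          have hM : 0 ≤ Real.sqrt (M : ℝ) := Real.sqrt_nonneg _
          have hMp : 0 < Real.sqrt ((M : ℝ) + 1) := Real.sqrt_pos.mpr hM1
          have e1 : Real.sqrt (M : ℝ) ^ 2 = M := Real.sq_sqrt (by positivity)
          have e2 : Real.sqrt ((M : ℝ) + 1) ^ 2 = M + 1 := Real.sq_sqrt hM1.le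
          have key : 2 * Real.sqrt (M : ℝ) + 1 / Real.sqrt ((M : ℝ) + 1) ≤
              2 * Real.sqrt ((M : ℝ) + 1) := by
            have : 1 / Real.sqrt ((M : ℝ) + 1) ≤
                2 * Real.sqrt ((M : ℝ) + 1) - 2 * Real.sqrt (M : ℝ) := by
              rw [div_le_iff₀ hMp]
              nlinarith [sq_nonneg (Real.sqrt ((M : ℝ) + 1) - Real.sqrt (M : ℝ))]
            linarith
          have := mul_le_mul_of_nonneg_left key hs
          calc 2 * (Real.sqrt a * Real.sqrt (M : ℝ)) + Real.sqrt a / Real.sqrt ((M : ℝ) + 1)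
              = Real.sqrt a * (2 * Real.sqrt (M : ℝ) + 1 / Real.sqrt ((M : ℝ) + 1)) := by ring
            _ ≤ Real.sqrt a * (2 * Real.sqrt ((M : ℝ) + 1)) := this
            _ = 2 * (Real.sqrt a * Real.sqrt ((M : ℝ) + 1)) := by ring

theorem prod_aux_inj (a : ℝ) (ha : 0 ≤ a) (M : ℕ) {ι : Type*} (s : Finset ι) (j : ι → ℕ)
    (hinj : Set.InjOn j s) (h0 : ∀ i ∈ s, j i ≠ 0) (hM : ∀ i ∈ s, j i ≤ M) :
    ∏ i ∈ s, (1 + a / (j i : ℝ)) ≤ Real.exp (2 * Real.sqrt (a * M)) := by
  classical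
  refine le_trans ?_ (prod_le_exp a ha M)
  rw [← Finset.prod_image (s := s) (g := j) (f := fun k : ℕ => (1 + a / (k : ℝ))) hinj]
  apply Finset.prod_le_prod_of_subset_of_one_le
  · intro k hk
    rw [Finset.mem_image] at hk
    obtain ⟨i, hi, rfl⟩ := hk
    rw [Finset.mem_Icc]
    exact ⟨Nat.one_le_iff_ne_zero.mpr (h0 i hi), hM i hi⟩
  · intro k _
    positivity
  · intro k _ _
    have : 0 ≤ a / (k : ℝ) := by positivity
    linarith

/-- A product over distinct nonzero integers of absolute value at most `M`. -/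
theorem prod_int_le_exp (a : ℝ) (ha : 0 ≤ a) (M : ℕ) {ι : Type*} (s : Finset ι) (j : ι → ℤ)
    (hinj : Set.InjOn j s) (h0 : ∀ i ∈ s, j i ≠ 0) (hM : ∀ i ∈ s, |j i| ≤ M) :
    ∏ i ∈ s, (1 + a / |(j i : ℝ)|) ≤ Real.exp (4 * Real.sqrt (a * M)) := by
  classical
  have habs : ∀ i, |(j i : ℝ)| = (((j i).natAbs : ℕ) : ℝ) := by
    intro i
    rw [← Int.cast_abs, Int.abs_eq_natAbs]
    simp
  simp only [habs]
  rw [← Finset.prod_filter_mul_prod_filter_not s (fun i => 0 < j i)]
  have hnat : ∀ i ∈ s, (j i).natAbs ≤ M := by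
    intro i hi
    have := hM i hi
    rw [Int.abs_eq_natAbs] at this
    exact_mod_cast this
  have h1 : ∏ i ∈ s with 0 < j i, (1 + a / (((j i).natAbs : ℕ) : ℝ)) ≤
      Real.exp (2 * Real.sqrt (a * M)) := by
    apply prod_aux_inj a ha M
    · intro x hx y hy hxy
      simp only [Finset.coe_filter, Set.mem_ofPred_eq] at hx hy
      apply hinj hx.1 hy.1
      have : (j x).natAbs = (j y).natAbs := hxy
      omega
    · intro i hi
      rw [Finset.mem_filter] at hi
      have := h0 i hi.1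
      simpa using this
    · intro i hi
      rw [Finset.mem_filter] at hi
      exact hnat i hi.1
  have h2 : ∏ i ∈ s with ¬ 0 < j i, (1 + a / (((j i).natAbs : ℕ) : ℝ)) ≤
      Real.exp (2 * Real.sqrt (a * M)) := by
    apply prod_aux_inj a ha M
    · intro x hx y hy hxy
      simp only [Finset.coe_filter, Set.mem_ofPred_eq] at hx hy
      apply hinj hx.1 hy.1
      have : (j x).natAbs = (j y).natAbs := hxy
      omega
    · intro i hi
      rw [Finset.mem_filter] at hi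
      have := h0 i hi.1
      simpa using this
    · intro i hi
      rw [Finset.mem_filter] at hi
      exact hnat i hi.1
  have hnn : 0 ≤ ∏ i ∈ s with ¬ 0 < j i, (1 + a / (((j i).natAbs : ℕ) : ℝ)) :=
    Finset.prod_nonneg (fun i _ => by positivity)
  calc _ ≤ Real.exp (2 * Real.sqrt (a * M)) * Real.exp (2 * Real.sqrt (a * M)) :=
        mul_le_mul h1 h2 hnn (Real.exp_pos _).le
    _ = Real.exp (4 * Real.sqrt (a * M)) := by
        rw [← Real.exp_add]; ring_nf

end Pool.Agent.LibAV71
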