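import Pool.Agent.LibAV71.Order

/-! The constant `1/2` is optimal: `sin √z / √z`. -/

set_option autoImplicit false

open Filter Topology Complex

namespace Pool.Agent.LibAV71

noncomputable section

/-- coefficients of `sin √z / √z` -/
def shc (n : ℕ) : ℂ := (-1) ^ n / ((2 * n + 1).factorial : ℂ)

/-- the function `sin √z / √z` -/
def shf (z : ℂ) : ℂ := ∑' n : ℕ, shc n * z ^ n

theorem shc_norm (n : ℕ) : ‖shc n‖ = 1 / ((2 * n + 1).factorial : ℝ) := by
  rw [shc, norm_div, norm_pow, norm_neg, norm_one, one_pow, Complex.norm_natCast]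

theorem shc_ne (n : ℕ) : shc n ≠ 0 := by
  rw [← norm_pos_iff, shc_norm]
  positivity

theorem sh_bound (r : ℝ) (hr : 0 ≤ r) (n : ℕ) :
    1 / ((2 * n + 1).factorial : ℝ) * r ^ n ≤ (Real.sqrt r) ^ (2 * n) / ((2 * n).factorial : ℝ) := by
  rw [pow_mul, Real.sq_sqrt hr, div_mul_eq_mul_div, one_mul]
  gcongr
  omega

theorem sh_hasSum_cosh (y : ℝ) :
    HasSum (fun n : ℕ => y ^ (2 * n) / ((2 * n).factorial : ℝ)) (Real.cosh y) :=
  Real.hasSum_cosh y

theorem sh_summable (z : ℂ) : Summable (fun n => shc n * z ^ n) := by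
  apply Summable.of_norm
  apply Summable.of_nonneg_of_le (fun n => norm_nonneg _) (fun n => ?_)
    (sh_hasSum_cosh (Real.sqrt ‖z‖)).summable
  rw [norm_mul, shc_norm, norm_pow]
  exact sh_bound _ (norm_nonneg _) n

theorem sh_norm_le (z : ℂ) : ‖shf z‖ ≤ Real.exp (Real.sqrt ‖z‖) := by
  have h1 : Summable (fun n => ‖shc n * z ^ n‖) := by
    apply Summable.of_nonneg_of_le (fun n => norm_nonneg _) (fun n => ?_)
      (sh_hasSum_cosh (Real.sqrt ‖z‖)).summable
    rw [norm_mul, shc_norm, norm_pow]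
    exact sh_bound _ (norm_nonneg _) n
  calc ‖shf z‖ ≤ ∑' n, ‖shc n * z ^ n‖ := norm_tsum_le_tsum_norm h1
    _ ≤ ∑' n : ℕ, (Real.sqrt ‖z‖) ^ (2 * n) / ((2 * n).factorial : ℝ) := by
        apply h1.tsum_le_tsum (fun n => ?_) (sh_hasSum_cosh _).summable
        rw [norm_mul, shc_norm, norm_pow]
        exact sh_bound _ (norm_nonneg _) n
    _ = Real.cosh (Real.sqrt ‖z‖) := (sh_hasSum_cosh _).tsum_eq
    _ ≤ Real.exp (Real.sqrt ‖z‖) := by
        rw [Real.cosh_eq]
        have : Real.exp (-Real.sqrt ‖z‖) ≤ Real.exp (Real.sqrt ‖z‖) :=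
          Real.exp_le_exp.mpr (by linarith [Real.sqrt_nonneg ‖z‖])
        linarith

/-- on squares of complex numbers -/
theorem shf_sq (w : ℂ) : w * shf (w ^ 2) = Complex.sin w := by
  rw [shf, ← tsum_mul_left, ← (Complex.hasSum_sin w).tsum_eq]
  congr 1
  funext n
  rw [shc, pow_succ w (2 * n), pow_mul]
  ring

theorem sh_fps : HasFPowerSeriesOnBall shf (FormalMultilinearSeries.ofScalars ℂ shc) 0 ⊤ := by
  have hr : (FormalMultilinearSeries.ofScalars ℂ shc).radius = ⊤ := by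
    apply FormalMultilinearSeries.radius_eq_top_of_summable_norm
    intro r
    have h := (sh_summable (r : ℂ)).norm
    refine h.congr (fun n => ?_)
    rw [FormalMultilinearSeries.ofScalars_norm, norm_mul, norm_pow]
    simp
  have h := (FormalMultilinearSeries.ofScalars ℂ shc).hasFPowerSeriesOnBall
    (by rw [hr]; exact ENNReal.coe_lt_top)
  rw [hr] at h
  have h2 : (FormalMultilinearSeries.ofScalars ℂ shc).sum = shf := by
    funext z
    rw [show (FormalMultilinearSeries.ofScalars ℂ shc).sum z = _ from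
      FormalMultilinearSeries.ofScalars_sum_eq shc z]
    simp [shf, smul_eq_mul]
  rwa [h2] at h

theorem sh_diff : Differentiable ℂ shf := by
  intro z
  have h := sh_fps.differentiableOn
  rw [Metric.eball_top] at h
  exact (h z (Set.mem_univ z)).differentiableAt Filter.univ_mem

theorem sh_iter (n : ℕ) : iteratedDeriv n shf 0 = (n.factorial : ℂ) * shc n := by
  have h := sh_fps.factorial_smul (1 : ℂ) n
  rw [iteratedDeriv_eq_iteratedFDeriv, ← h, FormalMultilinearSeries.ofScalars_apply_eq]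
  simp [nsmul_eq_mul]

/-- all Taylor coefficients are non-zero -/
theorem sh_support : {n | iteratedDeriv n shf 0 ≠ 0} = Set.univ := by
  ext n
  simp only [Set.mem_setOf_eq, Set.mem_univ, iff_true, sh_iter]
  exact mul_ne_zero (Nat.cast_ne_zero.mpr (Nat.factorial_ne_zero n)) (shc_ne n)

theorem sh_ordLe : OrdLe shf (1 / 2) := by
  intro ε hε
  filter_upwards [eventually_ge_atTop (1 : ℝ)] with r hr z hz
  refine (sh_norm_le z).trans (Real.exp_le_exp.mpr ?_)
  rw [hz, Real.sqrt_eq_rpow]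
  exact Real.rpow_le_rpow_of_exponent_le hr (by linarith)

theorem Nc_univ (t : ℝ) (ht : 0 ≤ t) : Nc Set.univ t = (⌊t⌋₊ : ℝ) + 1 := by
  have h : {n : ℕ | n ∈ Set.univ ∧ (n : ℝ) ≤ t} = ((Finset.Iic ⌊t⌋₊ : Finset ℕ) : Set ℕ) := by
    ext n
    simp [Nat.le_floor_iff ht]
  have h2 : Nat.card {n : ℕ // n ∈ Set.univ ∧ (n : ℝ) ≤ t} =
      Nat.card ((Finset.Iic ⌊t⌋₊ : Finset ℕ) : Set ℕ) := by
    rw [← h]
    rfl
  rw [Nc, h2]
  simp

theorem density_univ : HasMaxDensity Set.univ 1 := by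
  have key : ∀ ξ : ℝ, 0 < ξ → ξ < 1 →
      limsup (fun t : ℝ => (Nc Set.univ t - Nc Set.univ (ξ * t)) / ((1 - ξ) * t)) atTop = 1 := by
    intro ξ h0 h1
    apply Tendsto.limsup_eq
    have h2 : Tendsto (fun t : ℝ => ((⌊t⌋₊ : ℝ) / t - ξ * ((⌊ξ * t⌋₊ : ℝ) / (ξ * t))) / (1 - ξ)) atTop
        (𝓝 ((1 - ξ * 1) / (1 - ξ))) := by
      refine Tendsto.div_const (Tendsto.sub ?_ (Tendsto.const_mul _ ?_)) _
      · exact tendsto_nat_floor_div_atTop
      · exact tendsto_nat_floor_div_atTop.comp (tendsto_id.const_mul_atTop h0)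
    have h3 : (1 - ξ * 1) / (1 - ξ) = 1 := by
      rw [mul_one]
      exact div_self (by linarith)
    rw [h3] at h2
    refine h2.congr' ?_
    filter_upwards [eventually_gt_atTop (0 : ℝ)] with t ht
    rw [Nc_univ t ht.le, Nc_univ (ξ * t) (by positivity)]
    have h4 : 1 - ξ ≠ 0 := by linarith
    field_simp
    ring
  refine (tendsto_const_nhds (x := (1 : ℝ))).congr' ?_
  have h5 : ∀ᶠ ξ : ℝ in 𝓝[<] (1 : ℝ), 0 < ξ ∧ ξ < 1 := by
    filter_upwards [Ioo_mem_nhdsLT (show (0 : ℝ) < 1 by norm_num)] with ξ hξ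
    exact ⟨hξ.1, hξ.2⟩
  filter_upwards [h5] with ξ hξ
  exact (key ξ hξ.1 hξ.2).symm

theorem sh_nonconst : ∃ z w : ℂ, shf z ≠ shf w := by
  by_contra hcon
  push Not at hcon
  have h : shf = fun _ => shf 0 := by
    funext z
    exact hcon z 0
  have h1 := sh_iter 1
  rw [h] at h1
  simp only [iteratedDeriv_one, deriv_const'] at h1
  exact mul_ne_zero (Nat.cast_ne_zero.mpr (Nat.factorial_ne_zero 1)) (shc_ne 1) h1.symm

/-- `sin √z / √z` tends to `0` along the positive ray -/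
theorem sh_asymptotic : ∃ γ : ℝ → ℂ, Continuous γ ∧ Tendsto (fun t : ℝ => ‖γ t‖) atTop atTop ∧
    Tendsto (fun t : ℝ => shf (γ t)) atTop (𝓝 0) := by
  refine ⟨fun t => (t : ℂ) ^ 2, by fun_prop, ?_, ?_⟩
  · have : (fun t : ℝ => ‖(t : ℂ) ^ 2‖) = fun t : ℝ => t ^ 2 := by
      funext t
      simp [norm_pow]
    rw [this]
    exact tendsto_pow_atTop two_ne_zero
  · rw [tendsto_zero_iff_norm_tendsto_zero]
    refine squeeze_zero' (Eventually.of_forall fun t => norm_nonneg _) ?_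
      (tendsto_inv_atTop_zero (𝕜 := ℝ))
    filter_upwards [eventually_gt_atTop (0 : ℝ)] with t ht
    have h1 := shf_sq (t : ℂ)
    have h2 : ‖(t : ℂ)‖ * ‖shf ((t : ℂ) ^ 2)‖ ≤ 1 := by
      rw [← norm_mul, h1, ← Complex.ofReal_sin, Complex.norm_real]
      exact Real.abs_sin_le_one t
    have h3 : ‖(t : ℂ)‖ = t := by
      rw [Complex.norm_real]
      exact abs_of_pos ht
    rw [h3] at h2
    rw [← one_div, le_div_iff₀ ht]
    linarith

end

end Pool.Agent.LibAV71
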