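import Pool.Agent.LibAV71.LocMax

/-! Task D5a: the barrier for order zero. -/

set_option autoImplicit false

open Filter Topology Complex ComplexConjugate

namespace Pool.Agent.LibAV71

noncomputable section

def D0 (β : ℝ) : ℝ := 12 * β + 12

def kap (β : ℝ) : ℝ := 1 / (2 * D0 β)

def P0 (β : ℝ) : ℝ := Real.log 48 / kap β

/-- the barrier for order zero (to be used as `(g0/2)^2`) -/
def g0 (β : ℝ) (s t : ℂ) : ℝ :=
  (3 / D0 β * ‖s - t‖ - (kap β) ^ 2 * ‖s - t‖ ^ 2)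
    + (((1 / 20 : ℂ)) * Complex.exp (kap β * (s + conj t) / 2)
        + (1 / 20 : ℂ) * Complex.exp (-(kap β * (s + conj t) / 2))).re

theorem g0_continuous (β : ℝ) : Continuous (fun p : ℂ × ℂ => g0 β p.1 p.2) := by
  unfold g0
  fun_prop

theorem g0_per (β y : ℝ) (s t : ℂ) : g0 β (s + y * I) (t + y * I) = g0 β s t := by
  unfold g0
  have h1 : s + y * I - (t + y * I) = s - t := by ring
  have h2 : s + y * I + conj (t + y * I) = s + conj t := by
    rw [map_add, map_mul, Complex.conj_ofReal, Complex.conj_I]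
    ring
  rw [h1, h2]

theorem ZBar_D0_pos {β : ℝ} (hβ : 0 < β) : 0 < D0 β := by unfold D0; linarith

theorem ZBar_kap_pos {β : ℝ} (hβ : 0 < β) : 0 < kap β := by
  unfold kap
  have := ZBar_D0_pos hβ
  positivity

theorem ZBar_kap_D0 {β : ℝ} (hβ : 0 < β) : kap β * D0 β = 1 / 2 := by
  unfold kap
  have := (ZBar_D0_pos hβ).ne'
  field_simp

theorem ZBar_arg (κ : ℝ) (s t : ℂ) : (κ : ℂ) * (s + conj t) / 2 =
    ((κ * ((s.re + t.re) / 2) : ℝ) : ℂ) + ((κ * ((s.im - t.im) / 2) : ℝ) : ℂ) * I := by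
  apply Complex.ext
  · simp
    ring
  · simp
    ring

theorem ZBar_exp_re (κ : ℝ) (s t : ℂ) : (Complex.exp (κ * (s + conj t) / 2)).re =
    Real.exp (κ * ((s.re + t.re) / 2)) * Real.cos (κ * ((s.im - t.im) / 2)) := by
  rw [ZBar_arg, Complex.exp_re]
  simp

theorem ZBar_exp_im (κ : ℝ) (s t : ℂ) : (Complex.exp (κ * (s + conj t) / 2)).im =
    Real.exp (κ * ((s.re + t.re) / 2)) * Real.sin (κ * ((s.im - t.im) / 2)) := by
  rw [ZBar_arg, Complex.exp_im]
  simp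

theorem ZBar_exp_neg_re (κ : ℝ) (s t : ℂ) : (Complex.exp (-(κ * (s + conj t) / 2))).re =
    Real.exp (-(κ * ((s.re + t.re) / 2))) * Real.cos (κ * ((s.im - t.im) / 2)) := by
  rw [ZBar_arg, Complex.exp_re]
  simp

theorem ZBar_exp_neg_im (κ : ℝ) (s t : ℂ) : (Complex.exp (-(κ * (s + conj t) / 2))).im =
    -(Real.exp (-(κ * ((s.re + t.re) / 2))) * Real.sin (κ * ((s.im - t.im) / 2))) := by
  rw [ZBar_arg, Complex.exp_im]
  simp

theorem ZBar_psi (κ : ℝ) (s t : ℂ) : (((1 / 20 : ℂ)) * Complex.exp (κ * (s + conj t) / 2)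
        + (1 / 20 : ℂ) * Complex.exp (-(κ * (s + conj t) / 2))).re =
    1 / 10 * Real.cosh (κ * ((s.re + t.re) / 2)) * Real.cos (κ * ((s.im - t.im) / 2)) := by
  have h : (1 / 20 : ℂ) = ((1 / 20 : ℝ) : ℂ) := by norm_num
  rw [h, Complex.add_re, Complex.re_ofReal_mul, Complex.re_ofReal_mul, ZBar_exp_re,
    ZBar_exp_neg_re, Real.cosh_eq]
  ring

/-- the second summand is at least `0.096 cosh (κ p)` -/
theorem g0_psi_ge (β : ℝ) (hβ : 0 < β) (s t : ℂ) (h : ‖s - t‖ ≤ D0 β) :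
    (96 / 1000 : ℝ) * Real.cosh (kap β * ((s.re + t.re) / 2)) ≤
    (((1 / 20 : ℂ)) * Complex.exp (kap β * (s + conj t) / 2)
        + (1 / 20 : ℂ) * Complex.exp (-(kap β * (s + conj t) / 2))).re := by
  rw [ZBar_psi]
  have h1 : |s.im - t.im| ≤ D0 β := by
    have := Complex.abs_im_le_norm (s - t)
    rw [Complex.sub_im] at this
    exact this.trans h
  have hk := ZBar_kap_pos hβ
  have hkD := ZBar_kap_D0 hβ
  have h2 : |kap β * ((s.im - t.im) / 2)| ≤ 1 / 4 := by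
    rw [abs_mul, abs_div, abs_of_pos hk, abs_two]
    nlinarith
  have h3 : 1 - (1 / 4 : ℝ) ^ 2 / 2 ≤ Real.cos (kap β * ((s.im - t.im) / 2)) := by
    have h4 := Real.one_sub_sq_div_two_le_cos (x := kap β * ((s.im - t.im) / 2))
    have h5 : (kap β * ((s.im - t.im) / 2)) ^ 2 ≤ (1 / 4 : ℝ) ^ 2 := sq_le_sq' (by
      have := abs_le.1 h2; linarith [this.1]) (abs_le.1 h2).2
    linarith
  have hc : 0 < Real.cosh (kap β * ((s.re + t.re) / 2)) := Real.cosh_pos _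
  nlinarith

theorem ZBar_phi_nonneg {β : ℝ} (hβ : 0 < β) {x : ℝ} (hx : 0 ≤ x) (h : x ≤ D0 β) :
    0 ≤ 3 / D0 β * x - (kap β) ^ 2 * x ^ 2 := by
  have hD := ZBar_D0_pos hβ
  have hk := ZBar_kap_pos hβ
  have hkD := ZBar_kap_D0 hβ
  have h1 : (kap β) ^ 2 * x ≤ 3 / D0 β := by
    rw [le_div_iff₀ hD]
    have h2 : kap β * x ≤ 1 / 2 := by nlinarith
    have h3 : 0 ≤ kap β * x := by positivity
    calc (kap β) ^ 2 * x * D0 β = (kap β * x) * (kap β * D0 β) := by ring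
      _ ≤ 3 := by rw [hkD]; linarith
  nlinarith

theorem g0_pos (β : ℝ) (hβ : 0 < β) (s t : ℂ) (h : ‖s - t‖ ≤ D0 β) : 0 < g0 β s t := by
  have h1 := g0_psi_ge β hβ s t h
  have h2 := ZBar_phi_nonneg hβ (norm_nonneg (s - t)) h
  have hc : 0 < Real.cosh (kap β * ((s.re + t.re) / 2)) := Real.cosh_pos _
  unfold g0
  linarith

theorem g0_target (β : ℝ) (hβ : 0 < β) (y₁ y₂ : ℝ) (h : |y₁ - y₂| ≤ 2 * β) :
    (g0 β (y₁ * I) (y₂ * I) / 2) ^ 2 < (1 / 2) ^ 2 := by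
  have hn : ‖(y₁ * I : ℂ) - y₂ * I‖ = |y₁ - y₂| := by
    rw [← sub_mul, norm_mul, Complex.norm_I, mul_one, ← Complex.ofReal_sub, Complex.norm_real,
      Real.norm_eq_abs]
  have hD := ZBar_D0_pos hβ
  have hle : ‖(y₁ * I : ℂ) - y₂ * I‖ ≤ D0 β := by
    rw [hn]
    unfold D0
    linarith
  have hpos := g0_pos β hβ (y₁ * I) (y₂ * I) hle
  have h1 : g0 β (y₁ * I) (y₂ * I) < 6 / 10 := by
    unfold g0
    rw [ZBar_psi, hn]
    have h2 : 3 / D0 β * |y₁ - y₂| < 1 / 2 := by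
      rw [div_mul_eq_mul_div, div_lt_iff₀ hD]
      unfold D0
      linarith
    have h3 : 0 ≤ (kap β) ^ 2 * |y₁ - y₂| ^ 2 := by positivity
    have h4 : (kap β * (((y₁ * I : ℂ).re + (y₂ * I : ℂ).re) / 2)) = 0 := by simp
    rw [h4, Real.cosh_zero]
    have h5 := Real.cos_le_one (kap β * (((y₁ * I : ℂ).im - (y₂ * I : ℂ).im) / 2))
    linarith
  have h2 : 0 < g0 β (y₁ * I) (y₂ * I) / 2 := by linarith
  have h3 : g0 β (y₁ * I) (y₂ * I) / 2 < 1 / 2 := by linarith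
  exact pow_lt_pow_left₀ h3 h2.le two_ne_zero

theorem ZBar_cosh {β : ℝ} (hβ : 0 < β) : Real.cosh (kap β * P0 β) = (48 + 1 / 48) / 2 := by
  have hk := (ZBar_kap_pos hβ).ne'
  have h : kap β * P0 β = Real.log 48 := by
    unfold P0
    field_simp
  rw [h, Real.cosh_eq, Real.exp_neg, Real.exp_log (by norm_num)]
  norm_num

theorem g0_boundary (β : ℝ) (hβ : 0 < β) (s t : ℂ) (h : ‖s - t‖ ≤ D0 β)
    (hb : |(s.re + t.re) / 2| = P0 β ∨ ‖s - t‖ = D0 β) : (121 / 100 : ℝ) ≤ (g0 β s t / 2) ^ 2 := by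
  have hk := ZBar_kap_pos hβ
  have hD := ZBar_D0_pos hβ
  have hkD := ZBar_kap_D0 hβ
  have h1 := g0_psi_ge β hβ s t h
  have h2 := ZBar_phi_nonneg hβ (norm_nonneg (s - t)) h
  have hc : 0 < Real.cosh (kap β * ((s.re + t.re) / 2)) := Real.cosh_pos _
  have key : 22 / 10 ≤ g0 β s t := by
    unfold g0
    rcases hb with hb | hb
    · have h3 : Real.cosh (kap β * ((s.re + t.re) / 2)) = (48 + 1 / 48) / 2 := by
        rw [← ZBar_cosh hβ, ← Real.cosh_abs, abs_mul, hb, abs_of_pos hk]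
      rw [h3] at h1
      linarith
    · have h3 : 3 / D0 β * ‖s - t‖ - (kap β) ^ 2 * ‖s - t‖ ^ 2 = 3 - 1 / 4 := by
        rw [hb, div_mul_cancel₀ _ hD.ne', ← mul_pow, hkD]
        norm_num
      rw [h3]
      linarith
  nlinarith

theorem ZBar_hasDeriv (c κ : ℂ) (z : ℂ) :
    HasDerivAt (fun s : ℂ => c * Complex.exp (κ * s)) (c * (Complex.exp (κ * z) * κ)) z := by
  have h1 : HasDerivAt (fun s : ℂ => κ * s) κ z := by
    simpa using (hasDerivAt_id z).const_mul κ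
  exact (h1.cexp).const_mul c

theorem ZBar_analytic (c κ : ℂ) (z : ℂ) :
    AnalyticAt ℂ (fun s : ℂ => c * Complex.exp (κ * s)) z := by
  have : Differentiable ℂ (fun s : ℂ => c * Complex.exp (κ * s)) := by fun_prop
  exact this.analyticAt z

theorem g0_no_max (β : ℝ) (hβ : 0 < β) (u : ℂ → ℝ) (s t : ℂ) (hst : s ≠ t)
    (h1 : |(s.re + t.re) / 2| ≤ P0 β) (h2 : ‖s - t‖ ≤ D0 β)
    (hs : 0 < u s) (ht : 0 < u t)
    (hLs : ∃ L : ℂ → ℂ, AnalyticAt ℂ L s ∧ ∀ᶠ w in 𝓝 s, u w = (L w).re)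
    (hLt : ∃ L : ℂ → ℂ, AnalyticAt ℂ L t ∧ ∀ᶠ w in 𝓝 t, u w = (L w).re)
    (hmax : ∀ᶠ p : ℂ × ℂ in 𝓝 (s, t), u p.1 * u p.2 * (g0 β s t) ^ 2 ≤
      u s * u t * (g0 β p.1 p.2) ^ 2) : False := by
  obtain ⟨L₁, hL₁, hu₁⟩ := hLs
  obtain ⟨L₂, hL₂, hu₂⟩ := hLt
  have hk := ZBar_kap_pos hβ
  have hD := ZBar_D0_pos hβ
  have hkD := ZBar_kap_D0 hβ
  set κ : ℝ := kap β with hκ
  have e₁ : u s = (L₁ s).re := hu₁.self_of_nhds
  have e₂ : u t = (L₂ t).re := hu₂.self_of_nhds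
  set a : ℂ := (κ : ℂ) / 2 with ha
  have hconj : conj a = a := by
    have h : (κ : ℂ) / 2 = ((κ / 2 : ℝ) : ℂ) := by push_cast; rfl
    rw [ha, h, Complex.conj_ofReal]
  have hmain := loc_max L₁ L₂ (fun z => (1 / 20 : ℂ) * Complex.exp (a * z))
    (fun z => 1 * Complex.exp (a * z)) (fun z => (1 / 20 : ℂ) * Complex.exp (-a * z))
    (fun z => 1 * Complex.exp (-a * z)) s t hst hL₁ hL₂ (ZBar_analytic _ _ _)
    (ZBar_analytic _ _ _) (ZBar_analytic _ _ _) (ZBar_analytic _ _ _) (e₁ ▸ hs) (e₂ ▸ ht)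
    (fun x => 3 / D0 β * x - κ ^ 2 * x ^ 2) (fun x => 3 / D0 β - κ ^ 2 * (2 * x))
    (-(κ ^ 2 * 2)) ?_ ?_ (g0 β) ?_ (g0_pos β hβ s t h2) ?_ ((s - t) / ‖s - t‖) rfl
  · -- conclusion
    set ν : ℂ := (s - t) / ‖s - t‖ with hν
    have hνn : ‖ν‖ = 1 := by
      rw [hν, norm_div, Complex.norm_real, norm_norm, div_self]
      rw [norm_ne_zero_iff]
      exact sub_ne_zero.2 hst
    set p : ℝ := (s.re + t.re) / 2 with hp
    set θ : ℝ := (s.im - t.im) / 2 with hθ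
    set Ep : ℂ := Complex.exp (κ * (s + conj t) / 2) with hEp
    set Em : ℂ := Complex.exp (-(κ * (s + conj t) / 2)) with hEm
    have dk₁ := (ZBar_hasDeriv (1 / 20) a s).deriv
    have dl₁ := (ZBar_hasDeriv 1 a t).deriv
    have dk₂ := (ZBar_hasDeriv (1 / 20) (-a) s).deriv
    have dl₂ := (ZBar_hasDeriv 1 (-a) t).deriv
    rw [dk₁, dl₁, dk₂, dl₂] at hmain
    have c₁ : conj (Complex.exp (a * t)) = Complex.exp (a * conj t) := by
      rw [← Complex.exp_conj, map_mul, hconj]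
    have c₂ : conj (Complex.exp (-a * t)) = Complex.exp (-a * conj t) := by
      rw [← Complex.exp_conj, map_mul, map_neg, hconj]
    have m₁ : Complex.exp (a * s) * Complex.exp (a * conj t) = Ep := by
      rw [← Complex.exp_add, hEp, ha]
      congr 1
      ring
    have m₂ : Complex.exp (-a * s) * Complex.exp (-a * conj t) = Em := by
      rw [← Complex.exp_add, hEm, ha]
      congr 1
      ring
    have x₃ : ((1 / 20 : ℂ) * (Complex.exp (a * s) * a) * ν * conj (1 * Complex.exp (a * t))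
        + (1 / 20 : ℂ) * Complex.exp (a * s) * conj (1 * (Complex.exp (a * t) * a) * ν)
        + ((1 / 20 : ℂ) * (Complex.exp (-a * s) * -a) * ν * conj (1 * Complex.exp (-a * t))
        + (1 / 20 : ℂ) * Complex.exp (-a * s) * conj (1 * (Complex.exp (-a * t) * -a) * ν))) =
        (((κ / 40 : ℝ)) : ℂ) * ((Ep - Em) * (ν + conj ν)) := by
      simp only [one_mul, map_mul, map_neg, c₁, c₂, hconj]
      rw [← m₁, ← m₂, ha]
      push_cast
      ring
    have x₄ : ((1 / 20 : ℂ) * (Complex.exp (a * s) * a) * (I * ν) * conj (1 * Complex.exp (a * t))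
        - (1 / 20 : ℂ) * Complex.exp (a * s) * conj (1 * (Complex.exp (a * t) * a) * (I * ν))
        + ((1 / 20 : ℂ) * (Complex.exp (-a * s) * -a) * (I * ν) * conj (1 * Complex.exp (-a * t))
        - (1 / 20 : ℂ) * Complex.exp (-a * s) * conj (1 * (Complex.exp (-a * t) * -a) * (I * ν)))) =
        (((κ / 40 : ℝ)) : ℂ) * ((Ep - Em) * (I * (ν + conj ν))) := by
      simp only [one_mul, map_mul, map_neg, c₁, c₂, hconj, Complex.conj_I]
      rw [← m₁, ← m₂, ha]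
      push_cast
      ring
    rw [x₃, x₄] at hmain
    have hνr : ν + conj ν = ((2 * ν.re : ℝ) : ℂ) := Complex.add_conj ν
    have r₃ : ((((κ / 40 : ℝ)) : ℂ) * ((Ep - Em) * (ν + conj ν))).re =
        κ / 10 * ν.re * (Real.sinh (κ * p) * Real.cos (κ * θ)) := by
      rw [hνr, mul_comm (Ep - Em), Complex.re_ofReal_mul, Complex.re_ofReal_mul, Complex.sub_re,
        hEp, hEm, ZBar_exp_re, ZBar_exp_neg_re, Real.sinh_eq]
      ring
    have r₄ : ((((κ / 40 : ℝ)) : ℂ) * ((Ep - Em) * (I * (ν + conj ν)))).re =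
        -(κ / 10 * ν.re * (Real.cosh (κ * p) * Real.sin (κ * θ))) := by
      have : (Ep - Em) * (I * (ν + conj ν)) = ((2 * ν.re : ℝ) : ℂ) * (I * (Ep - Em)) := by
        rw [hνr]
        ring
      rw [this, Complex.re_ofReal_mul, Complex.re_ofReal_mul, Complex.I_mul_re, Complex.sub_im,
        hEp, hEm, ZBar_exp_im, ZBar_exp_neg_im, Real.cosh_eq]
      ring
    rw [r₃, r₄] at hmain
    have hc : 0 < Real.cosh (κ * p) := Real.cosh_pos _
    have hg : 96 / 1000 * Real.cosh (κ * p) ≤ g0 β s t := by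
      have a1 := g0_psi_ge β hβ s t h2
      have a2 := ZBar_phi_nonneg hβ (norm_nonneg (s - t)) h2
      unfold g0
      linarith
    have hcb : Real.cosh (κ * p) ≤ (48 + 1 / 48) / 2 := by
      rw [← ZBar_cosh hβ, ← Real.cosh_abs, ← Real.cosh_abs (kap β * P0 β)]
      rw [Real.cosh_le_cosh, abs_abs, abs_abs, abs_mul, abs_mul]
      exact mul_le_mul_of_nonneg_left (h1.trans (le_abs_self _)) (abs_nonneg _)
    have hν2 : ν.re ^ 2 ≤ 1 := by
      have := Complex.abs_re_le_norm ν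
      rw [hνn] at this
      exact (sq_le_one_iff_abs_le_one _).2 this
    have hsc : (Real.sinh (κ * p) * Real.cos (κ * θ)) ^ 2 +
        (Real.cosh (κ * p) * Real.sin (κ * θ)) ^ 2 ≤ Real.cosh (κ * p) ^ 2 := by
      have i1 := Real.cosh_sq (κ * p)
      have i2 := Real.sin_sq_add_cos_sq (κ * θ)
      have i3 : Real.sinh (κ * p) ^ 2 * Real.cos (κ * θ) ^ 2 ≤
          Real.cosh (κ * p) ^ 2 * Real.cos (κ * θ) ^ 2 := by
        refine mul_le_mul_of_nonneg_right ?_ (sq_nonneg _)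
        rw [i1]
        linarith
      calc (Real.sinh (κ * p) * Real.cos (κ * θ)) ^ 2 +
          (Real.cosh (κ * p) * Real.sin (κ * θ)) ^ 2 =
          Real.sinh (κ * p) ^ 2 * Real.cos (κ * θ) ^ 2 +
            Real.cosh (κ * p) ^ 2 * Real.sin (κ * θ) ^ 2 := by ring
        _ ≤ Real.cosh (κ * p) ^ 2 * Real.cos (κ * θ) ^ 2 +
            Real.cosh (κ * p) ^ 2 * Real.sin (κ * θ) ^ 2 := by linarith
        _ = Real.cosh (κ * p) ^ 2 * (Real.sin (κ * θ) ^ 2 + Real.cos (κ * θ) ^ 2) := by ring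
        _ = Real.cosh (κ * p) ^ 2 := by rw [i2, mul_one]
    have hfin : (κ / 10 * ν.re * (Real.sinh (κ * p) * Real.cos (κ * θ))) ^ 2 +
        (-(κ / 10 * ν.re * (Real.cosh (κ * p) * Real.sin (κ * θ)))) ^ 2 ≤
        κ ^ 2 / 100 * Real.cosh (κ * p) ^ 2 := by
      have j0 : (κ / 10 * ν.re * (Real.sinh (κ * p) * Real.cos (κ * θ))) ^ 2 +
        (-(κ / 10 * ν.re * (Real.cosh (κ * p) * Real.sin (κ * θ)))) ^ 2 =
        κ ^ 2 / 100 * (ν.re ^ 2 * ((Real.sinh (κ * p) * Real.cos (κ * θ)) ^ 2 +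
        (Real.cosh (κ * p) * Real.sin (κ * θ)) ^ 2)) := by ring
      rw [j0]
      refine mul_le_mul_of_nonneg_left ?_ (by positivity)
      calc ν.re ^ 2 * ((Real.sinh (κ * p) * Real.cos (κ * θ)) ^ 2 +
        (Real.cosh (κ * p) * Real.sin (κ * θ)) ^ 2) ≤ 1 * Real.cosh (κ * p) ^ 2 :=
          mul_le_mul hν2 hsc (by positivity) zero_le_one
        _ = Real.cosh (κ * p) ^ 2 := one_mul _
    have hκ2 : 0 < κ ^ 2 := by positivity
    have hlast : 8 * κ ^ 2 * g0 β s t ≤ κ ^ 2 / 100 * Real.cosh (κ * p) ^ 2 := by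
      have := hmain.trans hfin
      linarith
    have k1 : 8 * κ ^ 2 * (96 / 1000 * Real.cosh (κ * p)) ≤
        κ ^ 2 / 100 * Real.cosh (κ * p) ^ 2 :=
      (mul_le_mul_of_nonneg_left hg (by positivity)).trans hlast
    have k2 : κ ^ 2 / 100 * Real.cosh (κ * p) ^ 2 ≤
        κ ^ 2 / 100 * (Real.cosh (κ * p) * ((48 + 1 / 48) / 2)) := by
      refine mul_le_mul_of_nonneg_left ?_ (by positivity)
      rw [sq]
      exact mul_le_mul_of_nonneg_left hcb hc.le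
    have k3 := k1.trans k2
    have k4 : 0 < κ ^ 2 * Real.cosh (κ * p) := by positivity
    nlinarith
  · refine Eventually.of_forall fun x => ?_
    have d1 : HasDerivAt (fun x : ℝ => 3 / D0 β * x) (3 / D0 β) x := by
      simpa using (hasDerivAt_id x).const_mul (3 / D0 β)
    have d2 : HasDerivAt (fun x : ℝ => κ ^ 2 * x ^ 2) (κ ^ 2 * (2 * x)) x := by
      simpa using (hasDerivAt_pow 2 x).const_mul (κ ^ 2)
    exact d1.sub d2
  · have d2 : HasDerivAt (fun x : ℝ => κ ^ 2 * (2 * x)) (κ ^ 2 * 2) ‖s - t‖ := by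
      simpa using ((hasDerivAt_id ‖s - t‖).const_mul 2).const_mul (κ ^ 2)
    have d3 := (hasDerivAt_const ‖s - t‖ (3 / D0 β)).sub d2
    rw [zero_sub] at d3
    exact d3
  · intro ζ₁ ζ₂
    have c₁ : conj (Complex.exp (a * ζ₂)) = Complex.exp (a * conj ζ₂) := by
      rw [← Complex.exp_conj, map_mul, hconj]
    have c₂ : conj (Complex.exp (-a * ζ₂)) = Complex.exp (-a * conj ζ₂) := by
      rw [← Complex.exp_conj, map_mul, map_neg, hconj]
    have m₁ : Complex.exp (κ * (ζ₁ + conj ζ₂) / 2) =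
        Complex.exp (a * ζ₁) * Complex.exp (a * conj ζ₂) := by
      rw [← Complex.exp_add, ha]
      congr 1
      ring
    have m₂ : Complex.exp (-(κ * (ζ₁ + conj ζ₂) / 2)) =
        Complex.exp (-a * ζ₁) * Complex.exp (-a * conj ζ₂) := by
      rw [← Complex.exp_add, ha]
      congr 1
      ring
    unfold g0
    rw [← hκ, m₁, m₂]
    simp only [one_mul, c₁, c₂, mul_assoc]
  · have f₁ : ∀ᶠ q : ℂ × ℂ in 𝓝 (s, t), u q.1 = (L₁ q.1).re :=
      (continuous_fst.tendsto (s, t)).eventually hu₁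
    have f₂ : ∀ᶠ q : ℂ × ℂ in 𝓝 (s, t), u q.2 = (L₂ q.2).re :=
      (continuous_snd.tendsto (s, t)).eventually hu₂
    filter_upwards [hmax, f₁, f₂] with q hq q₁ q₂
    rw [← q₁, ← q₂, ← e₁, ← e₂]
    exact hq

end

end Pool.Agent.LibAV71
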